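import Pool.Agent.CbRank.Defs

/-!
The lower bound: the map from the two-dimensional row space to the two-dimensional column space.
-/

namespace CbRank

open scoped ComplexConjugate InnerProductSpace ENNReal

universe u

/-- The two-dimensional Hilbert space (in any universe). -/
abbrev H2 : Type u := EuclideanSpace ℂ (ULift.{u} (Fin 2))

/-- first index -/
def i0 : ULift.{u} (Fin 2) := ULift.up 0

/-- first basis vector -/
noncomputable def e0 : H2.{u} := EuclideanSpace.single i0 1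

/-- coordinates -/
noncomputable def crd (i : ULift.{u} (Fin 2)) : H2.{u} →L[ℂ] ℂ :=
  PiLp.proj 2 (fun _ : ULift.{u} (Fin 2) => ℂ) i

theorem crd_apply (i : ULift.{u} (Fin 2)) (h : H2.{u}) : crd i h = h i := rfl

/-- column operators `h ↦ h_0 v` -/
noncomputable def colMap : H2.{u} →ₗ[ℂ] (H2.{u} →L[ℂ] H2.{u}) where
  toFun v := (crd i0).smulRight v
  map_add' v w := by ext h : 1; simp
  map_smul' c v := by
    ext h : 1
    simp only [ContinuousLinearMap.smulRight_apply, RingHom.id_apply, _root_.smul_apply]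
    rw [smul_comm]

/-- row operators `h ↦ (∑ v_i h_i) e_0` -/
noncomputable def rowMap : H2.{u} →ₗ[ℂ] (H2.{u} →L[ℂ] H2.{u}) where
  toFun v := (∑ i, v i • crd i).smulRight e0
  map_add' v w := by
    ext h : 1
    simp [add_mul, Finset.sum_add_distrib, add_smul]
  map_smul' c v := by
    ext h : 1
    simp [mul_assoc, ← Finset.mul_sum, smul_smul]

theorem colMap_apply (v h : H2.{u}) : colMap v h = h i0 • v := rfl

theorem rowMap_apply (v h : H2.{u}) : rowMap v h = (∑ i, v i * h i) • e0 := by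
  simp [rowMap, crd_apply]

theorem norm_e0 : ‖(e0 : H2.{u})‖ = 1 := by
  simp [e0]

theorem norm_colMap_le (v : H2.{u}) : ‖colMap v‖ ≤ ‖v‖ := by
  refine ContinuousLinearMap.opNorm_le_bound _ (norm_nonneg _) fun h => ?_
  rw [colMap_apply, norm_smul, mul_comm]
  gcongr
  exact PiLp.norm_apply_le h i0

theorem le_norm_rowMap (v : H2.{u}) : ‖v‖ ≤ ‖rowMap v‖ := by
  by_cases hv : v = 0
  · rw [hv, norm_zero]; exact norm_nonneg _
  have hv' : 0 < ‖v‖ := norm_pos_iff.mpr hv
  let w : H2.{u} := WithLp.toLp 2 fun i => conj (v i)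
  have hw : ‖w‖ = ‖v‖ := by
    rw [EuclideanSpace.norm_eq, EuclideanSpace.norm_eq]
    simp [w]
  have h1 : rowMap v w = ((‖v‖ ^ 2 : ℝ) : ℂ) • e0 := by
    rw [rowMap_apply, EuclideanSpace.norm_sq_eq]
    congr 1
    push_cast
    refine Finset.sum_congr rfl fun i _ => ?_
    change v i * conj (v i) = _
    rw [Complex.mul_conj, Complex.normSq_eq_norm_sq]
    push_cast
    rfl
  have h2 := (rowMap v).le_opNorm w
  rw [h1, norm_smul, norm_e0, hw, mul_one, Complex.norm_real, Real.norm_eq_abs,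
    abs_of_nonneg (by positivity)] at h2
  have h3 : ‖v‖ * ‖v‖ ≤ ‖rowMap v‖ * ‖v‖ := by rw [← pow_two]; exact h2
  exact le_of_mul_le_mul_right h3 hv'

theorem rowMap_injective : Function.Injective (rowMap : H2.{u} →ₗ[ℂ] _) := by
  rw [← LinearMap.ker_eq_bot, LinearMap.ker_eq_bot']
  intro v hv
  have := le_norm_rowMap v
  rw [hv, norm_zero] at this
  exact norm_le_zero_iff.mp this

/-- the row space -/
noncomputable abbrev rowSpace : Submodule ℂ (H2.{u} →L[ℂ] H2.{u}) := LinearMap.range rowMap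

/-- the column space -/
noncomputable abbrev colSpace : Submodule ℂ (H2.{u} →L[ℂ] H2.{u}) := LinearMap.range colMap

/-- the map row ↦ column -/
noncomputable def rc : rowSpace.{u} →ₗ[ℂ] colSpace.{u} :=
  colMap.rangeRestrict.comp (LinearEquiv.ofInjective rowMap rowMap_injective).symm.toLinearMap

/-- row element -/
noncomputable def rowEl (v : H2.{u}) : rowSpace.{u} := ⟨rowMap v, ⟨v, rfl⟩⟩

theorem rc_rowEl (v : H2.{u}) : ((rc (rowEl v) : colSpace.{u}) : H2.{u} →L[ℂ] H2.{u}) = colMap v := by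
  have : (LinearEquiv.ofInjective rowMap rowMap_injective).symm (rowEl v) = v := by
    rw [LinearEquiv.symm_apply_eq]
    rfl
  change ((colMap.rangeRestrict ((LinearEquiv.ofInjective rowMap rowMap_injective).symm
    (rowEl v)) : colSpace.{u}) : H2.{u} →L[ℂ] H2.{u}) = colMap v
  rw [this]
  rfl

theorem opNorm_rc_le : opNorm rc.{u} ≤ 1 := by
  unfold opNorm
  refine iSup₂_le fun x hx => ?_
  obtain ⟨v, hv⟩ := x.2
  have hx' : x = rowEl v := Subtype.ext hv.symm
  rw [← ENNReal.ofReal_one]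
  apply ENNReal.ofReal_le_ofReal
  have h1 : ‖rc x‖ = ‖colMap v‖ := by
    rw [← rc_rowEl, hx']; rfl
  have h2 : ‖x‖ = ‖rowMap v‖ := by
    rw [hx']; rfl
  rw [h1]
  rw [h2] at hx
  exact (norm_colMap_le v).trans ((le_norm_rowMap v).trans hx)

/-- the test matrix -/
noncomputable def xmat : Fin 2 → Fin 2 → rowSpace.{u} := fun i j =>
  if j = 0 then rowEl (EuclideanSpace.single (ULift.up i) 1) else 0

theorem xmat_norm : matNorm xmat.{u} ≤ 1 := by
  unfold matNorm
  refine ContinuousLinearMap.opNorm_le_bound _ zero_le_one fun v => ?_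
  rw [one_mul]
  have h : ‖(matOp fun i j => (xmat i j : H2.{u} →L[ℂ] H2.{u})) v‖ ^ 2 ≤ ‖v‖ ^ 2 := by
    rw [PiLp.norm_sq_eq_of_L2, PiLp.norm_sq_eq_of_L2]
    have h1 : ∀ i, (matOp fun i j => (xmat i j : H2.{u} →L[ℂ] H2.{u})) v i =
        (v 0 (ULift.up i)) • e0 := by
      intro i
      rw [matOp_apply]
      simp only [Fin.sum_univ_two, xmat]
      simp [rowEl, rowMap_apply]
    simp only [h1, norm_smul, norm_e0, mul_one, Fin.sum_univ_two]
    have h2 : ‖v 0‖ ^ 2 = ‖v 0 (ULift.up 0)‖ ^ 2 + ‖v 0 (ULift.up 1)‖ ^ 2 := by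
      rw [EuclideanSpace.norm_sq_eq]
      rw [← Equiv.sum_comp Equiv.ulift.symm]
      simp [Fin.sum_univ_two]
    have h3 : 0 ≤ ‖v 1‖ ^ 2 := by positivity
    linarith
  exact (pow_le_pow_iff_left₀ (norm_nonneg _) (norm_nonneg _) two_ne_zero).mp h

theorem rc_xmat_norm : Real.sqrt 2 ≤ matNorm fun i j => rc (xmat.{u} i j) := by
  unfold matNorm
  let v : Pow H2.{u} 2 := WithLp.toLp 2 fun i => if i = 0 then e0 else 0
  have hv : ‖v‖ = 1 := by
    have : ‖v‖ ^ 2 = 1 ^ 2 := by
      rw [PiLp.norm_sq_eq_of_L2]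
      simp [v, Fin.sum_univ_two, norm_e0]
    exact (pow_left_inj₀ (norm_nonneg _) zero_le_one two_ne_zero).mp this
  have h1 : ∀ i, (matOp fun i j => (rc (xmat i j) : H2.{u} →L[ℂ] H2.{u})) v i =
      EuclideanSpace.single (ULift.up i) 1 := by
    intro i
    rw [matOp_apply]
    simp only [Fin.sum_univ_two, xmat, if_true]
    simp [v, rc_rowEl, colMap_apply, e0]
  have h2 : ‖(matOp fun i j => (rc (xmat i j) : H2.{u} →L[ℂ] H2.{u})) v‖ ^ 2 = 2 := by
    rw [PiLp.norm_sq_eq_of_L2]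
    simp [h1]
  have h3 := (matOp fun i j => (rc (xmat i j) : H2.{u} →L[ℂ] H2.{u})).le_opNorm v
  rw [hv, mul_one] at h3
  refine le_trans ?_ h3
  rw [← h2, Real.sqrt_sq (norm_nonneg _)]

theorem lower (c : ℝ) (hc : 0 < c) (h : IsRankBound.{u} c) : 1 / Real.sqrt 2 ≤ c := by
  have h1 := h 2 le_rfl H2.{u} H2.{u} rowSpace colSpace
    (Submodule.closed_of_finiteDimensional _) (Submodule.closed_of_finiteDimensional _)
    rc inferInstance (by
      refine (LinearMap.finrank_range_le _).trans ?_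
      refine (LinearMap.finrank_range_le _).trans ?_
      simp)
  have h2 : ENNReal.ofReal (Real.sqrt 2) ≤ cbNorm rc.{u} := by
    unfold cbNorm ampNorm
    refine le_trans ?_ (le_iSup₂ (f := fun (k : ℕ) (_ : 1 ≤ k) =>
      ⨆ (x : Fin k → Fin k → rowSpace.{u}) (_ : matNorm x ≤ 1),
        ENNReal.ofReal (matNorm fun i j => rc (x i j))) 2 one_le_two)
    refine le_trans ?_ (le_iSup₂ (f := fun (x : Fin 2 → Fin 2 → rowSpace.{u})
      (_ : matNorm x ≤ 1) => ENNReal.ofReal (matNorm fun i j => rc (x i j))) xmat xmat_norm)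
    exact ENNReal.ofReal_le_ofReal rc_xmat_norm
  have h3 : ENNReal.ofReal (Real.sqrt 2) ≤ ENNReal.ofReal (c * (2 : ℕ)) := by
    calc ENNReal.ofReal (Real.sqrt 2) ≤ cbNorm rc.{u} := h2
      _ ≤ ENNReal.ofReal (c * (2 : ℕ)) * opNorm rc := h1
      _ ≤ ENNReal.ofReal (c * (2 : ℕ)) * 1 := by gcongr; exact opNorm_rc_le
      _ = _ := mul_one _
  rw [ENNReal.ofReal_le_ofReal_iff (by positivity)] at h3
  push_cast at h3
  have h4 : 0 < Real.sqrt 2 := by positivity
  rw [div_le_iff₀ h4]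
  have h5 : Real.sqrt 2 * Real.sqrt 2 = 2 := Real.mul_self_sqrt (by norm_num)
  nlinarith

end CbRank
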