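import Pool.Agent.CbRank.Defs

/-!
Reduction of the rank bound to the finite-dimensional core statement `FinCore`.
-/

namespace CbRank

open scoped ComplexConjugate InnerProductSpace ENNReal

universe u

section elem

variable {H : Type*} [NormedAddCommGroup H] [InnerProductSpace ℂ H] {k : ℕ}

/-- the vector `η ⊗ g ∈ H^k` -/
noncomputable def tens (η : EuclideanSpace ℂ (Fin k)) (g : H) : Pow H k :=
  WithLp.toLp 2 fun b => η b • g

theorem norm_tens (η : EuclideanSpace ℂ (Fin k)) (g : H) : ‖tens η g‖ = ‖η‖ * ‖g‖ := by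
  have h : ‖tens η g‖ ^ 2 = (‖η‖ * ‖g‖) ^ 2 := by
    rw [PiLp.norm_sq_eq_of_L2, mul_pow, EuclideanSpace.norm_sq_eq, Finset.sum_mul]
    refine Finset.sum_congr rfl fun b _ => ?_
    simp only [tens, norm_smul, mul_pow]
  exact (pow_left_inj₀ (norm_nonneg _) (by positivity) two_ne_zero).mp h

theorem norm_sum_smul_le (ξ : EuclideanSpace ℂ (Fin k)) (v : Pow H k) :
    ‖∑ a, conj (ξ a) • v a‖ ≤ ‖ξ‖ * ‖v‖ := by
  calc ‖∑ a, conj (ξ a) • v a‖ ≤ ∑ a, ‖ξ a‖ * ‖v a‖ := by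
        refine (norm_sum_le _ _).trans (Finset.sum_le_sum fun a _ => ?_)
        rw [norm_smul, RCLike.norm_conj]
    _ ≤ √(∑ a, ‖ξ a‖ ^ 2) * √(∑ a, ‖v a‖ ^ 2) := Real.sum_mul_le_sqrt_mul_sqrt _ _ _
    _ = ‖ξ‖ * ‖v‖ := by
        rw [← EuclideanSpace.norm_sq_eq, ← PiLp.norm_sq_eq_of_L2, Real.sqrt_sq (norm_nonneg _),
          Real.sqrt_sq (norm_nonneg _)]

theorem slice_le (x : Fin k → Fin k → (H →L[ℂ] H)) (ξ η : EuclideanSpace ℂ (Fin k)) :
    ‖∑ a, ∑ b, (conj (ξ a) * η b) • x a b‖ ≤ ‖ξ‖ * ‖η‖ * ‖matOp x‖ := by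
  refine ContinuousLinearMap.opNorm_le_bound _ (by positivity) fun g => ?_
  have e : (∑ a, ∑ b, (conj (ξ a) * η b) • x a b) g =
      ∑ a, conj (ξ a) • (matOp x (tens η g)) a := by
    simp only [matOp_apply, _root_.sum_apply, _root_.smul_apply, Finset.smul_sum]
    refine Finset.sum_congr rfl fun a _ => Finset.sum_congr rfl fun b _ => ?_
    simp [tens, smul_smul]
  rw [e]
  calc ‖∑ a, conj (ξ a) • (matOp x (tens η g)) a‖ ≤ ‖ξ‖ * ‖matOp x (tens η g)‖ :=
        norm_sum_smul_le _ _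
    _ ≤ ‖ξ‖ * (‖matOp x‖ * (‖η‖ * ‖g‖)) := by
        gcongr
        rw [← norm_tens]
        exact (matOp x).le_opNorm _
    _ = _ := by ring

end elem

/-- scaled form of the core statement -/
theorem FinCore.scaled {n : ℕ} {C : ℝ} (hcore : FinCore n C) {m k : ℕ}
    (y : Fin k → Fin k → (EuclideanSpace ℂ (Fin m) →L[ℂ] EuclideanSpace ℂ (Fin m)))
    (hn : Module.finrank ℂ (Submodule.span ℂ (Set.range fun p : Fin k × Fin k => y p.1 p.2)) ≤ n)
    {M : ℝ} (hM : 0 < M)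
    (hy : ∀ ξ η : EuclideanSpace ℂ (Fin k),
      ‖∑ a, ∑ b, (conj (ξ a) * η b) • y a b‖ ≤ M * (‖ξ‖ * ‖η‖)) :
    ‖matOp y‖ ≤ C * M := by
  have hM' : (M : ℂ) ≠ 0 := by exact_mod_cast hM.ne'
  let y' : Fin k → Fin k → (EuclideanSpace ℂ (Fin m) →L[ℂ] EuclideanSpace ℂ (Fin m)) :=
    fun a b => (M : ℂ)⁻¹ • y a b
  have h1 : matOp y' = (M : ℂ)⁻¹ • matOp y := by
    ext v i : 2
    simp [matOp_apply, y', Finset.smul_sum]
  have h2 : ‖matOp y'‖ ≤ C := by
    apply hcore m k y'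
    · refine le_trans (Submodule.finrank_mono ?_) hn
      rw [Submodule.span_le]
      rintro _ ⟨p, rfl⟩
      exact Submodule.smul_mem _ _ (Submodule.subset_span ⟨p, rfl⟩)
    · intro ξ η
      have : ∑ a, ∑ b, (conj (ξ a) * η b) • y' a b =
          (M : ℂ)⁻¹ • ∑ a, ∑ b, (conj (ξ a) * η b) • y a b := by
        simp only [y', Finset.smul_sum]
        refine Finset.sum_congr rfl fun a _ => Finset.sum_congr rfl fun b _ => ?_
        rw [smul_comm]
      rw [this, norm_smul, norm_inv, Complex.norm_real, Real.norm_eq_abs, abs_of_pos hM,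
        inv_mul_le_iff₀ hM]
      exact hy ξ η
  rw [h1, norm_smul, norm_inv, Complex.norm_real, Real.norm_eq_abs, abs_of_pos hM,
    inv_mul_le_iff₀ hM] at h2
  linarith

/-- extension of the core statement to arbitrary Hilbert (even pre-Hilbert) spaces -/
theorem FinCore.general {n : ℕ} {C : ℝ} (hcore : FinCore n C) (hC : 0 ≤ C) {k : ℕ}
    {K : Type*} [NormedAddCommGroup K] [InnerProductSpace ℂ K]
    (y : Fin k → Fin k → (K →L[ℂ] K))
    (hfin : Module.Finite ℂ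
      (Submodule.span ℂ (Set.range fun p : Fin k × Fin k => y p.1 p.2)))
    (hn : Module.finrank ℂ (Submodule.span ℂ (Set.range fun p : Fin k × Fin k => y p.1 p.2)) ≤ n)
    {M : ℝ} (hM : 0 < M)
    (hy : ∀ ξ η : EuclideanSpace ℂ (Fin k),
      ‖∑ a, ∑ b, (conj (ξ a) * η b) • y a b‖ ≤ M * (‖ξ‖ * ‖η‖)) :
    ‖matOp y‖ ≤ C * M := by
  refine ContinuousLinearMap.opNorm_le_bound _ (by positivity) fun X => ?_
  let S : Set K := Set.range (fun b => X b) ∪ Set.range (fun a => (matOp y X) a)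
  have hS : S.Finite := (Set.finite_range _).union (Set.finite_range _)
  let W : Submodule ℂ K := Submodule.span ℂ S
  have hW : FiniteDimensional ℂ W := FiniteDimensional.span_of_finite ℂ hS
  let m := Module.finrank ℂ W
  let e : W ≃ₗᵢ[ℂ] EuclideanSpace ℂ (Fin m) := (stdOrthonormalBasis ℂ W).repr
  let J : EuclideanSpace ℂ (Fin m) →L[ℂ] K :=
    W.subtypeL.comp (e.symm.toContinuousLinearEquiv : EuclideanSpace ℂ (Fin m) →L[ℂ] W)
  let P : K →L[ℂ] EuclideanSpace ℂ (Fin m) :=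
    (e.toContinuousLinearEquiv : W →L[ℂ] EuclideanSpace ℂ (Fin m)).comp W.orthogonalProjectionOnto
  have hJn : ‖J‖ ≤ 1 := by
    refine ContinuousLinearMap.opNorm_le_bound _ zero_le_one fun v => ?_
    have : ‖J v‖ = ‖v‖ := by
      exact e.symm.norm_map v
    rw [this, one_mul]
  have hPn : ‖P‖ ≤ 1 := by
    refine ContinuousLinearMap.opNorm_le_bound _ zero_le_one fun v => ?_
    have : ‖P v‖ = ‖W.orthogonalProjectionOnto v‖ := by
      change ‖e (W.orthogonalProjectionOnto v)‖ = _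
      rw [e.norm_map]
    rw [this]
    refine ((W.orthogonalProjectionOnto).le_opNorm v).trans ?_
    gcongr
    exact W.orthogonalProjectionOnto_norm_le
  have hJP : ∀ v ∈ W, J (P v) = v := by
    intro v hv
    change ((e.symm (e (W.orthogonalProjectionOnto v)) : W) : K) = v
    rw [e.symm_apply_apply]
    have := Submodule.orthogonalProjectionOnto_mem_subspace_eq_self (K := W) ⟨v, hv⟩
    rw [this]
  have hPW : ∀ v ∈ W, ‖P v‖ = ‖v‖ := by
    intro v hv
    have h1 : ‖J (P v)‖ = ‖P v‖ := by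
      exact e.symm.norm_map (P v)
    rw [← h1, hJP v hv]
  let Λ : (K →L[ℂ] K) →ₗ[ℂ] (EuclideanSpace ℂ (Fin m) →L[ℂ] EuclideanSpace ℂ (Fin m)) :=
    { toFun := fun T => P.comp (T.comp J)
      map_add' := fun S T => by ext v : 1; simp
      map_smul' := fun c T => by ext v : 1; simp }
  have hΛ : ∀ T, ‖Λ T‖ ≤ ‖T‖ := by
    intro T
    calc ‖P.comp (T.comp J)‖ ≤ ‖P‖ * (‖T‖ * ‖J‖) :=
          (ContinuousLinearMap.opNorm_comp_le _ _).trans
            (mul_le_mul_of_nonneg_left (ContinuousLinearMap.opNorm_comp_le _ _) (norm_nonneg _))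
      _ ≤ 1 * (‖T‖ * 1) := by gcongr
      _ = ‖T‖ := by ring
  let y' : Fin k → Fin k → (EuclideanSpace ℂ (Fin m) →L[ℂ] EuclideanSpace ℂ (Fin m)) :=
    fun a b => Λ (y a b)
  have hy'n : Module.finrank ℂ
      (Submodule.span ℂ (Set.range fun p : Fin k × Fin k => y' p.1 p.2)) ≤ n := by
    have : Submodule.span ℂ (Set.range fun p : Fin k × Fin k => y' p.1 p.2) =
        (Submodule.span ℂ (Set.range fun p : Fin k × Fin k => y p.1 p.2)).map Λ := by
      rw [Submodule.map_span, ← Set.range_comp]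
      rfl
    rw [this]
    exact (Submodule.finrank_map_le _ _).trans hn
  have hy' : ∀ ξ η : EuclideanSpace ℂ (Fin k),
      ‖∑ a, ∑ b, (conj (ξ a) * η b) • y' a b‖ ≤ M * (‖ξ‖ * ‖η‖) := by
    intro ξ η
    have : ∑ a, ∑ b, (conj (ξ a) * η b) • y' a b =
        Λ (∑ a, ∑ b, (conj (ξ a) * η b) • y a b) := by
      rw [map_sum]
      refine Finset.sum_congr rfl fun a _ => ?_
      rw [map_sum]
      refine Finset.sum_congr rfl fun b _ => ?_
      rw [map_smul]
    rw [this]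
    exact (hΛ _).trans (hy ξ η)
  have hmain := hcore.scaled y' hy'n hM hy'
  let X' : Pow (EuclideanSpace ℂ (Fin m)) k := WithLp.toLp 2 fun b => P (X b)
  have hXW : ∀ b, X b ∈ W := fun b => Submodule.subset_span (Or.inl ⟨b, rfl⟩)
  have hYW : ∀ a, (matOp y X) a ∈ W := fun a => Submodule.subset_span (Or.inr ⟨a, rfl⟩)
  have hX' : ‖X'‖ = ‖X‖ := by
    have : ‖X'‖ ^ 2 = ‖X‖ ^ 2 := by
      rw [PiLp.norm_sq_eq_of_L2, PiLp.norm_sq_eq_of_L2]
      refine Finset.sum_congr rfl fun b _ => ?_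
      rw [← hPW _ (hXW b)]
    exact (pow_left_inj₀ (norm_nonneg _) (norm_nonneg _) two_ne_zero).mp this
  have hTX : ∀ a, (matOp y' X') a = P ((matOp y X) a) := by
    intro a
    rw [matOp_apply, matOp_apply, map_sum]
    refine Finset.sum_congr rfl fun b _ => ?_
    change P (y a b (J (P (X b)))) = _
    rw [hJP _ (hXW b)]
  have hTn : ‖matOp y' X'‖ = ‖matOp y X‖ := by
    have : ‖matOp y' X'‖ ^ 2 = ‖matOp y X‖ ^ 2 := by
      rw [PiLp.norm_sq_eq_of_L2, PiLp.norm_sq_eq_of_L2]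
      refine Finset.sum_congr rfl fun b _ => ?_
      rw [hTX, hPW _ (hYW b)]
    exact (pow_left_inj₀ (norm_nonneg _) (norm_nonneg _) two_ne_zero).mp this
  rw [← hTn, ← hX']
  exact ((matOp y').le_opNorm X').trans (by gcongr)

theorem reduction (n : ℕ) (C : ℝ) (hC : 0 < C) (hcore : FinCore n C)
    {H : Type*} [NormedAddCommGroup H] [InnerProductSpace ℂ H]
    {K : Type*} [NormedAddCommGroup K] [InnerProductSpace ℂ K]
    {E : Submodule ℂ (H →L[ℂ] H)} {F : Submodule ℂ (K →L[ℂ] K)} (u : E →ₗ[ℂ] F)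
    (hfin : Module.Finite ℂ (LinearMap.range u))
    (hn : Module.finrank ℂ (LinearMap.range u) ≤ n) :
    cbNorm u ≤ ENNReal.ofReal C * opNorm u := by
  by_cases htop : opNorm u = ⊤
  · rw [htop, ENNReal.mul_top (by simpa using hC)]
    exact le_top
  set M := (opNorm u).toReal with hM
  have hM0 : 0 ≤ M := ENNReal.toReal_nonneg
  have hop : opNorm u = ENNReal.ofReal M := (ENNReal.ofReal_toReal htop).symm
  have hu1 : ∀ x : E, ‖x‖ ≤ 1 → ‖u x‖ ≤ M := by
    intro x hx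
    have h1 : ENNReal.ofReal ‖u x‖ ≤ opNorm u := by
      unfold opNorm
      exact le_iSup₂ (f := fun (x : E) (_ : ‖x‖ ≤ 1) => ENNReal.ofReal ‖u x‖) x hx
    rw [hop] at h1
    exact (ENNReal.ofReal_le_ofReal_iff hM0).mp h1
  have hu : ∀ x : E, ‖u x‖ ≤ M * ‖x‖ := by
    intro x
    by_cases hx : x = 0
    · simp [hx]
    have hx' : 0 < ‖x‖ := norm_pos_iff.mpr hx
    have hsE : ‖((‖x‖ : ℂ)⁻¹) • x‖ = ‖x‖⁻¹ * ‖x‖ := by
      have := norm_smul ((‖x‖ : ℂ)⁻¹) (x : H →L[ℂ] H)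
      rw [norm_inv, Complex.norm_real, Real.norm_eq_abs, abs_of_pos hx'] at this
      exact this
    have hsF : ‖((‖x‖ : ℂ)⁻¹) • u x‖ = ‖x‖⁻¹ * ‖u x‖ := by
      have := norm_smul ((‖x‖ : ℂ)⁻¹) (u x : K →L[ℂ] K)
      rw [norm_inv, Complex.norm_real, Real.norm_eq_abs, abs_of_pos hx'] at this
      exact this
    have h1 := hu1 (((‖x‖ : ℂ)⁻¹) • x) (by rw [hsE, inv_mul_cancel₀ hx'.ne'])
    rw [map_smul, hsF, inv_mul_le_iff₀ hx'] at h1
    linarith
  rw [hop, ← ENNReal.ofReal_mul hC.le]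
  unfold cbNorm ampNorm
  refine iSup₂_le fun k _ => iSup₂_le fun x hx => ENNReal.ofReal_le_ofReal ?_
  unfold matNorm at hx ⊢
  refine le_of_forall_pos_le_add fun δ hδ => ?_
  have hδ' : 0 < δ / C := by positivity
  let y : Fin k → Fin k → (K →L[ℂ] K) := fun i j => ((u (x i j) : F) : K →L[ℂ] K)
  have hy : ∀ ξ η : EuclideanSpace ℂ (Fin k),
      ‖∑ a, ∑ b, (conj (ξ a) * η b) • y a b‖ ≤ (M + δ / C) * (‖ξ‖ * ‖η‖) := by
    intro ξ η
    have e1 : ∑ a, ∑ b, (conj (ξ a) * η b) • y a b =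
        ((u (∑ a, ∑ b, (conj (ξ a) * η b) • x a b) : F) : K →L[ℂ] K) := by
      rw [map_sum, Submodule.coe_sum]
      refine Finset.sum_congr rfl fun a _ => ?_
      rw [map_sum, Submodule.coe_sum]
      refine Finset.sum_congr rfl fun b _ => ?_
      rw [map_smul]; rfl
    have e2 : ‖∑ a, ∑ b, (conj (ξ a) * η b) • x a b‖ ≤ ‖ξ‖ * ‖η‖ := by
      have := slice_le (fun i j => (x i j : H →L[ℂ] H)) ξ η
      have e3 : ((∑ a, ∑ b, (conj (ξ a) * η b) • x a b : E) : H →L[ℂ] H) =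
          ∑ a, ∑ b, (conj (ξ a) * η b) • (x a b : H →L[ℂ] H) := by
        rw [Submodule.coe_sum]
        refine Finset.sum_congr rfl fun a _ => ?_
        rw [Submodule.coe_sum]
        rfl
      have e4 : ‖∑ a, ∑ b, (conj (ξ a) * η b) • x a b‖ =
          ‖((∑ a, ∑ b, (conj (ξ a) * η b) • x a b : E) : H →L[ℂ] H)‖ := rfl
      rw [e4, e3]
      refine this.trans ?_
      have h0 : 0 ≤ ‖ξ‖ * ‖η‖ := by positivity
      nlinarith
    rw [e1]
    refine (hu _).trans ?_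
    have h0 : 0 ≤ ‖ξ‖ * ‖η‖ := by positivity
    calc M * ‖∑ a, ∑ b, (conj (ξ a) * η b) • x a b‖ ≤ M * (‖ξ‖ * ‖η‖) := by gcongr
      _ ≤ (M + δ / C) * (‖ξ‖ * ‖η‖) := by
        apply mul_le_mul_of_nonneg_right _ h0
        linarith
  have hle : Submodule.span ℂ (Set.range fun p : Fin k × Fin k => y p.1 p.2) ≤
      (LinearMap.range u).map F.subtype := by
    rw [Submodule.span_le]
    rintro _ ⟨p, rfl⟩
    exact ⟨u (x p.1 p.2), ⟨x p.1 p.2, rfl⟩, rfl⟩
  have hfin2 : Module.Finite ℂ ((LinearMap.range u).map F.subtype) := inferInstance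
  have hfin3 : Module.Finite ℂ
      (Submodule.span ℂ (Set.range fun p : Fin k × Fin k => y p.1 p.2)) :=
    Submodule.finiteDimensional_of_le hle
  have hn3 : Module.finrank ℂ
      (Submodule.span ℂ (Set.range fun p : Fin k × Fin k => y p.1 p.2)) ≤ n :=
    (Submodule.finrank_mono hle).trans ((Submodule.finrank_map_le _ _).trans hn)
  have := hcore.general hC.le y hfin3 hn3 (by positivity) hy
  refine this.trans ?_
  have : C * (M + δ / C) = C * M + δ := by field_simp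
  exact this.le

end CbRank
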