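import Pool.Agent.CbRank.GeneralFinal
import Pool.Agent.CbRank.Reduction
import Pool.Agent.CbRank.Lower

/-!
Assembly of the value of `c^*`, given the case `n = 2` of the core statement.
-/

namespace CbRank

universe u

theorem isRankBound_of_two (h2 : Stmt_two) : IsRankBound.{u} (1 / Real.sqrt 2) := by
  intro n hn H _ _ _ K _ _ _ E F _ _ u hfin hrank
  have hs : (0 : ℝ) < Real.sqrt 2 := Real.sqrt_pos.mpr two_pos
  have hss : Real.sqrt 2 * Real.sqrt 2 = 2 := Real.mul_self_sqrt (by norm_num)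
  rcases Nat.lt_or_ge 2 n with h3 | h3
  · have hn' : (3 : ℝ) ≤ n := by exact_mod_cast h3
    have hcore := stmt_general n
    have h1 := reduction n (((n : ℝ) + 1) / 2) (by positivity) hcore u hfin hrank
    refine h1.trans ?_
    gcongr
    have h4 : Real.sqrt 2 * (n + 1) ≤ 2 * n := by
      have h5 : Real.sqrt 2 ≤ 3 / 2 := by
        rw [show (3 / 2 : ℝ) = Real.sqrt (9 / 4) by
          rw [show (9 / 4 : ℝ) = (3 / 2) ^ 2 by norm_num, Real.sqrt_sq (by norm_num)]]
        exact Real.sqrt_le_sqrt (by norm_num)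
      have h6 : Real.sqrt 2 ≤ 2 - Real.sqrt 2 / 3 := by
        nlinarith [hss]
      nlinarith
    rw [div_mul_eq_mul_div, one_mul, div_le_div_iff₀ two_pos hs]
    linarith
  · have hn2 : n = 2 := le_antisymm h3 hn
    subst hn2
    have h1 := reduction 2 (Real.sqrt 2) hs h2 u hfin hrank
    refine h1.trans (le_of_eq ?_)
    congr 2
    field_simp
    rw [sq, hss]
    norm_num

theorem cStar_eq_of_two (h2 : Stmt_two) : cStar.{u} = 1 / Real.sqrt 2 := by
  have hleast : IsLeast {c : ℝ | 0 < c ∧ IsRankBound.{u} c} (1 / Real.sqrt 2) := by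
    refine ⟨⟨by positivity, isRankBound_of_two h2⟩, ?_⟩
    rintro c ⟨hc, hb⟩
    exact lower c hc hb
  exact hleast.csInf_eq

end CbRank
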