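import Mathlib

/-!
An averaging argument: if `‖Y₀ζ + wY₁ζ‖² ≤ C‖ζ‖²` for all `|w| = 1` then the same holds with `w`
replaced by an isometry commuting with `Y₀` and `Y₁`.
-/

namespace CbRank

open scoped ComplexConjugate InnerProductSpace

variable {H : Type*} [NormedAddCommGroup H] [InnerProductSpace ℂ H]

theorem roots_sum {M : ℕ} (hM : 0 < M) {ω : ℂ} (hω : IsPrimitiveRoot ω M) {e e' : ℕ}
    (he : e < M) (he' : e' < M) :
    ∑ l ∈ Finset.range M, conj ((ω ^ l) ^ e) * (ω ^ l) ^ e' = if e = e' then (M : ℂ) else 0 := by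
  have hn : ‖ω‖ = 1 := hω.norm'_eq_one hM.ne'
  have hc : conj ω * ω = 1 := by
    rw [mul_comm, Complex.mul_conj, Complex.normSq_eq_norm_sq, hn]; norm_num
  have h1 : ∀ l, conj ((ω ^ l) ^ e) * (ω ^ l) ^ e' = (conj ω ^ e * ω ^ e') ^ l := by
    intro l
    simp only [map_pow]
    ring
  simp_rw [h1]
  split_ifs with h
  · subst h
    have : conj ω ^ e * ω ^ e = 1 := by rw [← mul_pow, hc, one_pow]
    simp [this]
  · have hω0 : ω ≠ 0 := by
      intro h0; rw [h0, norm_zero] at hn; exact zero_ne_one hn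
    have hM' : (conj ω ^ e * ω ^ e') ^ M = 1 := by
      have h2 : conj ω ^ M = 1 := by rw [← map_pow, hω.pow_eq_one, map_one]
      calc (conj ω ^ e * ω ^ e') ^ M = (conj ω ^ M) ^ e * (ω ^ M) ^ e' := by ring
        _ = 1 := by rw [h2, hω.pow_eq_one]; simp
    have hne : conj ω ^ e * ω ^ e' ≠ 1 := by
      intro h3
      have h4 : ω ^ e' = ω ^ e := by
        calc ω ^ e' = (conj ω * ω) ^ e * ω ^ e' := by rw [hc]; simp
          _ = ω ^ e * (conj ω ^ e * ω ^ e') := by ring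
          _ = ω ^ e := by rw [h3, mul_one]
      exact h (hω.pow_inj he' he h4).symm
    have h5 := mul_neg_geom_sum (conj ω ^ e * ω ^ e') M
    rw [hM', sub_self] at h5
    exact (mul_eq_zero.mp h5).resolve_left (sub_ne_zero.mpr (Ne.symm hne))

theorem parseval {M : ℕ} (hM : 0 < M) {ω : ℂ} (hω : IsPrimitiveRoot ω M) (u : ℕ → H) :
    ∑ l ∈ Finset.range M, ‖∑ e ∈ Finset.range M, (ω ^ l) ^ e • u e‖ ^ 2 =
      M * ∑ e ∈ Finset.range M, ‖u e‖ ^ 2 := by
  have h : ((∑ l ∈ Finset.range M, ‖∑ e ∈ Finset.range M, (ω ^ l) ^ e • u e‖ ^ 2 : ℝ) : ℂ) =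
      ((M * ∑ e ∈ Finset.range M, ‖u e‖ ^ 2 : ℝ) : ℂ) := by
    push_cast
    have h1 : ∀ l, ((‖∑ e ∈ Finset.range M, (ω ^ l) ^ e • u e‖ : ℝ) : ℂ) ^ 2 =
        ∑ e ∈ Finset.range M, ∑ e' ∈ Finset.range M,
          conj ((ω ^ l) ^ e) * (ω ^ l) ^ e' * ⟪u e, u e'⟫_ℂ := by
      intro l
      have : ⟪∑ e ∈ Finset.range M, (ω ^ l) ^ e • u e, ∑ e ∈ Finset.range M, (ω ^ l) ^ e • u e⟫_ℂ =
          ((‖∑ e ∈ Finset.range M, (ω ^ l) ^ e • u e‖ : ℝ) : ℂ) ^ 2 :=
        inner_self_eq_norm_sq_to_K _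
      rw [← this, sum_inner]
      refine Finset.sum_congr rfl fun e _ => ?_
      rw [inner_sum]
      refine Finset.sum_congr rfl fun e' _ => ?_
      rw [inner_smul_left, inner_smul_right]
      ring
    simp_rw [h1]
    rw [Finset.sum_comm, Finset.mul_sum]
    refine Finset.sum_congr rfl fun e he => ?_
    rw [Finset.sum_comm]
    have h2 : ∀ e' ∈ Finset.range M, ∑ l ∈ Finset.range M,
        conj ((ω ^ l) ^ e) * (ω ^ l) ^ e' * ⟪u e, u e'⟫_ℂ =
          if e = e' then (M : ℂ) * ⟪u e, u e'⟫_ℂ else 0 := by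
      intro e' he'
      rw [← Finset.sum_mul, roots_sum hM hω (Finset.mem_range.mp he) (Finset.mem_range.mp he')]
      split_ifs <;> simp
    rw [Finset.sum_congr rfl h2, Finset.sum_ite_eq, if_pos he]
    have : ⟪u e, u e⟫_ℂ = ((‖u e‖ : ℝ) : ℂ) ^ 2 := inner_self_eq_norm_sq_to_K _
    rw [this]
  exact_mod_cast h

theorem averaging {Y0 Y1 : H →ₗ[ℂ] H} {V : H →ₗᵢ[ℂ] H} {C : ℝ}
    (h0 : ∀ ζ, V (Y0 ζ) = Y0 (V ζ)) (h1 : ∀ ζ, V (Y1 ζ) = Y1 (V ζ))
    (hY : ∀ w : ℂ, ‖w‖ = 1 → ∀ ζ, ‖Y0 ζ + w • Y1 ζ‖ ^ 2 ≤ C * ‖ζ‖ ^ 2) (ζ : H) :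
    ‖Y0 ζ + Y1 (V ζ)‖ ^ 2 ≤ C * ‖ζ‖ ^ 2 := by
  have hVn : ∀ (n : ℕ) (x : H), ‖(V^[n]) x‖ = ‖x‖ := by
    intro n
    induction n with
    | zero => intro x; rfl
    | succ n ih => intro x; rw [Function.iterate_succ_apply', V.norm_map, ih]
  have hc0 : ∀ (n : ℕ) (x : H), (V^[n]) (Y0 x) = Y0 ((V^[n]) x) := by
    intro n
    induction n with
    | zero => intro x; rfl
    | succ n ih => intro x; rw [Function.iterate_succ_apply', ih, h0, Function.iterate_succ_apply']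
  have hc1 : ∀ (n : ℕ) (x : H), (V^[n]) (Y1 x) = Y1 ((V^[n]) x) := by
    intro n
    induction n with
    | zero => intro x; rfl
    | succ n ih => intro x; rw [Function.iterate_succ_apply', ih, h1, Function.iterate_succ_apply']
  have hadd : ∀ (n : ℕ) (x y : H), (V^[n]) (x + y) = (V^[n]) x + (V^[n]) y := by
    intro n
    induction n with
    | zero => intro x y; rfl
    | succ n ih => intro x y; simp only [Function.iterate_succ_apply', ih, map_add]
  set ξ := Y0 ζ + Y1 (V ζ) with hξ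
  -- the main estimate
  have key : ∀ N : ℕ, 0 < N → ((N : ℝ) - 1) * ‖ξ‖ ^ 2 ≤ C * (N * ‖ζ‖ ^ 2) := by
    intro N hN
    set M := N + 1 with hM
    have hMpos : 0 < M := Nat.succ_pos _
    obtain ⟨ω, hω⟩ : ∃ ω : ℂ, IsPrimitiveRoot ω M :=
      ⟨_, Complex.isPrimitiveRoot_exp M hMpos.ne'⟩
    have hωn : ‖ω‖ = 1 := hω.norm'_eq_one hMpos.ne'
    let ζs : ℕ → H := fun n => if n < N then (V^[n]) ζ else 0
    let us : ℕ → H := fun e => (if e = 0 then 0 else Y0 (ζs (e - 1))) + Y1 (ζs e)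
    have hF : ∀ l, ∑ e ∈ Finset.range M, (ω ^ l) ^ e • us e =
        (ω ^ l) • (Y0 (∑ n ∈ Finset.range M, (ω ^ l) ^ n • ζs n) +
          (conj (ω ^ l)) • Y1 (∑ n ∈ Finset.range M, (ω ^ l) ^ n • ζs n)) := by
      intro l
      set w := ω ^ l with hw
      have hww : w * conj w = 1 := by
        rw [Complex.mul_conj, Complex.normSq_eq_norm_sq, hw, norm_pow, hωn]; simp
      have hN0 : ζs N = 0 := by simp [ζs]
      simp only [us, smul_add, Finset.sum_add_distrib, map_sum, map_smul, smul_smul, hww, one_smul]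
      congr 1
      rw [hM, Finset.sum_range_succ', Finset.sum_range_succ, hN0]
      simp only [if_true, smul_zero, map_zero, add_zero, Nat.add_sub_cancel, Nat.succ_ne_zero,
        if_false, Finset.smul_sum, smul_smul]
      refine Finset.sum_congr rfl fun n _ => ?_
      congr 1
      ring
    have hle : ∑ l ∈ Finset.range M, ‖∑ e ∈ Finset.range M, (ω ^ l) ^ e • us e‖ ^ 2 ≤
        ∑ l ∈ Finset.range M, C * ‖∑ n ∈ Finset.range M, (ω ^ l) ^ n • ζs n‖ ^ 2 := by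
      refine Finset.sum_le_sum fun l _ => ?_
      rw [hF l, norm_smul, norm_pow, hωn, one_pow, one_mul]
      apply hY
      rw [RCLike.norm_conj, norm_pow, hωn, one_pow]
    rw [parseval hMpos hω, ← Finset.mul_sum, parseval hMpos hω] at hle
    have hMR : (0 : ℝ) < M := by exact_mod_cast hMpos
    have hle2 : ∑ e ∈ Finset.range M, ‖us e‖ ^ 2 ≤ C * ∑ e ∈ Finset.range M, ‖ζs e‖ ^ 2 := by
      have : (M : ℝ) * ∑ e ∈ Finset.range M, ‖us e‖ ^ 2 ≤
          M * (C * ∑ e ∈ Finset.range M, ‖ζs e‖ ^ 2) := by linarith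
      exact le_of_mul_le_mul_left this hMR
    have hζs : ∑ e ∈ Finset.range M, ‖ζs e‖ ^ 2 = N * ‖ζ‖ ^ 2 := by
      rw [hM, Finset.sum_range_succ]
      have h2 : ‖ζs N‖ ^ 2 = 0 := by simp [ζs]
      rw [h2, add_zero]
      have h3 : ∀ n ∈ Finset.range N, ‖ζs n‖ ^ 2 = ‖ζ‖ ^ 2 := by
        intro n hn
        simp only [ζs, if_pos (Finset.mem_range.mp hn), hVn]
      rw [Finset.sum_congr rfl h3]
      simp
    have hus : ((N : ℝ) - 1) * ‖ξ‖ ^ 2 ≤ ∑ e ∈ Finset.range M, ‖us e‖ ^ 2 := by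
      rw [hM, Finset.sum_range_succ']
      have h2 : ∀ n ∈ Finset.range (N - 1), ‖us (n + 1)‖ ^ 2 = ‖ξ‖ ^ 2 := by
        intro n hn
        have hn1 : n + 1 < N := by have := Finset.mem_range.mp hn; omega
        have hn2 : n < N := by omega
        have : us (n + 1) = (V^[n]) ξ := by
          simp only [us, ζs, Nat.add_sub_cancel, if_pos hn1, if_pos hn2, Nat.succ_ne_zero, if_false]
          rw [hξ, hadd, hc0, hc1]
          rfl
        rw [this, hVn]
      obtain ⟨N', rfl⟩ : ∃ N', N = N' + 1 := ⟨N - 1, by omega⟩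
      simp only [Nat.add_sub_cancel] at h2
      rw [Finset.sum_range_succ, Finset.sum_congr rfl h2]
      have h3 : 0 ≤ ‖us (N' + 1)‖ ^ 2 := by positivity
      have h4 : 0 ≤ ‖us 0‖ ^ 2 := by positivity
      simp only [Finset.sum_const, Finset.card_range, nsmul_eq_mul]
      push_cast
      linarith
    rw [hζs] at hle2
    linarith
  -- let `N → ∞`
  by_contra hcon
  push Not at hcon
  set δ := ‖ξ‖ ^ 2 - C * ‖ζ‖ ^ 2 with hδ
  have hδ0 : 0 < δ := by linarith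
  obtain ⟨N, hN⟩ := exists_nat_gt (‖ξ‖ ^ 2 / δ)
  have hN0 : 0 < N := by
    have : (0 : ℝ) < N := lt_of_le_of_lt (by positivity) hN
    exact_mod_cast this
  have h2 := key N hN0
  rw [div_lt_iff₀ hδ0] at hN
  nlinarith

end CbRank
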