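import Mathlib

/-!
# Definitions for MP_87d6b4_an: the optimal constant `c^*` in the rank bound for cb-norms

An operator space is a closed subspace `E` of `B(H)` for a complex Hilbert space `H`.
-/

namespace CbRank

open scoped ENNReal ComplexConjugate

universe u

/-- The Hilbert space `H^k` (orthogonal sum of `k` copies of `H`). -/
abbrev Pow (H : Type*) (k : ℕ) : Type _ := PiLp 2 (fun _ : Fin k => H)

section matOp

variable {H : Type*} [NormedAddCommGroup H] [InnerProductSpace ℂ H] {k : ℕ}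

/-- The operator on `H^k` given by a `k × k` matrix of bounded operators on `H`:
`(x v)_i = ∑_j x_{ij} v_j`. -/
noncomputable def matOp (x : Fin k → Fin k → (H →L[ℂ] H)) : Pow H k →L[ℂ] Pow H k :=
  ((PiLp.continuousLinearEquiv 2 ℂ (fun _ : Fin k => H)).symm :
      (Fin k → H) →L[ℂ] Pow H k).comp
    (ContinuousLinearMap.pi fun i => ∑ j, (x i j).comp
      (PiLp.proj 2 (fun _ : Fin k => H) j))

theorem matOp_apply (x : Fin k → Fin k → (H →L[ℂ] H)) (v : Pow H k) (i : Fin k) :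
    matOp x v i = ∑ j, x i j (v j) := by
  simp [matOp]

end matOp

section norms

variable {H : Type*} [NormedAddCommGroup H] [InnerProductSpace ℂ H]
  {K : Type*} [NormedAddCommGroup K] [InnerProductSpace ℂ K]
  {E : Submodule ℂ (H →L[ℂ] H)} {F : Submodule ℂ (K →L[ℂ] K)}

/-- The norm of an element of `M_k(E)`, i.e. the norm inherited from `M_k(B(H)) = B(H^k)`. -/
noncomputable def matNorm {k : ℕ} (x : Fin k → Fin k → E) : ℝ :=
  ‖matOp fun i j => (x i j : H →L[ℂ] H)‖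

/-- `‖u_k‖ ∈ [0,∞]`: the norm of the amplification `u_k : M_k(E) → M_k(F)`, acting entrywise. -/
noncomputable def ampNorm (u : E →ₗ[ℂ] F) (k : ℕ) : ℝ≥0∞ :=
  ⨆ (x : Fin k → Fin k → E) (_ : matNorm x ≤ 1), ENNReal.ofReal (matNorm fun i j => u (x i j))

/-- `‖u‖ ∈ [0,∞]`: the ordinary operator norm. -/
noncomputable def opNorm (u : E →ₗ[ℂ] F) : ℝ≥0∞ :=
  ⨆ (x : E) (_ : ‖x‖ ≤ 1), ENNReal.ofReal ‖u x‖

/-- `‖u‖_cb = sup_{k ≥ 1} ‖u_k‖ ∈ [0,∞]`. -/
noncomputable def cbNorm (u : E →ₗ[ℂ] F) : ℝ≥0∞ :=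
  ⨆ (k : ℕ) (_ : 1 ≤ k), ampNorm u k

end norms

/-- The property in the definition of `c^*`: for every `n ≥ 2`, all operator spaces `E ⊂ B(H)`,
`F ⊂ B(K)` and every linear map `u : E → F` of rank at most `n`, `‖u‖_cb ≤ c n ‖u‖`. -/
def IsRankBound (c : ℝ) : Prop :=
  ∀ n : ℕ, 2 ≤ n → ∀ (H : Type u) [NormedAddCommGroup H] [InnerProductSpace ℂ H] [CompleteSpace H]
    (K : Type u) [NormedAddCommGroup K] [InnerProductSpace ℂ K] [CompleteSpace K]
    (E : Submodule ℂ (H →L[ℂ] H)) (F : Submodule ℂ (K →L[ℂ] K)),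
    IsClosed (E : Set (H →L[ℂ] H)) → IsClosed (F : Set (K →L[ℂ] K)) →
    ∀ u : E →ₗ[ℂ] F, Module.Finite ℂ (LinearMap.range u) →
      Module.finrank ℂ (LinearMap.range u) ≤ n →
      cbNorm u ≤ ENNReal.ofReal (c * n) * opNorm u

/-- The constant `c^*`. -/
noncomputable def cStar : ℝ := sInf {c : ℝ | 0 < c ∧ IsRankBound.{u} c}

end CbRank
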