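import Pool.Agent.CbRank.General

/-!
The general bound, final step: `FinCore n ((n+1)/2)`.
-/

namespace CbRank

open MeasureTheory Metric
open scoped ComplexConjugate InnerProductSpace

section final

variable {m k : ℕ}

theorem matOp_adjoint (y : Fin k → Fin k → (EuclideanSpace ℂ (Fin m) →L[ℂ]
    EuclideanSpace ℂ (Fin m))) :
    ContinuousLinearMap.adjoint (matOp y) = matOp (fun a b => star (y b a)) := by
  symm
  rw [ContinuousLinearMap.eq_adjoint_iff]
  intro u v
  rw [PiLp.inner_apply, PiLp.inner_apply]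
  simp only [matOp_apply]
  have e1 : ∀ a, ⟪∑ b, (star (y b a)) (u b), v a⟫_ℂ = ∑ b, ⟪(star (y b a)) (u b), v a⟫_ℂ :=
    fun a => sum_inner _ _ _
  have e2 : ∀ a, ⟪u a, ∑ b, (y a b) (v b)⟫_ℂ = ∑ b, ⟪u a, (y a b) (v b)⟫_ℂ :=
    fun a => inner_sum _ _ _
  rw [Finset.sum_congr rfl fun a _ => e1 a, Finset.sum_congr rfl fun a _ => e2 a,
    Finset.sum_comm]
  refine Finset.sum_congr rfl fun a _ => Finset.sum_congr rfl fun b _ => ?_
  rw [ContinuousLinearMap.star_eq_adjoint, ContinuousLinearMap.adjoint_inner_left]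

/-- A nonzero operator on a finite-dimensional space has top singular vectors. -/
theorem exists_top {W : Type*} [NormedAddCommGroup W] [InnerProductSpace ℂ W]
    [FiniteDimensional ℂ W] [CompleteSpace W] (T : W →L[ℂ] W) (hT : T ≠ 0) :
    ∃ X Y : W, ‖X‖ = 1 ∧ ‖Y‖ = 1 ∧ T X = (‖T‖ : ℂ) • Y ∧
      ContinuousLinearMap.adjoint T Y = (‖T‖ : ℂ) • X := by
  have hprop : ProperSpace W := FiniteDimensional.proper ℂ W
  have hc : 0 < ‖T‖ := norm_pos_iff.mpr hT
  obtain ⟨X, hX1, hX⟩ := (isCompact_closedBall (0 : W) 1).exists_isMaxOn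
    ⟨0, by simp⟩ (T.continuous.norm.continuousOn (s := closedBall (0 : W) 1))
  rw [mem_closedBall, dist_zero_right] at hX1
  have hle : ‖T‖ ≤ ‖T X‖ := by
    refine T.opNorm_le_bound (norm_nonneg _) fun v => ?_
    by_cases hv : v = 0
    · simp [hv]
    have hv' : 0 < ‖v‖ := norm_pos_iff.mpr hv
    have h1 : ‖T (((‖v‖ : ℂ)⁻¹) • v)‖ ≤ ‖T X‖ := by
      apply hX
      rw [mem_closedBall, dist_zero_right, norm_smul, norm_inv, Complex.norm_real, norm_norm,
        inv_mul_cancel₀ hv'.ne']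
    rw [map_smul, norm_smul, norm_inv, Complex.norm_real, norm_norm, inv_mul_le_iff₀ hv'] at h1
    linarith
  have hTX : ‖T X‖ = ‖T‖ := by
    refine le_antisymm ?_ hle
    calc ‖T X‖ ≤ ‖T‖ * ‖X‖ := T.le_opNorm X
      _ ≤ ‖T‖ * 1 := by gcongr
      _ = ‖T‖ := mul_one _
  have hXn : ‖X‖ = 1 := by
    refine le_antisymm hX1 ?_
    have := T.le_opNorm X
    rw [hTX] at this
    exact le_of_mul_le_mul_left (by linarith) hc
  have hcc : (‖T‖ : ℂ) ≠ 0 := by exact_mod_cast hc.ne'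
  refine ⟨X, (‖T‖ : ℂ)⁻¹ • T X, hXn, ?_, ?_, ?_⟩
  · rw [norm_smul, norm_inv, Complex.norm_real, norm_norm, hTX, inv_mul_cancel₀ hc.ne']
  · rw [smul_smul, mul_inv_cancel₀ hcc, one_smul]
  · rw [map_smul]
    have hkey : ContinuousLinearMap.adjoint T (T X) = ((‖T‖ : ℂ) ^ 2) • X := by
      rw [← sub_eq_zero, ← norm_eq_zero, ← sq_eq_zero_iff]
      have e1 := norm_sub_sq (𝕜 := ℂ) (ContinuousLinearMap.adjoint T (T X)) (((‖T‖ : ℂ) ^ 2) • X)
      have e2 : ‖ContinuousLinearMap.adjoint T (T X)‖ ≤ ‖T‖ ^ 2 := by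
        calc ‖ContinuousLinearMap.adjoint T (T X)‖ ≤ ‖ContinuousLinearMap.adjoint T‖ * ‖T X‖ :=
              (ContinuousLinearMap.adjoint T).le_opNorm _
          _ = ‖T‖ ^ 2 := by
              rw [hTX, LinearIsometryEquiv.norm_map]; ring
      have e3 : ⟪ContinuousLinearMap.adjoint T (T X), ((‖T‖ : ℂ) ^ 2) • X⟫_ℂ =
          ((‖T‖ ^ 4 : ℝ) : ℂ) := by
        rw [ContinuousLinearMap.adjoint_inner_left, map_smul, inner_smul_right,
          inner_self_eq_norm_sq_to_K, hTX]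
        push_cast
        simp only [Complex.coe_algebraMap]
        ring
      have e4 : ‖((‖T‖ : ℂ) ^ 2) • X‖ = ‖T‖ ^ 2 := by
        rw [norm_smul, hXn, mul_one, norm_pow, Complex.norm_real, norm_norm]
      rw [e3, e4] at e1
      have e5 : RCLike.re ((‖T‖ ^ 4 : ℝ) : ℂ) = ‖T‖ ^ 4 := Complex.ofReal_re _
      rw [e5] at e1
      have e6 : ‖ContinuousLinearMap.adjoint T (T X)‖ ^ 2 ≤ (‖T‖ ^ 2) ^ 2 :=
        pow_le_pow_left₀ (norm_nonneg _) e2 2
      refine le_antisymm ?_ (by positivity)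
      rw [e1]
      nlinarith [e6]
    rw [hkey, smul_smul, pow_two, ← mul_assoc, inv_mul_cancel₀ hcc, one_mul]

/-- The bound in terms of an abstract finite-dimensional normed space. -/
theorem matOp_norm_le {V : Type*} [NormedAddCommGroup V] [NormedSpace ℂ V] [FiniteDimensional ℂ V]
    (B : V →L[ℂ] (EuclideanSpace ℂ (Fin m) →L[ℂ] EuclideanSpace ℂ (Fin m)))
    (hB : ∀ x, ‖B x‖ ≤ ‖x‖) (y : Fin k → Fin k → V)
    (hy : ∀ ξ η : EuclideanSpace ℂ (Fin k),
      ‖∑ a, ∑ b, (conj (ξ a) * η b) • y a b‖ ≤ ‖ξ‖ * ‖η‖) :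
    ‖matOp fun a b => B (y a b)‖ ≤ ((Module.finrank ℂ V : ℝ) + 1) / 2 := by
  by_cases hT : (matOp fun a b => B (y a b)) = 0
  · rw [hT, norm_zero]; positivity
  obtain ⟨X, Y, hX, hY, hTX, hTY⟩ := exists_top (matOp fun a b => B (y a b)) hT
  set c := ‖matOp fun a b => B (y a b)‖ with hc
  have hc0 : 0 < c := norm_pos_iff.mpr hT
  have h1 : ∀ a, ∑ b, B (y a b) (X b) = (c : ℂ) • Y a := by
    intro a
    have := congrArg (fun v : Pow (EuclideanSpace ℂ (Fin m)) k => v a) hTX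
    simp only [matOp_apply] at this
    exact this
  have h2 : ∀ b, ∑ a, star (B (y a b)) (Y a) = (c : ℂ) • X b := by
    intro b
    rw [matOp_adjoint] at hTY
    have := congrArg (fun v : Pow (EuclideanSpace ℂ (Fin m)) k => v b) hTY
    simp only [matOp_apply] at this
    exact this
  rcases main_bound (B := B) (X := fun b => X b) (Y := fun a => Y a) hB hy hc0.le h1 h2 with h | h
  · exfalso
    have hBX : ∀ (x : V) b, B x (X b) = 0 := by
      intro x b
      have h3 := h x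
      unfold Ffun at h3
      have h4 : ∑ a, ‖B x (X a)‖ ^ 2 = 0 := by
        have p1 : 0 ≤ ∑ a, ‖B x (X a)‖ ^ 2 := by positivity
        have p2 : 0 ≤ ∑ a, ‖star (B x) (Y a)‖ ^ 2 := by positivity
        linarith
      rw [Finset.sum_eq_zero_iff_of_nonneg fun a _ => by positivity] at h4
      have h5 := h4 b (Finset.mem_univ _)
      exact norm_eq_zero.mp (sq_eq_zero_iff.mp h5)
    have hY0 : Y = 0 := by
      ext a : 1
      have := h1 a
      simp only [hBX, Finset.sum_const_zero] at this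
      have hne : (c : ℂ) ≠ 0 := by exact_mod_cast hc0.ne'
      exact (smul_eq_zero.mp this.symm).resolve_left hne
    rw [hY0, norm_zero] at hY
    exact zero_ne_one hY
  · exact h

theorem stmt_general : Stmt_general := by
  intro n m k y hn hy
  set G := Submodule.span ℂ (Set.range fun p : Fin k × Fin k => y p.1 p.2) with hG
  have hmem : ∀ a b, y a b ∈ G := fun a b => Submodule.subset_span ⟨(a, b), rfl⟩
  have hy' : ∀ ξ η : EuclideanSpace ℂ (Fin k),
      ‖∑ a, ∑ b, (conj (ξ a) * η b) • (⟨y a b, hmem a b⟩ : G)‖ ≤ ‖ξ‖ * ‖η‖ := by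
    intro ξ η
    have e : G.subtype (∑ a, ∑ b, (conj (ξ a) * η b) • (⟨y a b, hmem a b⟩ : G)) =
        ∑ a, ∑ b, (conj (ξ a) * η b) • y a b := by
      rw [map_sum]
      refine Finset.sum_congr rfl fun a _ => ?_
      rw [map_sum]
      refine Finset.sum_congr rfl fun b _ => ?_
      rw [map_smul]
      rfl
    have h3 := hy ξ η
    rw [← e] at h3
    exact h3
  have h := matOp_norm_le G.subtypeL (fun x => le_rfl) (fun a b => (⟨y a b, hmem a b⟩ : G)) hy'
  have hn' : (Module.finrank ℂ G : ℝ) ≤ n := by exact_mod_cast hn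
  refine le_trans h ?_
  linarith

end final

end CbRank
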