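import Pool.Agent.CbRank.Two
import Pool.Agent.CbRank.GeneralFinal

/-!
The case `n = 2`, final step: `FinCore 2 √2`.
-/

namespace CbRank

open scoped ComplexConjugate InnerProductSpace Matrix ComplexOrder

/-- `1 - M^* M` is positive semidefinite for a contraction `M`. -/
theorem posSemidef_one_sub {k : ℕ} (M : Matrix (Fin k) (Fin k) ℂ)
    (hM : ∀ ξ η : EuclideanSpace ℂ (Fin k),
      ‖∑ a, ∑ b, (conj (ξ a) * η b) * M a b‖ ≤ ‖ξ‖ * ‖η‖) :
    (1 - Mᴴ * M).PosSemidef := by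
  refine posSemidef_of_form ?_ fun h => ?_
  · rw [Matrix.IsHermitian, Matrix.conjTranspose_sub, Matrix.conjTranspose_one,
      Matrix.conjTranspose_mul, Matrix.conjTranspose_conjTranspose]
  · rw [form_sub, form_one, form_gram_self, Complex.sub_re, Complex.ofReal_re, Complex.ofReal_re]
    let η : EuclideanSpace ℂ (Fin k) := WithLp.toLp 2 h
    let ξ : EuclideanSpace ℂ (Fin k) := WithLp.toLp 2 (act M h)
    have h1 := hM ξ η
    have hη : ‖η‖ ^ 2 = ∑ i, ‖h i‖ ^ 2 := EuclideanSpace.norm_sq_eq η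
    have hξ : ‖ξ‖ ^ 2 = ∑ i, ‖act M h i‖ ^ 2 := EuclideanSpace.norm_sq_eq ξ
    have h2 : ∑ a, ∑ b, (conj (ξ a) * η b) * M a b = ((‖ξ‖ ^ 2 : ℝ) : ℂ) := by
      rw [hξ, Complex.ofReal_sum]
      refine Finset.sum_congr rfl fun a _ => ?_
      have : ∀ b, (conj (ξ a) * η b) * M a b = conj (ξ a) * (M a b * h b) := by
        intro b
        change (conj (ξ a) * h b) * M a b = _
        ring
      simp_rw [this]
      rw [← Finset.mul_sum]
      have e : ∑ b, M a b * h b = act M h a := rfl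
      rw [e]
      change conj (act M h a) * act M h a = _
      rw [mul_comm, Complex.mul_conj, Complex.normSq_eq_norm_sq]
    rw [h2, Complex.norm_real, Real.norm_eq_abs, abs_of_nonneg (by positivity)] at h1
    rw [← hη, ← hξ, sub_nonneg]
    have h3 : ‖ξ‖ ≤ ‖η‖ := by
      rcases (norm_nonneg ξ).eq_or_lt with h0 | h0
      · rw [← h0]; exact norm_nonneg _
      · have : ‖ξ‖ * ‖ξ‖ ≤ ‖ξ‖ * ‖η‖ := by nlinarith
        exact le_of_mul_le_mul_left this h0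
    exact pow_le_pow_left₀ (norm_nonneg _) h3 2

section abs

variable {m k : ℕ} {V : Type*} [NormedAddCommGroup V] [NormedSpace ℂ V] [FiniteDimensional ℂ V]

/-- The bound for an abstract two-dimensional normed space. -/
theorem matOp_norm_le_two
    (B : V →L[ℂ] (EuclideanSpace ℂ (Fin m) →L[ℂ] EuclideanSpace ℂ (Fin m)))
    (hB : ∀ x, ‖B x‖ ≤ ‖x‖) (hV : Module.finrank ℂ V = 2) (y : Fin k → Fin k → V)
    (hy : ∀ ξ η : EuclideanSpace ℂ (Fin k),
      ‖∑ a, ∑ b, (conj (ξ a) * η b) • y a b‖ ≤ ‖ξ‖ * ‖η‖) :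
    ‖matOp fun a b => B (y a b)‖ ≤ Real.sqrt 2 := by
  obtain ⟨e, J, _, c, φ, hc, hφ, hab, h1, h2, h3, h4, h5, hJ⟩ := john hV
  let x0 : Matrix (Fin k) (Fin k) ℂ := fun a b => e.repr (y a b) 0
  let x1 : Matrix (Fin k) (Fin k) ℂ := fun a b => e.repr (y a b) 1
  let Y0 : EuclideanSpace ℂ (Fin m) →L[ℂ] EuclideanSpace ℂ (Fin m) := B (e 0)
  let Y1 : EuclideanSpace ℂ (Fin m) →L[ℂ] EuclideanSpace ℂ (Fin m) := B (e 1)
  have hrep : ∀ a b, y a b = x0 a b • e 0 + x1 a b • e 1 := by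
    intro a b
    have := e.sum_repr (y a b)
    rw [Fin.sum_univ_two] at this
    exact this.symm
  have hrep' : ∀ a b, B (y a b) = x0 a b • Y0 + x1 a b • Y1 := by
    intro a b
    rw [hrep, map_add, map_smul, map_smul]
  have hD : ∀ j, (Dm x0 x1 (φ j (e 0)) (φ j (e 1))).PosSemidef := by
    intro j
    apply posSemidef_one_sub
    intro ξ η
    have e1 : ∑ a, ∑ b, (conj (ξ a) * η b) * (φ j (e 0) • x0 + φ j (e 1) • x1) a b =
        φ j (∑ a, ∑ b, (conj (ξ a) * η b) • y a b) := by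
      rw [map_sum]
      refine Finset.sum_congr rfl fun a _ => ?_
      rw [map_sum]
      refine Finset.sum_congr rfl fun b _ => ?_
      rw [map_smul, hrep, map_add, map_smul, map_smul]
      simp only [Matrix.add_apply, Matrix.smul_apply, smul_eq_mul]
      ring
    rw [e1]
    calc ‖φ j (∑ a, ∑ b, (conj (ξ a) * η b) • y a b)‖
        ≤ ‖φ j‖ * ‖∑ a, ∑ b, (conj (ξ a) * η b) • y a b‖ := (φ j).le_opNorm _
      _ ≤ 1 * ‖∑ a, ∑ b, (conj (ξ a) * η b) • y a b‖ := by gcongr; exact hφ j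
      _ ≤ ‖ξ‖ * ‖η‖ := by rw [one_mul]; exact hy ξ η
  have hY : ∀ x z : ℂ, ‖x • Y0 + z • Y1‖ ^ 2 ≤ ‖x‖ ^ 2 + ‖z‖ ^ 2 := by
    intro x z
    have e1 : x • Y0 + z • Y1 = B (x • e 0 + z • e 1) := by
      rw [map_add, map_smul, map_smul]
    rw [e1]
    exact (pow_le_pow_left₀ (norm_nonneg _) (hB _) 2).trans (hJ x z)
  refine ContinuousLinearMap.opNorm_le_bound _ (by positivity) fun Z => ?_
  have hmain := two_core hc hab h1 h2 h3 h4 h5 hD hY (fun i => Z i)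
  have hnorm : ‖matOp (fun a b => B (y a b)) Z‖ ^ 2 =
      (form (x0ᴴ * x0) (fun i => Y0 (Z i)) (fun i => Y0 (Z i))).re +
      (form (x1ᴴ * x1) (fun i => Y1 (Z i)) (fun i => Y1 (Z i))).re +
      2 * (form (x0ᴴ * x1) (fun i => Y0 (Z i)) (fun i => Y1 (Z i))).re := by
    rw [PiLp.norm_sq_eq_of_L2, form_gram_self, form_gram_self, form_gram, Complex.ofReal_re,
      Complex.ofReal_re, Complex.re_sum, Finset.mul_sum, ← Finset.sum_add_distrib,
      ← Finset.sum_add_distrib]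
    refine Finset.sum_congr rfl fun a _ => ?_
    have e1 : matOp (fun a b => B (y a b)) Z a =
        act x0 (fun i => Y0 (Z i)) a + act x1 (fun i => Y1 (Z i)) a := by
      rw [matOp_apply, act, act, ← Finset.sum_add_distrib]
      refine Finset.sum_congr rfl fun b _ => ?_
      rw [hrep']
      rfl
    rw [e1, norm_add_sq (𝕜 := ℂ)]
    simp only [RCLike.re_eq_complex_re]
    ring
  have hZ : ∑ i, ‖Z i‖ ^ 2 = ‖Z‖ ^ 2 := (PiLp.norm_sq_eq_of_L2 _ Z).symm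
  rw [← hnorm, hZ] at hmain
  have h6 : ‖matOp (fun a b => B (y a b)) Z‖ ^ 2 ≤ (Real.sqrt 2 * ‖Z‖) ^ 2 := by
    rw [mul_pow, Real.sq_sqrt (by norm_num)]
    exact hmain
  exact (pow_le_pow_iff_left₀ (norm_nonneg _) (by positivity) two_ne_zero).mp h6

end abs

theorem matOp_norm_le_two' {m k : ℕ} {V : Type*} [NormedAddCommGroup V] [NormedSpace ℂ V]
    [FiniteDimensional ℂ V]
    (B : V →L[ℂ] (EuclideanSpace ℂ (Fin m) →L[ℂ] EuclideanSpace ℂ (Fin m)))
    (hB : ∀ x, ‖B x‖ ≤ ‖x‖) (hV : Module.finrank ℂ V ≤ 2) (y : Fin k → Fin k → V)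
    (hy : ∀ ξ η : EuclideanSpace ℂ (Fin k),
      ‖∑ a, ∑ b, (conj (ξ a) * η b) • y a b‖ ≤ ‖ξ‖ * ‖η‖) :
    ‖matOp fun a b => B (y a b)‖ ≤ Real.sqrt 2 := by
  rcases Nat.lt_or_ge (Module.finrank ℂ V) 2 with hlt | hge
  · have h1 := matOp_norm_le B hB y hy
    have h2 : (Module.finrank ℂ V : ℝ) ≤ 1 := by
      exact_mod_cast (show Module.finrank ℂ V ≤ 1 by omega)
    have h3 : (1 : ℝ) ≤ Real.sqrt 2 := Real.one_le_sqrt.mpr (by norm_num)
    linarith
  · exact matOp_norm_le_two B hB (le_antisymm hV hge) y hy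

theorem finCore_of {n : ℕ} {C : ℝ}
    (h : ∀ (V : Type) [NormedAddCommGroup V] [NormedSpace ℂ V] [FiniteDimensional ℂ V] (m k : ℕ)
      (B : V →L[ℂ] (EuclideanSpace ℂ (Fin m) →L[ℂ] EuclideanSpace ℂ (Fin m))),
      (∀ x, ‖B x‖ ≤ ‖x‖) → Module.finrank ℂ V ≤ n → ∀ (y : Fin k → Fin k → V),
      (∀ ξ η : EuclideanSpace ℂ (Fin k),
        ‖∑ a, ∑ b, (conj (ξ a) * η b) • y a b‖ ≤ ‖ξ‖ * ‖η‖) →
      ‖matOp fun a b => B (y a b)‖ ≤ C) : FinCore n C := by
  intro m k y hn hy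
  set G := Submodule.span ℂ (Set.range fun p : Fin k × Fin k => y p.1 p.2) with hG
  have hmem : ∀ a b, y a b ∈ G := fun a b => Submodule.subset_span ⟨(a, b), rfl⟩
  have hy' : ∀ ξ η : EuclideanSpace ℂ (Fin k),
      ‖∑ a, ∑ b, (conj (ξ a) * η b) • (⟨y a b, hmem a b⟩ : G)‖ ≤ ‖ξ‖ * ‖η‖ := by
    intro ξ η
    have e : G.subtype (∑ a, ∑ b, (conj (ξ a) * η b) • (⟨y a b, hmem a b⟩ : G)) =
        ∑ a, ∑ b, (conj (ξ a) * η b) • y a b := by
      rw [map_sum]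
      refine Finset.sum_congr rfl fun a _ => ?_
      rw [map_sum]
      refine Finset.sum_congr rfl fun b _ => ?_
      rw [map_smul]
      rfl
    have h3 := hy ξ η
    rw [← e] at h3
    exact h3
  have h5 := h G m k G.subtypeL (fun x => le_rfl) hn (fun a b => (⟨y a b, hmem a b⟩ : G)) hy'
  exact h5

theorem stmt_two : Stmt_two :=
  finCore_of fun V _ _ _ m k B hB hV y hy => matOp_norm_le_two' B hB hV y hy

end CbRank
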