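import Pool.Agent.CbRank.OpSpace
import Pool.Agent.CbRank.Assembly
import Pool.Agent.CbRank.TwoFinal

/-!
# The definitions in `OpSpace.lean` agree with those in `Basic.lean`
-/

namespace OpSp

open scoped ENNReal

universe u

set_option synthInstance.maxHeartbeats 400000

theorem rank_le_iff_aux {V W : Type*} [AddCommGroup V] [Module ℂ V] [AddCommGroup W] [Module ℂ W]
    (u : V →ₗ[ℂ] W) (n : ℕ) :
    u.rank ≤ n ↔ Module.Finite ℂ (LinearMap.range u) ∧
      Module.finrank ℂ (LinearMap.range u) ≤ n := by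
  unfold LinearMap.rank
  constructor
  · intro h
    have hf : Module.Finite ℂ (LinearMap.range u) :=
      Module.rank_lt_aleph0_iff.1 (lt_of_le_of_lt h Cardinal.natCast_lt_aleph0)
    refine ⟨hf, ?_⟩
    have h2 := Module.finrank_eq_rank ℂ (LinearMap.range u)
    rw [← h2] at h
    exact_mod_cast h
  · rintro ⟨hf, h⟩
    have h2 := Module.finrank_eq_rank ℂ (LinearMap.range u)
    rw [← h2]
    exact_mod_cast h

section norms

variable {H K : Type*} [NormedAddCommGroup H] [InnerProductSpace ℂ H]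
  [NormedAddCommGroup K] [InnerProductSpace ℂ K]

theorem matNorm_eq {k : ℕ} (x : Fin k → Fin k → (H →L[ℂ] H)) :
    matNorm x = ‖CbRank.matOp x‖ := by
  rw [ContinuousLinearMap.norm_def, matNorm]
  congr 1
  ext C
  simp only [Set.mem_ofPred_eq, PiLp.norm_eq_of_L2, CbRank.matOp_apply]
  constructor
  · rintro ⟨h0, h⟩
    exact ⟨h0, fun v => h (fun j => v j)⟩
  · rintro ⟨h0, h⟩
    refine ⟨h0, fun v => ?_⟩
    have := h (WithLp.toLp 2 v)
    simpa using this

theorem norm_matOp_one (x : Fin 1 → Fin 1 → (H →L[ℂ] H)) :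
    ‖CbRank.matOp x‖ = ‖x 0 0‖ := by
  apply le_antisymm
  · refine ContinuousLinearMap.opNorm_le_bound _ (norm_nonneg _) fun v => ?_
    rw [PiLp.norm_eq_of_L2, PiLp.norm_eq_of_L2]
    simp only [CbRank.matOp_apply, Fin.sum_univ_one, Fin.isValue]
    rw [Real.sqrt_sq (norm_nonneg _), Real.sqrt_sq (norm_nonneg _)]
    exact (x 0 0).le_opNorm _
  · refine ContinuousLinearMap.opNorm_le_bound _ (norm_nonneg (CbRank.matOp x)) fun v => ?_
    have h := (CbRank.matOp x).le_opNorm (WithLp.toLp 2 (fun _ => v))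
    rw [PiLp.norm_eq_of_L2, PiLp.norm_eq_of_L2] at h
    simp only [CbRank.matOp_apply, Fin.sum_univ_one, Fin.isValue] at h
    rw [Real.sqrt_sq (norm_nonneg _), Real.sqrt_sq (norm_nonneg _)] at h
    exact h

variable {E : Submodule ℂ (H →L[ℂ] H)} {F : Submodule ℂ (K →L[ℂ] K)}

theorem ampNorm_eq (u : E →ₗ[ℂ] F) (k : ℕ) :
    ampNorm (fun x : E => (x : H →L[ℂ] H)) (fun x : E => (u x : K →L[ℂ] K)) k =
      CbRank.ampNorm u k := by
  simp only [ampNorm, CbRank.ampNorm, CbRank.matNorm, matNorm_eq]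

theorem cbNorm_eq (u : E →ₗ[ℂ] F) :
    cbNorm (fun x : E => (x : H →L[ℂ] H)) (fun x : E => (u x : K →L[ℂ] K)) =
      CbRank.cbNorm u := by
  simp only [cbNorm, CbRank.cbNorm, ampNorm_eq]

theorem ampNorm_one_eq (u : E →ₗ[ℂ] F) :
    ampNorm (fun x : E => (x : H →L[ℂ] H)) (fun x : E => (u x : K →L[ℂ] K)) 1 =
      CbRank.opNorm u := by
  simp only [ampNorm, CbRank.opNorm, matNorm_eq, norm_matOp_one]
  apply le_antisymm
  · refine iSup₂_le fun x hx => ?_
    exact le_iSup₂_of_le (x 0 0) hx le_rfl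
  · refine iSup₂_le fun x hx => ?_
    exact le_iSup₂_of_le (fun _ _ => x) hx le_rfl

theorem rank_le_iff (u : E →ₗ[ℂ] F) (n : ℕ) :
    u.rank ≤ n ↔ Module.Finite ℂ (LinearMap.range u) ∧
      Module.finrank ℂ (LinearMap.range u) ≤ n :=
  rank_le_iff_aux u n

end norms

theorem isRankBound_iff (c : ℝ) : IsRankBound.{u} c ↔ CbRank.IsRankBound.{u} c := by
  constructor
  · intro h n hn H _ _ _ K _ _ _ E F hE hF u hf hr
    have := (h n hn H K).bound E F hE hF u ((rank_le_iff u n).2 ⟨hf, hr⟩)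
    rwa [cbNorm_eq, ampNorm_one_eq] at this
  · intro h n hn H _ _ _ K _ _ _
    refine ⟨fun E F hE hF u hu => ?_⟩
    obtain ⟨hf, hr⟩ := (rank_le_iff u n).1 hu
    rw [cbNorm_eq, ampNorm_one_eq]
    exact h n hn H K E F hE hF u hf hr

theorem cStar_eq : cStar.{u} = CbRank.cStar.{u} := by
  unfold cStar CbRank.cStar
  congr 1
  ext c
  simp only [Set.mem_ofPred_eq, isRankBound_iff]

end OpSp
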