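import Mathlib

/-!
The convex hull of a compact subset of a finite-dimensional space is compact.
-/

namespace CbRank

open Module

theorem isCompact_convexHull {E : Type*} [NormedAddCommGroup E] [NormedSpace ℝ E]
    [FiniteDimensional ℝ E] {s : Set E} (hs : IsCompact s) : IsCompact (convexHull ℝ s) := by
  rcases s.eq_empty_or_nonempty with rfl | ⟨s0, hs0⟩
  · simp
  set N := finrank ℝ E + 1 with hN
  let Φ : (Fin N → ℝ) × (Fin N → E) → E := fun p => ∑ i, p.1 i • p.2 i
  have hΦ : Continuous Φ := by
    refine continuous_finsetSum _ fun i _ => ?_
    exact ((continuous_apply i).comp continuous_fst).smul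
      ((continuous_apply i).comp continuous_snd)
  have himg : Φ '' (stdSimplex ℝ (Fin N) ×ˢ Set.pi Set.univ fun _ => s) = convexHull ℝ s := by
    apply Set.Subset.antisymm
    · rintro _ ⟨⟨w, z⟩, ⟨hw, hz⟩, rfl⟩
      exact (convex_convexHull ℝ s).sum_mem (fun i _ => hw.1 i) hw.2
        fun i _ => subset_convexHull ℝ s (hz i (Set.mem_univ i))
    · intro x hx
      obtain ⟨ι, _, z, w, hz, hai, hw, hw1, hx⟩ := eq_pos_convex_span_of_mem_convexHull hx
      have hcard : Fintype.card ι ≤ Fintype.card (Fin N) := by
        rw [Fintype.card_fin]
        refine hai.card_le_finrank_succ.trans ?_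
        have := Submodule.finrank_le (vectorSpan ℝ (Set.range z))
        omega
      obtain ⟨e⟩ := Function.Embedding.nonempty_of_card_le hcard
      classical
      let w' : Fin N → ℝ := fun i => if h : ∃ j, e j = i then w h.choose else 0
      let z' : Fin N → E := fun i => if h : ∃ j, e j = i then z h.choose else s0
      have hw' : ∀ j, w' (e j) = w j := by
        intro j
        have h : ∃ j', e j' = e j := ⟨j, rfl⟩
        have h2 : h.choose = j := e.injective h.choose_spec
        simp only [w', dif_pos h, h2]
      have hz' : ∀ j, z' (e j) = z j := by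
        intro j
        have h : ∃ j', e j' = e j := ⟨j, rfl⟩
        have h2 : h.choose = j := e.injective h.choose_spec
        simp only [z', dif_pos h, h2]
      have hw0 : ∀ i, i ∉ Set.range e → w' i = 0 := by
        intro i hi
        have : ¬ ∃ j, e j = i := hi
        simp only [w', dif_neg this]
      refine ⟨(w', z'), ⟨⟨fun i => ?_, ?_⟩, fun i _ => ?_⟩, ?_⟩
      · by_cases h : ∃ j, e j = i
        · simp only [w', dif_pos h]; exact (hw _).le
        · simp only [w', dif_neg h]; exact le_rfl
      · rw [← hw1]
        have : ∑ i, w' i = ∑ i ∈ Finset.univ.map e, w' i := by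
          symm
          apply Finset.sum_subset (Finset.subset_univ _)
          intro i _ hi
          apply hw0
          simpa using hi
        change ∑ i, w' i = _
        rw [this, Finset.sum_map]
        exact Finset.sum_congr rfl fun j _ => hw' j
      · by_cases h : ∃ j, e j = i
        · simp only [z', dif_pos h]; exact hz ⟨_, rfl⟩
        · simp only [z', dif_neg h]; exact hs0
      · rw [← hx]
        have : ∑ i, w' i • z' i = ∑ i ∈ Finset.univ.map e, w' i • z' i := by
          symm
          apply Finset.sum_subset (Finset.subset_univ _)
          intro i _ hi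
          rw [hw0 i (by simpa using hi), zero_smul]
        change ∑ i, w' i • z' i = _
        rw [this, Finset.sum_map]
        exact Finset.sum_congr rfl fun j _ => by rw [hw' j, hz' j]
  rw [← himg]
  exact ((isCompact_stdSimplex ℝ (Fin N)).prod (isCompact_univ_pi fun _ => hs)).image hΦ

end CbRank
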