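import Pool.Agent.CbRank.Basic

/-!
Interface statements for the proof of `c^* = 1/√2` (MP_87d6b4_an).
-/

namespace CbRank

open scoped ENNReal ComplexConjugate

universe u

/-- Finite-dimensional core statement: for a `k × k` matrix `y` with entries in `M_m`
spanning a space of dimension at most `n` (i.e. a tensor in `M_k ⊗ M_m` of tensor rank `≤ n`)
whose injective norm is `≤ 1`, the operator norm is `≤ C`. -/
def FinCore (n : ℕ) (C : ℝ) : Prop :=
  ∀ (m k : ℕ) (y : Fin k → Fin k → (EuclideanSpace ℂ (Fin m) →L[ℂ] EuclideanSpace ℂ (Fin m))),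
    Module.finrank ℂ (Submodule.span ℂ (Set.range fun p : Fin k × Fin k => y p.1 p.2)) ≤ n →
    (∀ ξ η : EuclideanSpace ℂ (Fin k),
      ‖∑ a, ∑ b, (conj (ξ a) * η b) • y a b‖ ≤ ‖ξ‖ * ‖η‖) →
    ‖matOp y‖ ≤ C

/-- (helper60) all `n ≥ 1`; used for `n ≥ 3`, where `(n+1)/2 ≤ n/√2`. -/
def Stmt_general : Prop := ∀ n : ℕ, FinCore n ((n + 1) / 2)

/-- (helper87) the case `n = 2`. -/
def Stmt_two : Prop := FinCore 2 (Real.sqrt 2)

/-- (reduction) -/
def Stmt_reduction : Prop :=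
  ∀ (n : ℕ) (C : ℝ), 0 ≤ C → FinCore n C →
    ∀ (H : Type u) [NormedAddCommGroup H] [InnerProductSpace ℂ H]
    (K : Type u) [NormedAddCommGroup K] [InnerProductSpace ℂ K]
    (E : Submodule ℂ (H →L[ℂ] H)) (F : Submodule ℂ (K →L[ℂ] K)) (u : E →ₗ[ℂ] F),
      Module.Finite ℂ (LinearMap.range u) → Module.finrank ℂ (LinearMap.range u) ≤ n →
      cbNorm u ≤ ENNReal.ofReal C * opNorm u

/-- (lower bound) row and column spaces in dimension two -/
def Stmt_lower : Prop := ∀ c : ℝ, 0 < c → IsRankBound.{u} c → 1 / Real.sqrt 2 ≤ c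

end CbRank
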