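import Pool.Agent.CbRank.Averaging

/-!
Sesquilinear forms attached to scalar matrices and families of vectors, positivity of
elementary and of Toeplitz blocks.
-/

namespace CbRank

open scoped ComplexConjugate InnerProductSpace Matrix ComplexOrder

open scoped MatrixOrder in
theorem exists_gram {ι : Type*} [Fintype ι] {D : Matrix ι ι ℂ} (hD : D.PosSemidef) :
    ∃ A : Matrix ι ι ℂ, D = Aᴴ * A := by
  classical
  obtain ⟨B, hB⟩ := CStarAlgebra.nonneg_iff_eq_star_mul_self.mp hD.nonneg
  exact ⟨B, hB⟩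

section form

variable {H : Type*} [NormedAddCommGroup H] [InnerProductSpace ℂ H]
  {ι ι' κ κ' : Type*} [Fintype ι] [Fintype ι'] [Fintype κ] [Fintype κ']

/-- `∑ M_{ij} ⟪v_i, w_j⟫` -/
noncomputable def form (M : Matrix ι ι' ℂ) (v : ι → H) (w : ι' → H) : ℂ :=
  ∑ i, ∑ j, M i j * ⟪v i, w j⟫_ℂ

theorem form_add (M N : Matrix ι ι' ℂ) (v : ι → H) (w : ι' → H) :
    form (M + N) v w = form M v w + form N v w := by
  simp [form, add_mul, Finset.sum_add_distrib]

theorem form_sub (M N : Matrix ι ι' ℂ) (v : ι → H) (w : ι' → H) :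
    form (M - N) v w = form M v w - form N v w := by
  simp [form, sub_mul, Finset.sum_sub_distrib]

theorem form_smul (c : ℂ) (M : Matrix ι ι' ℂ) (v : ι → H) (w : ι' → H) :
    form (c • M) v w = c * form M v w := by
  simp [form, Finset.mul_sum, mul_assoc]

theorem form_sum {J : Type*} (s : Finset J) (M : J → Matrix ι ι' ℂ) (v : ι → H) (w : ι' → H) :
    form (∑ j ∈ s, M j) v w = ∑ j ∈ s, form (M j) v w := by
  classical
  induction s using Finset.induction_on with
  | empty => simp [form]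
  | insert a s ha ih => rw [Finset.sum_insert ha, Finset.sum_insert ha, form_add, ih]

theorem form_add_left (M : Matrix ι ι' ℂ) (v v' : ι → H) (w : ι' → H) :
    form M (v + v') w = form M v w + form M v' w := by
  simp [form, inner_add_left, mul_add, Finset.sum_add_distrib]

theorem form_add_right (M : Matrix ι ι' ℂ) (v : ι → H) (w w' : ι' → H) :
    form M v (w + w') = form M v w + form M v w' := by
  simp [form, inner_add_right, mul_add, Finset.sum_add_distrib]

theorem form_smul_left (M : Matrix ι ι' ℂ) (c : ℂ) (v : ι → H) (w : ι' → H) :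
    form M (c • v) w = conj c * form M v w := by
  simp only [form, Pi.smul_apply, inner_smul_left, Finset.mul_sum]
  refine Finset.sum_congr rfl fun i _ => Finset.sum_congr rfl fun j _ => ?_
  ring

theorem form_smul_right (M : Matrix ι ι' ℂ) (c : ℂ) (v : ι → H) (w : ι' → H) :
    form M v (c • w) = c * form M v w := by
  simp only [form, Pi.smul_apply, inner_smul_right, Finset.mul_sum]
  refine Finset.sum_congr rfl fun i _ => Finset.sum_congr rfl fun j _ => ?_
  ring

theorem form_conj (M : Matrix ι ι' ℂ) (v : ι → H) (w : ι' → H) :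
    form Mᴴ w v = conj (form M v w) := by
  simp only [form, map_sum, map_mul, inner_conj_symm, Matrix.conjTranspose_apply]
  rw [Finset.sum_comm]
  rfl

/-- the action of a scalar matrix on a family of vectors -/
noncomputable def act (A : Matrix κ ι ℂ) (v : ι → H) : κ → H := fun l => ∑ i, A l i • v i

theorem form_gram (A : Matrix κ ι ℂ) (B : Matrix κ ι' ℂ) (v : ι → H) (w : ι' → H) :
    form (Aᴴ * B) v w = ∑ l, ⟪act A v l, act B w l⟫_ℂ := by
  have h1 : ∀ l, ⟪act A v l, act B w l⟫_ℂ =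
      ∑ i, ∑ j, (conj (A l i) * B l j) * ⟪v i, w j⟫_ℂ := by
    intro l
    rw [act, sum_inner]
    refine Finset.sum_congr rfl fun i _ => ?_
    rw [act, inner_sum]
    refine Finset.sum_congr rfl fun j _ => ?_
    rw [inner_smul_left, inner_smul_right]
    ring
  have h2 : ∀ i j, (Aᴴ * B) i j * ⟪v i, w j⟫_ℂ =
      ∑ l, (conj (A l i) * B l j) * ⟪v i, w j⟫_ℂ := by
    intro i j
    rw [Matrix.mul_apply, Finset.sum_mul]
    rfl
  simp_rw [h1]
  unfold form
  simp_rw [h2]
  have h3 : ∀ i : ι, ∑ j : ι', ∑ l : κ, (conj (A l i) * B l j) * ⟪v i, w j⟫_ℂ =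
      ∑ l : κ, ∑ j : ι', (conj (A l i) * B l j) * ⟪v i, w j⟫_ℂ := fun i => Finset.sum_comm
  simp_rw [h3]
  exact Finset.sum_comm

theorem form_gram_self (A : Matrix κ ι ℂ) (v : ι → H) :
    form (Aᴴ * A) v v = ((∑ l, ‖act A v l‖ ^ 2 : ℝ) : ℂ) := by
  rw [form_gram, Complex.ofReal_sum]
  refine Finset.sum_congr rfl fun l _ => ?_
  have : ⟪act A v l, act A v l⟫_ℂ = ((‖act A v l‖ : ℝ) : ℂ) ^ 2 := inner_self_eq_norm_sq_to_K _
  rw [this]; push_cast; rfl

theorem form_one [DecidableEq ι] (v : ι → H) :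
    form (1 : Matrix ι ι ℂ) v v = ((∑ i, ‖v i‖ ^ 2 : ℝ) : ℂ) := by
  simp only [form, Matrix.one_apply, ite_mul, one_mul, zero_mul, Finset.sum_ite_eq,
    Finset.mem_univ, if_true]
  rw [Complex.ofReal_sum]
  refine Finset.sum_congr rfl fun l _ => ?_
  have : ⟪v l, v l⟫_ℂ = ((‖v l‖ : ℝ) : ℂ) ^ 2 := inner_self_eq_norm_sq_to_K _
  rw [this]; push_cast; rfl

theorem act_map (A : Matrix κ ι ℂ) (Y : H →L[ℂ] H) (v : ι → H) (l : κ) :
    act A (fun i => Y (v i)) l = Y (act A v l) := by
  simp [act]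

theorem form_nonneg {D : Matrix ι ι ℂ} (hD : D.PosSemidef) (v : ι → H) :
    0 ≤ (form D v v).re := by
  classical
  obtain ⟨A, rfl⟩ := exists_gram hD
  rw [form_gram_self, Complex.ofReal_re]
  positivity

theorem form_map_le {D : Matrix ι ι ℂ} (hD : D.PosSemidef) (v : ι → H) (Y : H →L[ℂ] H) :
    (form D (fun i => Y (v i)) (fun i => Y (v i))).re ≤ ‖Y‖ ^ 2 * (form D v v).re := by
  classical
  obtain ⟨A, rfl⟩ := exists_gram hD
  rw [form_gram_self, form_gram_self, Complex.ofReal_re, Complex.ofReal_re, Finset.mul_sum]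
  refine Finset.sum_le_sum fun l _ => ?_
  rw [act_map, ← mul_pow]
  exact pow_le_pow_left₀ (norm_nonneg _) (Y.le_opNorm _) 2

end form

end CbRank
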