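import Mathlib

/-!
Integration by parts against a Lipschitz compactly supported weight, and scaling of integrals.
-/

namespace CbRank

open MeasureTheory Metric

section real

variable {V : Type*} [NormedAddCommGroup V] [NormedSpace ℝ V] [FiniteDimensional ℝ V]
  [MeasurableSpace V] [BorelSpace V] {μ : Measure V} [μ.IsAddHaarMeasure]

/-- Integration by parts: `f` Lipschitz with compact support, `g` of class `C^1`. -/
theorem ibp_real {C : NNReal} {f g : V → ℝ} (hf : LipschitzWith C f) (hfc : HasCompactSupport f)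
    (hg : ContDiff ℝ 1 g) (v : V) :
    ∫ x, lineDeriv ℝ f x v * g x ∂μ = - ∫ x, f x * fderiv ℝ g x v ∂μ := by
  obtain ⟨R, hR⟩ := hfc.isCompact.isBounded.subset_closedBall (0 : V)
  set r : ℝ := max R 0 + 1 with hr
  have hr0 : 0 < r := by positivity
  have hRr : R < r := by
    have := le_max_left R 0
    linarith
  let η : ContDiffBump (0 : V) := ⟨r, r + 1, hr0, by linarith⟩
  have hη1 : ∀ x ∈ closedBall (0 : V) r, η x = 1 := fun x hx => η.one_of_mem_closedBall hx
  have hgη : ContDiff ℝ 1 (fun x => η x * g x) := (η.contDiff).mul hg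
  have hcs : HasCompactSupport (fun x => η x * g x) := η.hasCompactSupport.mul_right
  obtain ⟨D, hD⟩ := ContDiff.lipschitzWith_of_hasCompactSupport hcs hgη one_ne_zero
  have key := hf.integral_lineDeriv_mul_eq hD hcs v (μ := μ)
  have h1 : ∀ x, lineDeriv ℝ f x v * g x = lineDeriv ℝ f x v * (η x * g x) := by
    intro x
    by_cases hx : x ∈ closedBall (0 : V) r
    · rw [hη1 x hx, one_mul]
    · have hx' : x ∉ tsupport f := fun h => hx (closedBall_subset_closedBall hRr.le (hR h))
      have h0 : f =ᶠ[nhds x] 0 := notMem_tsupport_iff_eventuallyEq.mp hx'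
      have : lineDeriv ℝ f x v = 0 := by
        rw [h0.lineDeriv_eq]
        simp [lineDeriv]
      rw [this]; simp
  have h2 : ∀ x, f x * fderiv ℝ g x v = - (lineDeriv ℝ (fun x => η x * g x) x (-v) * f x) := by
    intro x
    by_cases hx : x ∈ ball (0 : V) r
    · have h0 : (fun x => η x * g x) =ᶠ[nhds x] g := by
        filter_upwards [isOpen_ball.mem_nhds hx] with y hy
        rw [hη1 y (ball_subset_closedBall hy), one_mul]
      have h3 : lineDeriv ℝ (fun x => η x * g x) x (-v) = fderiv ℝ g x (-v) := by
        rw [h0.lineDeriv_eq]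
        exact ((hg.differentiable one_ne_zero) x).lineDeriv_eq_fderiv
      rw [h3]; simp; ring
    · have hx' : f x = 0 := by
        by_contra h
        have := hR (subset_tsupport f h)
        apply hx
        rw [mem_ball]
        rw [mem_closedBall] at this
        linarith
      rw [hx']; simp
  rw [integral_congr_ae (Filter.Eventually.of_forall h1), key,
    integral_congr_ae (Filter.Eventually.of_forall h2), integral_neg, neg_neg]

omit [FiniteDimensional ℝ V] in
theorem lineDeriv_eq_zero_of_notMem {f : V → ℝ} {x v : V} (hx : x ∉ tsupport f) :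
    lineDeriv ℝ f x v = 0 := by
  have h0 : f =ᶠ[nhds x] 0 := notMem_tsupport_iff_eventuallyEq.mp hx
  rw [h0.lineDeriv_eq]
  simp [lineDeriv]

theorem integrable_mul {f : V → ℝ} {g : V → ℂ} (hf : Continuous f)
    (hfc : HasCompactSupport f) (hg : Continuous g) :
    Integrable (fun x => (f x : ℂ) * g x) μ := by
  apply Continuous.integrable_of_hasCompactSupport
  · exact (Complex.continuous_ofReal.comp hf).mul hg
  · apply HasCompactSupport.mul_right
    exact hfc.comp_left (g := fun t : ℝ => (t : ℂ)) (by simp)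

theorem integrable_lineDeriv_mul {C : NNReal} {f : V → ℝ} {g : V → ℂ} (hf : LipschitzWith C f)
    (hfc : HasCompactSupport f) (hg : Continuous g) (v : V) :
    Integrable (fun x => ((lineDeriv ℝ f x v : ℝ) : ℂ) * g x) μ := by
  have m1 : AEStronglyMeasurable (fun x => lineDeriv ℝ f x v) μ :=
    aestronglyMeasurable_lineDeriv hf.continuous μ
  have hsub : Function.support (fun x => ((lineDeriv ℝ f x v : ℝ) : ℂ) * g x) ⊆ tsupport f := by
    intro x hx
    by_contra h
    apply hx
    simp [lineDeriv_eq_zero_of_notMem h]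
  rw [← integrableOn_iff_integrable_of_support_subset hsub]
  have hgi : IntegrableOn g (tsupport f) μ :=
    hg.continuousOn.integrableOn_compact hfc.isCompact
  apply Integrable.bdd_mul hgi
    (Complex.continuous_ofReal.comp_aestronglyMeasurable m1.restrict) (c := C * ‖v‖)
  filter_upwards with x
  rw [Complex.norm_real]
  exact norm_lineDeriv_le_of_lipschitz ℝ hf

/-- Complex-valued version. -/
theorem ibp_complex {C : NNReal} {f : V → ℝ} {g : V → ℂ} (hf : LipschitzWith C f)
    (hfc : HasCompactSupport f) (hg : ContDiff ℝ 1 g) (v : V) :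
    ∫ x, ((lineDeriv ℝ f x v : ℝ) : ℂ) * g x ∂μ = - ∫ x, (f x : ℂ) * fderiv ℝ g x v ∂μ := by
  have hgd : Differentiable ℝ g := hg.differentiable one_ne_zero
  have hre : ContDiff ℝ 1 (fun x => (g x).re) := Complex.reCLM.contDiff.comp hg
  have him : ContDiff ℝ 1 (fun x => (g x).im) := Complex.imCLM.contDiff.comp hg
  have e1 := ibp_real (μ := μ) hf hfc hre v
  have e2 := ibp_real (μ := μ) hf hfc him v
  have d1 : ∀ x, fderiv ℝ (fun x => (g x).re) x v = (fderiv ℝ g x v).re := by
    intro x
    have := (Complex.reCLM.hasFDerivAt.comp x (hgd x).hasFDerivAt).fderiv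
    have h := congrArg (fun L => L v) this
    exact h
  have d2 : ∀ x, fderiv ℝ (fun x => (g x).im) x v = (fderiv ℝ g x v).im := by
    intro x
    have := (Complex.imCLM.hasFDerivAt.comp x (hgd x).hasFDerivAt).fderiv
    have h := congrArg (fun L => L v) this
    exact h
  have hfd : Continuous fun x => fderiv ℝ g x v :=
    (hg.continuous_fderiv one_ne_zero).clm_apply continuous_const
  have i1 : Integrable (fun x => (f x : ℂ) * fderiv ℝ g x v) μ :=
    integrable_mul hf.continuous hfc hfd
  have i2 : Integrable (fun x => ((lineDeriv ℝ f x v : ℝ) : ℂ) * g x) μ :=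
    integrable_lineDeriv_mul hf hfc hg.continuous v
  have r1 := integral_re_add_im i1
  have r2 := integral_re_add_im i2
  rw [← r1, ← r2]
  have a1 : ∀ x, RCLike.re ((f x : ℂ) * fderiv ℝ g x v) =
      f x * fderiv ℝ (fun x => (g x).re) x v := by
    intro x; rw [d1]; simp
  have a2 : ∀ x, RCLike.im ((f x : ℂ) * fderiv ℝ g x v) =
      f x * fderiv ℝ (fun x => (g x).im) x v := by
    intro x; rw [d2]; simp
  have a3 : ∀ x, RCLike.re (((lineDeriv ℝ f x v : ℝ) : ℂ) * g x) =
      lineDeriv ℝ f x v * (g x).re := by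
    intro x; simp
  have a4 : ∀ x, RCLike.im (((lineDeriv ℝ f x v : ℝ) : ℂ) * g x) =
      lineDeriv ℝ f x v * (g x).im := by
    intro x; simp
  simp_rw [a1, a2, a3, a4, e1, e2]
  simp only [RCLike.ofReal_neg]
  ring

/-- Scaling of the integral of a 2-homogeneous function. -/
theorem scaling {F : V → ℝ} (hF : ∀ (s : ℝ) (x : V), F (s • x) = s ^ 2 * F x) {s : ℝ} (hs : 0 < s) :
    ∫ x in closedBall (0 : V) s, F x ∂μ =
      s ^ (Module.finrank ℝ V + 2) * ∫ x in closedBall (0 : V) 1, F x ∂μ := by
  have h := Measure.setIntegral_comp_smul_of_pos μ F (closedBall (0 : V) 1) hs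
  rw [smul_closedBall s (0 : V) zero_le_one] at h
  simp only [smul_zero, mul_one, Real.norm_eq_abs, abs_of_pos hs, smul_eq_mul] at h
  simp_rw [hF] at h
  rw [integral_const_mul] at h
  have hs' : s ^ Module.finrank ℝ V ≠ 0 := by positivity
  field_simp at h
  rw [← h]; ring

end real

end CbRank
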