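import Pool.Agent.CbRank.Defs
import Pool.Agent.CbRank.Ibp

/-!
The general bound: a tensor of tensor rank `≤ n` satisfies `‖t‖ ≤ ((n+1)/2) ‖t‖_ε`.
-/

namespace CbRank

open MeasureTheory Metric
open scoped ComplexConjugate InnerProductSpace

/-! ### The cut-off function -/

section cut

/-- piecewise linear cut-off -/
noncomputable def cut (ε r : ℝ) : ℝ := max 0 (min 1 ((1 + ε - r) / ε))

theorem cut_nonneg (ε r : ℝ) : 0 ≤ cut ε r := le_max_left _ _

theorem cut_of_le_one {ε r : ℝ} (hε : 0 < ε) (hr : r ≤ 1) : cut ε r = 1 := by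
  unfold cut
  have h : 1 ≤ (1 + ε - r) / ε := by
    rw [le_div_iff₀ hε]; linarith
  rw [min_eq_left h]
  exact max_eq_right zero_le_one

theorem cut_of_ge {ε r : ℝ} (hε : 0 < ε) (hr : 1 + ε ≤ r) : cut ε r = 0 := by
  unfold cut
  have h : (1 + ε - r) / ε ≤ 0 := div_nonpos_of_nonpos_of_nonneg (by linarith) hε.le
  exact max_eq_left ((min_le_right _ _).trans h)

theorem cut_lipschitz {ε : ℝ} (hε : 0 < ε) : LipschitzWith (Real.toNNReal (1 / ε)) (cut ε) := by
  have h0 : LipschitzWith (Real.toNNReal (1 / ε)) (fun r : ℝ => (1 + ε - r) / ε) := by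
    apply LipschitzWith.of_dist_le_mul
    intro x y
    rw [Real.dist_eq, Real.dist_eq, Real.coe_toNNReal _ (by positivity)]
    have : (1 + ε - x) / ε - (1 + ε - y) / ε = (1 / ε) * (y - x) := by field_simp; ring
    rw [this, abs_mul, abs_of_pos (by positivity : 0 < 1 / ε), abs_sub_comm]
  exact (h0.const_min 1).const_max 0

end cut

section weight

variable {V : Type*} [NormedAddCommGroup V] [NormedSpace ℝ V]

/-- the weight -/
noncomputable def wt (ε : ℝ) (x : V) : ℝ := cut ε ‖x‖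

omit [NormedSpace ℝ V] in
theorem wt_lipschitz {ε : ℝ} (hε : 0 < ε) :
    LipschitzWith (Real.toNNReal (1 / ε)) (wt ε : V → ℝ) := by
  have := (cut_lipschitz hε).comp (lipschitzWith_one_norm (E := V))
  rw [mul_one] at this
  exact this

theorem wt_compact [FiniteDimensional ℝ V] {ε : ℝ} (hε : 0 < ε) : HasCompactSupport (wt ε : V → ℝ) := by
  apply HasCompactSupport.of_support_subset_isCompact (isCompact_closedBall (0 : V) (1 + ε))
  intro x hx
  by_contra h
  apply hx
  rw [mem_closedBall, dist_zero_right, not_le] at h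
  exact cut_of_ge hε h.le

theorem wt_fderiv_norm_le {ε : ℝ} (hε : 0 < ε) (x : V) :
    ‖fderiv ℝ (wt ε : V → ℝ) x‖ ≤ 1 / ε := by
  have := norm_fderiv_le_of_lipschitz ℝ (wt_lipschitz (V := V) hε) (x₀ := x)
  rwa [Real.coe_toNNReal _ (by positivity)] at this

theorem wt_fderiv_eq_zero {ε : ℝ} (hε : 0 < ε) (x : V) (hx : ‖x‖ < 1 ∨ 1 + ε < ‖x‖) :
    fderiv ℝ (wt ε : V → ℝ) x = 0 := by
  rcases hx with hx | hx
  · have : (wt ε : V → ℝ) =ᶠ[nhds x] fun _ => 1 := by
      filter_upwards [(isOpen_lt continuous_norm continuous_const).mem_nhds hx] with y hy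
      exact cut_of_le_one hε (le_of_lt hy)
    rw [this.fderiv_eq]; simp
  · have : (wt ε : V → ℝ) =ᶠ[nhds x] fun _ => 0 := by
      filter_upwards [(isOpen_lt continuous_const continuous_norm).mem_nhds hx] with y hy
      exact cut_of_ge hε (le_of_lt hy)
    rw [this.fderiv_eq]; simp

end weight

/-! ### The pairing inequality -/

section pairing

variable {V : Type*} [NormedAddCommGroup V] [NormedSpace ℂ V] {m k : ℕ}

theorem pairing_le (D : V →L[ℝ] ℝ) {d : ℝ} (hD : ‖D‖ ≤ d) (y : Fin k → Fin k → V)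
    (hy : ∀ ξ η : EuclideanSpace ℂ (Fin k),
      ‖∑ a, ∑ b, (conj (ξ a) * η b) • y a b‖ ≤ ‖ξ‖ * ‖η‖)
    (P Q : Fin k → EuclideanSpace ℂ (Fin m)) :
    ‖∑ a, ∑ b, (((D (y a b) : ℝ) : ℂ) - Complex.I * ((D (Complex.I • y a b) : ℝ) : ℂ)) *
      ⟪P a, Q b⟫_ℂ‖ ≤ d * (√(∑ a, ‖P a‖ ^ 2) * √(∑ b, ‖Q b‖ ^ 2)) := by
  have hd : 0 ≤ d := (norm_nonneg D).trans hD
  set φ : StrongDual ℂ V := StrongDual.extendRCLike (𝕜 := ℂ) D with hφ
  have hφa : ∀ v, (((D v : ℝ) : ℂ) - Complex.I * ((D (Complex.I • v) : ℝ) : ℂ)) = φ v := by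
    intro v
    rw [hφ, StrongDual.extendRCLike_apply]; rfl
  have hφn : ∀ v, ‖φ v‖ ≤ d * ‖v‖ := by
    intro v
    have := φ.le_opNorm v
    rw [hφ, StrongDual.norm_extendRCLike] at this
    exact this.trans (mul_le_mul_of_nonneg_right hD (norm_nonneg v))
  simp_rw [hφa]
  -- columns
  let p : Fin m → EuclideanSpace ℂ (Fin k) := fun j => WithLp.toLp 2 fun a => P a j
  let q : Fin m → EuclideanSpace ℂ (Fin k) := fun j => WithLp.toLp 2 fun a => Q a j
  have hsum : ∑ a, ∑ b, φ (y a b) * ⟪P a, Q b⟫_ℂ =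
      ∑ j, φ (∑ a, ∑ b, (conj (p j a) * q j b) • y a b) := by
    simp_rw [map_sum, map_smul, PiLp.inner_apply, smul_eq_mul, Finset.mul_sum]
    rw [Finset.sum_congr rfl fun a _ => Finset.sum_comm, Finset.sum_comm]
    refine Finset.sum_congr rfl fun j _ => Finset.sum_congr rfl fun a _ =>
      Finset.sum_congr rfl fun b _ => ?_
    simp only [p, q, RCLike.inner_apply]
    ring
  rw [hsum]
  have hp : ∑ j, ‖p j‖ ^ 2 = ∑ a, ‖P a‖ ^ 2 := by
    simp_rw [EuclideanSpace.norm_sq_eq, p]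
    exact Finset.sum_comm
  have hq : ∑ j, ‖q j‖ ^ 2 = ∑ a, ‖Q a‖ ^ 2 := by
    simp_rw [EuclideanSpace.norm_sq_eq, q]
    exact Finset.sum_comm
  calc ‖∑ j, φ (∑ a, ∑ b, (conj (p j a) * q j b) • y a b)‖
      ≤ ∑ j, ‖φ (∑ a, ∑ b, (conj (p j a) * q j b) • y a b)‖ := norm_sum_le _ _
    _ ≤ ∑ j, d * (‖p j‖ * ‖q j‖) := by
        refine Finset.sum_le_sum fun j _ => (hφn _).trans ?_
        exact mul_le_mul_of_nonneg_left (hy _ _) hd
    _ = d * ∑ j, ‖p j‖ * ‖q j‖ := by rw [Finset.mul_sum]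
    _ ≤ d * (√(∑ j, ‖p j‖ ^ 2) * √(∑ j, ‖q j‖ ^ 2)) := by
        refine mul_le_mul_of_nonneg_left ?_ hd
        exact Real.sum_mul_le_sqrt_mul_sqrt _ _ _
    _ = _ := by rw [hp, hq]

end pairing

/-! ### The main computation -/

section main

variable {V : Type*} [NormedAddCommGroup V] [NormedSpace ℂ V]
  {A : Type*} [NormedRing A] [NormedAlgebra ℂ A] [StarRing A] [NormedStarGroup A] [StarModule ℂ A]

/-- `h(x) = B(x) B(x)^* B(x)` -/
noncomputable def hfun (B : V →L[ℂ] A) (x : V) : A := B x * star (B x) * B x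

theorem hfun_hasFDerivAt (B : V →L[ℂ] A) (x : V) :
    ∃ D : V →L[ℝ] A, HasFDerivAt (hfun B) D x ∧ ∀ v, D v =
      B v * star (B x) * B x + B x * star (B v) * B x + B x * star (B x) * B v := by
  let Br : V →L[ℝ] A := B.restrictScalars ℝ
  let Bs : V →L[ℝ] A := ((starL' ℝ : A ≃L[ℝ] A) : A →L[ℝ] A).comp Br
  have h1 : HasFDerivAt (fun y => Br y * Bs y * Br y) _ x :=
    ((Br.hasFDerivAt (x := x)).mul' (Bs.hasFDerivAt (x := x))).mul' (Br.hasFDerivAt (x := x))
  refine ⟨_, h1, fun v => ?_⟩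
  simp [Br, Bs]
  abel

theorem hfun_contDiff (B : V →L[ℂ] A) : ContDiff ℝ 1 (hfun B) := by
  let Br : V →L[ℝ] A := B.restrictScalars ℝ
  let Bs : V →L[ℝ] A := ((starL' ℝ : A ≃L[ℝ] A) : A →L[ℝ] A).comp Br
  exact (Br.contDiff.mul Bs.contDiff).mul Br.contDiff

theorem hfun_fderiv (B : V →L[ℂ] A) (x v : V) :
    fderiv ℝ (hfun B) x v =
      B v * star (B x) * B x + B x * star (B v) * B x + B x * star (B x) * B v := by
  obtain ⟨D, hD, hDv⟩ := hfun_hasFDerivAt B x
  rw [hD.fderiv, hDv]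

theorem hfun_dbar (B : V →L[ℂ] A) (x v : V) :
    fderiv ℝ (hfun B) x v - Complex.I • fderiv ℝ (hfun B) x (Complex.I • v) =
      (2 : ℂ) • (B v * star (B x) * B x + B x * star (B x) * B v) := by
  rw [hfun_fderiv, hfun_fderiv]
  simp only [map_smul, star_smul, smul_mul_assoc, mul_smul_comm, smul_add, smul_smul]
  simp only [RCLike.star_def, Complex.conj_I, mul_neg, Complex.I_mul_I, neg_neg, neg_smul, one_smul]
  rw [two_smul, two_smul]
  abel

variable [FiniteDimensional ℂ V] [MeasurableSpace V] [BorelSpace V] {μ : Measure V}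
  [μ.IsAddHaarMeasure]

theorem ibp_hfun (B : V →L[ℂ] A) (L : A →L[ℂ] ℂ) {C : NNReal} {f : V → ℝ}
    (hf : LipschitzWith C f) (hfc : HasCompactSupport f) (v : V) :
    ∫ x, (((lineDeriv ℝ f x v : ℝ) : ℂ) -
        Complex.I * ((lineDeriv ℝ f x (Complex.I • v) : ℝ) : ℂ)) * L (hfun B x) ∂μ =
      - 2 * ∫ x, (f x : ℂ) * L (B v * star (B x) * B x + B x * star (B x) * B v) ∂μ := by
  have hh := hfun_contDiff B
  have hg : ContDiff ℝ 1 (fun x => L (hfun B x)) := (L.restrictScalars ℝ).contDiff.comp hh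
  have hfd : ∀ x w, fderiv ℝ (fun x => L (hfun B x)) x w = L (fderiv ℝ (hfun B) x w) := by
    intro x w
    have := ((L.restrictScalars ℝ).hasFDerivAt.comp x
      ((hh.differentiable one_ne_zero) x).hasFDerivAt).fderiv
    exact congrArg (fun T => T w) this
  have hc : ∀ w, Continuous fun x => fderiv ℝ (fun x => L (hfun B x)) x w := fun w =>
    (hg.continuous_fderiv one_ne_zero).clm_apply continuous_const
  have e1 := ibp_complex (μ := μ) hf hfc hg v
  have e2 := ibp_complex (μ := μ) hf hfc hg (Complex.I • v)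
  have i1 := integrable_lineDeriv_mul (μ := μ) hf hfc hg.continuous v
  have i2 := integrable_lineDeriv_mul (μ := μ) hf hfc hg.continuous (Complex.I • v)
  have j1 := integrable_mul (μ := μ) hf.continuous hfc (hc v)
  have j2 := integrable_mul (μ := μ) hf.continuous hfc (hc (Complex.I • v))
  have lhs : ∫ x, (((lineDeriv ℝ f x v : ℝ) : ℂ) -
        Complex.I * ((lineDeriv ℝ f x (Complex.I • v) : ℝ) : ℂ)) * L (hfun B x) ∂μ =
      ∫ x, ((lineDeriv ℝ f x v : ℝ) : ℂ) * L (hfun B x) ∂μ -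
        Complex.I * ∫ x, ((lineDeriv ℝ f x (Complex.I • v) : ℝ) : ℂ) * L (hfun B x) ∂μ := by
    rw [← integral_const_mul, ← integral_sub i1 (i2.const_mul _)]
    congr 1
    ext x
    ring
  rw [lhs, e1, e2, ← integral_const_mul]
  have : ∀ x, (-2 : ℂ) * ((f x : ℂ) * L (B v * star (B x) * B x + B x * star (B x) * B v)) =
      - ((f x : ℂ) * fderiv ℝ (fun x => L (hfun B x)) x v) +
        Complex.I * ((f x : ℂ) * fderiv ℝ (fun x => L (hfun B x)) x (Complex.I • v)) := by
    intro x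
    have h := congrArg L (hfun_dbar B x v)
    rw [map_sub L, map_smul L, map_smul L, smul_eq_mul, smul_eq_mul] at h
    rw [hfd, hfd]
    linear_combination (f x : ℂ) * h
  simp_rw [this]
  have e3 : ∫ x, (- ((f x : ℂ) * fderiv ℝ (fun x => L (hfun B x)) x v) +
        Complex.I * ((f x : ℂ) * fderiv ℝ (fun x => L (hfun B x)) x (Complex.I • v))) ∂μ =
      (∫ x, - ((f x : ℂ) * fderiv ℝ (fun x => L (hfun B x)) x v) ∂μ) +
        ∫ x, Complex.I * ((f x : ℂ) * fderiv ℝ (fun x => L (hfun B x)) x (Complex.I • v)) ∂μ :=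
    integral_add j1.neg (j2.const_mul _)
  rw [e3, integral_neg, integral_const_mul]
  ring

end main

section ineq

variable {V : Type*} [NormedAddCommGroup V] [NormedSpace ℂ V] {m k : ℕ}

/-- `F(x) = ‖B(x)X‖² + ‖B(x)^*Y‖²` -/
noncomputable def Ffun (B : V →L[ℂ] (EuclideanSpace ℂ (Fin m) →L[ℂ] EuclideanSpace ℂ (Fin m)))
    (X Y : Fin k → EuclideanSpace ℂ (Fin m)) (x : V) : ℝ :=
  ∑ a, ‖B x (X a)‖ ^ 2 + ∑ a, ‖star (B x) (Y a)‖ ^ 2

variable (B : V →L[ℂ] (EuclideanSpace ℂ (Fin m) →L[ℂ] EuclideanSpace ℂ (Fin m)))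
  (X Y : Fin k → EuclideanSpace ℂ (Fin m))

theorem Ffun_nonneg (x : V) : 0 ≤ Ffun B X Y x := by
  unfold Ffun; positivity

theorem Ffun_continuous : Continuous (Ffun B X Y) := by
  unfold Ffun
  have h1 : Continuous fun x => B x := B.continuous
  have h2 : Continuous fun x => star (B x) :=
    (ContinuousLinearMap.adjoint (𝕜 := ℂ) (E := EuclideanSpace ℂ (Fin m))
      (F := EuclideanSpace ℂ (Fin m))).continuous.comp h1
  refine Continuous.add (continuous_finsetSum _ fun a _ => ?_)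
    (continuous_finsetSum _ fun a _ => ?_)
  · exact (h1.clm_apply continuous_const).norm.pow 2
  · exact (h2.clm_apply continuous_const).norm.pow 2

theorem Ffun_smul (s : ℝ) (x : V) : Ffun B X Y (s • x) = s ^ 2 * Ffun B X Y x := by
  unfold Ffun
  have h0 : s • x = (s : ℂ) • x := (Complex.coe_smul s x).symm
  have h1 : B (s • x) = (s : ℂ) • B x := by
    rw [h0, map_smul]
  have h2 : star (B (s • x)) = (s : ℂ) • star (B x) := by
    rw [h1, star_smul]; simp
  rw [h2, h1]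
  simp only [_root_.smul_apply, norm_smul, mul_pow, Complex.norm_real, Real.norm_eq_abs, sq_abs]
  rw [← Finset.mul_sum, ← Finset.mul_sum, mul_add]

/-- the functional `T ↦ ⟪u, T v⟫` -/
noncomputable def Lfun (u v : EuclideanSpace ℂ (Fin m)) :
    (EuclideanSpace ℂ (Fin m) →L[ℂ] EuclideanSpace ℂ (Fin m)) →L[ℂ] ℂ :=
  (innerSL ℂ u).comp (ContinuousLinearMap.apply ℂ (EuclideanSpace ℂ (Fin m)) v)

theorem Lfun_apply (u v : EuclideanSpace ℂ (Fin m))
    (T : EuclideanSpace ℂ (Fin m) →L[ℂ] EuclideanSpace ℂ (Fin m)) :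
    Lfun u v T = ⟪u, T v⟫_ℂ := rfl

variable {B X Y}

theorem sum_identity {y : Fin k → Fin k → V} {c : ℝ}
    (h1 : ∀ a, ∑ b, B (y a b) (X b) = (c : ℂ) • Y a)
    (h2 : ∀ b, ∑ a, star (B (y a b)) (Y a) = (c : ℂ) • X b) (x : V) :
    ∑ a, ∑ b, Lfun (Y a) (X b) (B (y a b) * star (B x) * B x + B x * star (B x) * B (y a b)) =
      ((c * Ffun B X Y x : ℝ) : ℂ) := by
  simp_rw [map_add, Finset.sum_add_distrib, Lfun_apply]
  have e1 : ∑ a, ∑ b, ⟪Y a, (B (y a b) * star (B x) * B x) (X b)⟫_ℂ =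
      (c : ℂ) * ∑ b, ((‖B x (X b)‖ ^ 2 : ℝ) : ℂ) := by
    rw [Finset.sum_comm, Finset.mul_sum]
    refine Finset.sum_congr rfl fun b _ => ?_
    have : ∀ a, ⟪Y a, (B (y a b) * star (B x) * B x) (X b)⟫_ℂ =
        ⟪star (B (y a b)) (Y a), star (B x) (B x (X b))⟫_ℂ := by
      intro a
      rw [ContinuousLinearMap.star_eq_adjoint (B (y a b)), ContinuousLinearMap.adjoint_inner_left]
      rfl
    simp_rw [this]
    rw [← sum_inner, h2, inner_smul_left, ContinuousLinearMap.star_eq_adjoint,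
      ContinuousLinearMap.adjoint_inner_right, inner_self_eq_norm_sq_to_K]
    simp
  have e2 : ∑ a, ∑ b, ⟪Y a, (B x * star (B x) * B (y a b)) (X b)⟫_ℂ =
      (c : ℂ) * ∑ a, ((‖star (B x) (Y a)‖ ^ 2 : ℝ) : ℂ) := by
    rw [Finset.mul_sum]
    refine Finset.sum_congr rfl fun a _ => ?_
    have : ∀ b, ⟪Y a, (B x * star (B x) * B (y a b)) (X b)⟫_ℂ =
        ⟪B x (star (B x) (Y a)), B (y a b) (X b)⟫_ℂ := by
      intro b
      have e : ⟪Y a, (B x * star (B x) * B (y a b)) (X b)⟫_ℂ =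
        ⟪Y a, B x (star (B x) (B (y a b) (X b)))⟫_ℂ := rfl
      rw [e, ContinuousLinearMap.star_eq_adjoint, ← ContinuousLinearMap.adjoint_inner_left,
        ContinuousLinearMap.adjoint_inner_right]
    simp_rw [this]
    rw [← inner_sum, h1, inner_smul_right]
    have e' : ⟪B x (star (B x) (Y a)), Y a⟫_ℂ = ⟪star (B x) (Y a), star (B x) (Y a)⟫_ℂ := by
      rw [ContinuousLinearMap.star_eq_adjoint, ContinuousLinearMap.adjoint_inner_right]
    rw [e', inner_self_eq_norm_sq_to_K]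
    simp
  rw [e1, e2, Ffun]
  push_cast
  ring

theorem pointwise_bound {y : Fin k → Fin k → V} (hB : ∀ x, ‖B x‖ ≤ ‖x‖)
    (hy : ∀ ξ η : EuclideanSpace ℂ (Fin k),
      ‖∑ a, ∑ b, (conj (ξ a) * η b) • y a b‖ ≤ ‖ξ‖ * ‖η‖)
    {ε : ℝ} (hε : 0 < ε) (x : V) (hx : ‖x‖ ≤ 1 + ε) (D : V →L[ℝ] ℝ) (hD : ‖D‖ ≤ 1 / ε) :
    ‖∑ a, ∑ b, (((D (y a b) : ℝ) : ℂ) - Complex.I * ((D (Complex.I • y a b) : ℝ) : ℂ)) *
      Lfun (Y a) (X b) (hfun B x)‖ ≤ (1 + ε) / (2 * ε) * Ffun B X Y x := by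
  have e : ∀ a b, Lfun (Y a) (X b) (hfun B x) =
      ⟪star (B x) (Y a), star (B x) (B x (X b))⟫_ℂ := by
    intro a b
    have : Lfun (Y a) (X b) (hfun B x) = ⟪Y a, B x (star (B x) (B x (X b)))⟫_ℂ := rfl
    rw [this, ContinuousLinearMap.star_eq_adjoint, ← ContinuousLinearMap.adjoint_inner_left]
  simp_rw [e]
  have h1 := pairing_le D hD y hy (fun a => star (B x) (Y a)) (fun b => star (B x) (B x (X b)))
  refine h1.trans ?_
  set p := ∑ a, ‖star (B x) (Y a)‖ ^ 2 with hp
  set q := ∑ b, ‖B x (X b)‖ ^ 2 with hq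
  have hp0 : 0 ≤ p := by positivity
  have hq0 : 0 ≤ q := by positivity
  have h2 : ∑ b, ‖star (B x) (B x (X b))‖ ^ 2 ≤ (1 + ε) ^ 2 * q := by
    rw [hq, Finset.mul_sum]
    refine Finset.sum_le_sum fun b _ => ?_
    rw [← mul_pow]
    refine pow_le_pow_left₀ (norm_nonneg _) ?_ 2
    refine ((star (B x)).le_opNorm _).trans ?_
    have hn : ‖star (B x)‖ = ‖B x‖ :=
      (ContinuousLinearMap.adjoint (𝕜 := ℂ) (E := EuclideanSpace ℂ (Fin m))
        (F := EuclideanSpace ℂ (Fin m))).norm_map (B x)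
    rw [hn]
    exact mul_le_mul_of_nonneg_right ((hB x).trans hx) (norm_nonneg _)
  have h3 : √(∑ b, ‖star (B x) (B x (X b))‖ ^ 2) ≤ (1 + ε) * √q := by
    refine (Real.sqrt_le_sqrt h2).trans ?_
    rw [Real.sqrt_mul (by positivity), Real.sqrt_sq (by positivity)]
  have h4 : √p * √q ≤ (q + p) / 2 := by
    have := two_mul_le_add_sq (√p) (√q)
    rw [Real.sq_sqrt hp0, Real.sq_sqrt hq0] at this
    linarith
  have hF : Ffun B X Y x = q + p := rfl
  rw [hF]
  calc 1 / ε * (√p * √(∑ b, ‖star (B x) (B x (X b))‖ ^ 2))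
      ≤ 1 / ε * (√p * ((1 + ε) * √q)) := by gcongr
    _ = (1 + ε) / ε * (√p * √q) := by ring
    _ ≤ (1 + ε) / ε * ((q + p) / 2) := by gcongr
    _ = _ := by field_simp

variable [FiniteDimensional ℂ V] [MeasurableSpace V] [BorelSpace V] (μ : Measure V)
  [μ.IsAddHaarMeasure]

theorem main_ineq {y : Fin k → Fin k → V} (hB : ∀ x, ‖B x‖ ≤ ‖x‖)
    (hy : ∀ ξ η : EuclideanSpace ℂ (Fin k),
      ‖∑ a, ∑ b, (conj (ξ a) * η b) • y a b‖ ≤ ‖ξ‖ * ‖η‖) {c : ℝ} (hc : 0 ≤ c)
    (h1 : ∀ a, ∑ b, B (y a b) (X b) = (c : ℂ) • Y a)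
    (h2 : ∀ b, ∑ a, star (B (y a b)) (Y a) = (c : ℂ) • X b) {ε : ℝ} (hε : 0 < ε) :
    2 * c * ∫ x in closedBall (0 : V) 1, Ffun B X Y x ∂μ ≤
      (1 + ε) / (2 * ε) * ((1 + ε) ^ (2 * Module.finrank ℂ V + 2) - 1) *
        ∫ x in closedBall (0 : V) 1, Ffun B X Y x ∂μ := by
  set F := Ffun B X Y with hF
  have hFc : Continuous F := Ffun_continuous B X Y
  have hF0 : ∀ x, 0 ≤ F x := Ffun_nonneg B X Y
  have hw := wt_lipschitz (V := V) hε
  have hwc := wt_compact (V := V) hε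
  set f : V → ℝ := wt ε with hf
  have hf0 : ∀ x, 0 ≤ f x := fun x => cut_nonneg _ _
  -- the summed identity
  have hS : ∫ x, ∑ a, ∑ b, (((lineDeriv ℝ f x (y a b) : ℝ) : ℂ) -
      Complex.I * ((lineDeriv ℝ f x (Complex.I • y a b) : ℝ) : ℂ)) *
        Lfun (Y a) (X b) (hfun B x) ∂μ = - 2 * ∫ x, ((f x * (c * F x) : ℝ) : ℂ) ∂μ := by
    have hi : ∀ a b, Integrable (fun x => (((lineDeriv ℝ f x (y a b) : ℝ) : ℂ) -
        Complex.I * ((lineDeriv ℝ f x (Complex.I • y a b) : ℝ) : ℂ)) *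
          Lfun (Y a) (X b) (hfun B x)) μ := by
      intro a b
      have hg : Continuous (fun x => Lfun (Y a) (X b) (hfun B x)) :=
        (Lfun (Y a) (X b)).continuous.comp (hfun_contDiff B).continuous
      have i1 := integrable_lineDeriv_mul (μ := μ) hw hwc hg (y a b)
      have i2 := integrable_lineDeriv_mul (μ := μ) hw hwc hg (Complex.I • y a b)
      refine (i1.sub (i2.const_mul Complex.I)).congr (Filter.Eventually.of_forall fun x => ?_)
      simp only [Pi.sub_apply]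
      ring
    rw [integral_finsetSum _ fun a _ => integrable_finsetSum _ fun b _ => hi a b]
    have : ∀ a, ∫ x, ∑ b, (((lineDeriv ℝ f x (y a b) : ℝ) : ℂ) -
        Complex.I * ((lineDeriv ℝ f x (Complex.I • y a b) : ℝ) : ℂ)) *
          Lfun (Y a) (X b) (hfun B x) ∂μ = ∑ b, ∫ x, (((lineDeriv ℝ f x (y a b) : ℝ) : ℂ) -
        Complex.I * ((lineDeriv ℝ f x (Complex.I • y a b) : ℝ) : ℂ)) *
          Lfun (Y a) (X b) (hfun B x) ∂μ := fun a =>
      integral_finsetSum _ fun b _ => hi a b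
    simp_rw [this, ibp_hfun B _ hw hwc]
    rw [← Finset.sum_congr rfl fun a _ => Finset.mul_sum _ _ _, ← Finset.mul_sum]
    congr 1
    have hj : ∀ a b, Integrable (fun x => (f x : ℂ) * Lfun (Y a) (X b)
        (B (y a b) * star (B x) * B x + B x * star (B x) * B (y a b))) μ := by
      intro a b
      apply integrable_mul hw.continuous hwc
      have hBs : Continuous fun x => star (B x) :=
        (ContinuousLinearMap.adjoint (𝕜 := ℂ) (E := EuclideanSpace ℂ (Fin m))
          (F := EuclideanSpace ℂ (Fin m))).continuous.comp B.continuous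
      exact (Lfun (Y a) (X b)).continuous.comp
        (((continuous_const.mul hBs).mul B.continuous).add
          ((B.continuous.mul hBs).mul continuous_const))
    rw [← Finset.sum_congr rfl fun a _ => integral_finsetSum _ fun b _ => hj a b,
      ← integral_finsetSum _ fun a _ => integrable_finsetSum _ fun b _ => hj a b]
    refine integral_congr_ae (Filter.Eventually.of_forall fun x => ?_)
    simp only
    rw [Complex.ofReal_mul, ← sum_identity h1 h2 x, Finset.mul_sum]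
    refine Finset.sum_congr rfl fun a _ => ?_
    rw [Finset.mul_sum]
  have hnorm : 2 * ∫ x, f x * (c * F x) ∂μ ≤
      ∫ x in closedBall (0 : V) (1 + ε) \ closedBall (0 : V) 1, (1 + ε) / (2 * ε) * F x ∂μ := by
    have e0 : 0 ≤ ∫ x, f x * (c * F x) ∂μ :=
      integral_nonneg fun x => mul_nonneg (hf0 x) (mul_nonneg hc (hF0 x))
    have e1 : 2 * ∫ x, f x * (c * F x) ∂μ = ‖- 2 * ∫ x, ((f x * (c * F x) : ℝ) : ℂ) ∂μ‖ := by
      have e2 : ∫ x, ((f x * (c * F x) : ℝ) : ℂ) ∂μ =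
        ((∫ x, f x * (c * F x) ∂μ : ℝ) : ℂ) := integral_complex_ofReal
      rw [e2, norm_mul, norm_neg, RCLike.norm_ofNat]
      congr 1
      rw [Complex.norm_real, Real.norm_eq_abs, abs_of_nonneg e0]
    rw [e1, ← hS]
    have hms : MeasurableSet (closedBall (0 : V) (1 + ε) \ closedBall (0 : V) 1) :=
      measurableSet_closedBall.diff measurableSet_closedBall
    rw [← integral_indicator hms]
    refine norm_integral_le_of_norm_le ?_ ?_
    · rw [integrable_indicator_iff hms]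
      apply IntegrableOn.mono_set _ Set.sdiff_subset
      exact (continuous_const.mul hFc).continuousOn.integrableOn_compact
        (isCompact_closedBall _ _)
    · have hsph : ∀ᵐ x ∂μ, x ∉ sphere (0 : V) 1 := by
        rw [ae_iff]
        have := Measure.addHaar_sphere_of_ne_zero μ (0 : V) one_ne_zero
        simpa only [not_not, Set.ofPred_mem_eq] using this
      filter_upwards [hw.ae_differentiableAt (μ := μ), hsph] with x hx hxs
      have hl : ∀ v, lineDeriv ℝ f x v = fderiv ℝ f x v := fun v => hx.lineDeriv_eq_fderiv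
      simp_rw [hl]
      by_cases hxm : x ∈ closedBall (0 : V) (1 + ε) \ closedBall (0 : V) 1
      · rw [Set.indicator_of_mem hxm]
        refine pointwise_bound hB hy hε x ?_ _ (wt_fderiv_norm_le hε x)
        simpa using hxm.1
      · rw [Set.indicator_of_notMem hxm]
        have hz : fderiv ℝ f x = 0 := by
          apply wt_fderiv_eq_zero hε
          by_contra hcon
          rw [not_or, not_lt, not_lt] at hcon
          apply hxm
          refine ⟨by simpa using hcon.2, ?_⟩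
          intro h3
          rw [mem_closedBall, dist_zero_right] at h3
          exact hxs (by simpa using le_antisymm h3 hcon.1)
        rw [hz]
        simp
  have hFi : ∀ r : ℝ, IntegrableOn F (closedBall (0 : V) r) μ := fun r =>
    hFc.continuousOn.integrableOn_compact (isCompact_closedBall _ _)
  have hleft : ∫ x in closedBall (0 : V) 1, c * F x ∂μ ≤ ∫ x, f x * (c * F x) ∂μ := by
    have : ∫ x in closedBall (0 : V) 1, c * F x ∂μ =
        ∫ x in closedBall (0 : V) 1, f x * (c * F x) ∂μ := by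
      refine setIntegral_congr_fun measurableSet_closedBall fun x hx => ?_
      have : f x = 1 := cut_of_le_one hε (by simpa using hx)
      simp only [this, one_mul]
    rw [this]
    refine setIntegral_le_integral ?_ (Filter.Eventually.of_forall fun x =>
      mul_nonneg (hf0 x) (mul_nonneg hc (hF0 x)))
    apply Continuous.integrable_of_hasCompactSupport
    · exact hw.continuous.mul (continuous_const.mul hFc)
    · exact hwc.mul_right
  have hsc := scaling (μ := μ) (F := F) (fun s x => Ffun_smul B X Y s x)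
    (show (0 : ℝ) < 1 + ε by linarith)
  have hright : ∫ x in closedBall (0 : V) (1 + ε) \ closedBall (0 : V) 1,
      (1 + ε) / (2 * ε) * F x ∂μ = (1 + ε) / (2 * ε) * ((1 + ε) ^ (2 * Module.finrank ℂ V + 2) - 1) *
        ∫ x in closedBall (0 : V) 1, F x ∂μ := by
    rw [integral_const_mul, setIntegral_sdiff measurableSet_closedBall (hFi _)
      (closedBall_subset_closedBall (by linarith)), hsc, finrank_real_of_complex]
    ring
  rw [integral_const_mul] at hleft
  rw [hright] at hnorm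
  linarith

theorem tendsto_factor (N : ℕ) :
    Filter.Tendsto (fun ε : ℝ => (1 + ε) / (2 * ε) * ((1 + ε) ^ N - 1))
      (nhdsWithin 0 (Set.Ioi 0)) (nhds ((N : ℝ) / 2)) := by
  have h : HasDerivAt (fun t : ℝ => t ^ N) ((N : ℝ) * 1 ^ (N - 1)) 1 := hasDerivAt_pow N 1
  have h1 := h.tendsto_slope_zero_right
  simp only [one_pow, mul_one, smul_eq_mul] at h1
  have h2 : Filter.Tendsto (fun ε : ℝ => (1 + ε) / 2) (nhdsWithin 0 (Set.Ioi 0))
      (nhds ((1 + 0) / 2)) := by
    apply Filter.Tendsto.mono_left _ nhdsWithin_le_nhds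
    exact (continuous_const.add continuous_id).div_const 2 |>.tendsto 0
  have h3 := h2.mul h1
  have e : ((1 + 0 : ℝ) / 2) * (N : ℝ) = (N : ℝ) / 2 := by ring
  rw [e] at h3
  refine h3.congr' ?_
  filter_upwards [self_mem_nhdsWithin] with ε hε
  have : (ε : ℝ) ≠ 0 := ne_of_gt hε
  field_simp

omit [MeasurableSpace V] [BorelSpace V] in
theorem main_bound {y : Fin k → Fin k → V} (hB : ∀ x, ‖B x‖ ≤ ‖x‖)
    (hy : ∀ ξ η : EuclideanSpace ℂ (Fin k),
      ‖∑ a, ∑ b, (conj (ξ a) * η b) • y a b‖ ≤ ‖ξ‖ * ‖η‖) {c : ℝ} (hc : 0 ≤ c)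
    (h1 : ∀ a, ∑ b, B (y a b) (X b) = (c : ℂ) • Y a)
    (h2 : ∀ b, ∑ a, star (B (y a b)) (Y a) = (c : ℂ) • X b) :
    (∀ x, Ffun B X Y x = 0) ∨ c ≤ ((Module.finrank ℂ V : ℝ) + 1) / 2 := by
  let _ : MeasurableSpace V := borel V
  have : BorelSpace V := ⟨rfl⟩
  have hprop : ProperSpace V := FiniteDimensional.proper ℂ V
  let μ : Measure V := Measure.addHaar
  by_cases hF : ∀ x, Ffun B X Y x = 0
  · exact Or.inl hF
  right
  push Not at hF
  obtain ⟨x0, hx0⟩ := hF
  have hpos : 0 < ∫ x in closedBall (0 : V) 1, Ffun B X Y x ∂μ := by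
    rw [setIntegral_pos_iff_support_of_nonneg_ae
      (Filter.Eventually.of_forall fun x => Ffun_nonneg B X Y x)
      ((Ffun_continuous B X Y).continuousOn.integrableOn_compact
        (isCompact_closedBall _ _))]
    have hopen : IsOpen (Function.support (Ffun B X Y) ∩ ball (0 : V) 1) :=
      ((Ffun_continuous B X Y).isOpen_support).inter isOpen_ball
    have hne : (Function.support (Ffun B X Y) ∩ ball (0 : V) 1).Nonempty := by
      have hpos' : 0 < ‖x0‖ + 1 := by positivity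
      refine ⟨(1 / (‖x0‖ + 1)) • x0, ?_, ?_⟩
      · rw [Function.mem_support, Ffun_smul]
        exact mul_ne_zero (by positivity) hx0
      · rw [mem_ball, dist_zero_right, norm_smul, Real.norm_eq_abs,
          abs_of_pos (by positivity), one_div, inv_mul_lt_iff₀ hpos']
        linarith
    exact lt_of_lt_of_le (hopen.measure_pos μ hne)
      (measure_mono (Set.inter_subset_inter_right _ ball_subset_closedBall))
  have key : ∀ ε : ℝ, 0 < ε → 2 * c ≤ (1 + ε) / (2 * ε) *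
      ((1 + ε) ^ (2 * Module.finrank ℂ V + 2) - 1) := by
    intro ε hε
    have := main_ineq μ hB hy hc h1 h2 hε
    exact le_of_mul_le_mul_right this hpos
  have hlim := tendsto_factor (2 * Module.finrank ℂ V + 2)
  have h3 : 2 * c ≤ ((2 * Module.finrank ℂ V + 2 : ℕ) : ℝ) / 2 := by
    refine ge_of_tendsto hlim ?_
    filter_upwards [self_mem_nhdsWithin] with ε hε
    exact key ε hε
  push_cast at h3
  linarith

end ineq


end CbRank
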