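import Pool.Agent.CbRank.ConvHull

/-!
John's position (in the form of Kiefer and Wolfowitz) for a two-dimensional complex normed space.
-/

namespace CbRank

open Module Metric
open scoped ComplexConjugate

section one

variable {G : Type*} [NormedAddCommGroup G] [NormedSpace ℂ G]

/-- the point of `ℝ × ℝ × ℂ` attached to a functional -/
noncomputable def pt (b0 b1 : G) (φ : StrongDual ℂ G) : ℝ × ℝ × ℂ :=
  (‖φ b0‖ ^ 2, ‖φ b1‖ ^ 2, conj (φ b0) * φ b1)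

/-- determinant -/
noncomputable def dt (p : ℝ × ℝ × ℂ) : ℝ := p.1 * p.2.1 - ‖p.2.2‖ ^ 2

theorem dt_continuous : Continuous dt := by
  unfold dt; fun_prop

theorem pt_continuous (b0 b1 : G) : Continuous (pt b0 b1) := by
  unfold pt
  have h0 : Continuous fun φ : StrongDual ℂ G => φ b0 :=
    (ContinuousLinearMap.apply ℂ ℂ b0).continuous
  have h1 : Continuous fun φ : StrongDual ℂ G => φ b1 :=
    (ContinuousLinearMap.apply ℂ ℂ b1).continuous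
  exact (h0.norm.pow 2).prodMk ((h1.norm.pow 2).prodMk
    ((Complex.continuous_conj.comp h0).mul h1))

theorem dt_pt (b0 b1 : G) (φ : StrongDual ℂ G) : dt (pt b0 b1 φ) = 0 := by
  simp [dt, pt, mul_pow]

/-- the polar form of the determinant -/
noncomputable def lt (p q : ℝ × ℝ × ℂ) : ℝ :=
  p.1 * q.2.1 + p.2.1 * q.1 - 2 * (conj p.2.2 * q.2.2).re

theorem dt_comb (p q : ℝ × ℝ × ℂ) (τ : ℝ) :
    dt ((1 - τ) • p + τ • q) = (1 - τ) ^ 2 * dt p + τ * (1 - τ) * lt p q + τ ^ 2 * dt q := by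
  obtain ⟨s, t, z⟩ := p
  obtain ⟨s', t', z'⟩ := q
  simp only [dt, lt, Prod.smul_mk, Prod.mk_add_mk, smul_eq_mul, ← Complex.normSq_eq_norm_sq,
    Complex.normSq_apply, Complex.add_re, Complex.add_im, Complex.real_smul, Complex.mul_re,
    Complex.mul_im, Complex.ofReal_re, Complex.ofReal_im, Complex.conj_re, Complex.conj_im]
  ring

/-- The Kiefer–Wolfowitz optimality condition. -/
theorem exists_opt [FiniteDimensional ℂ G] (b : Basis (Fin 2) ℂ G) :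
    ∃ (m : ℝ × ℝ × ℂ) (ι : Type) (_ : Fintype ι) (w : ι → ℝ) (φ : ι → StrongDual ℂ G),
      0 < dt m ∧ (∀ i, 0 < w i) ∧ ∑ i, w i = 1 ∧ (∀ i, ‖φ i‖ ≤ 1) ∧
      ∑ i, w i • pt (b 0) (b 1) (φ i) = m ∧
      ∀ ψ : StrongDual ℂ G, ‖ψ‖ ≤ 1 → lt m (pt (b 0) (b 1) ψ) ≤ 2 * dt m := by
  have : ProperSpace (StrongDual ℂ G) := FiniteDimensional.proper ℂ _
  set K := pt (b 0) (b 1) '' closedBall (0 : StrongDual ℂ G) 1 with hK
  have hKc : IsCompact K := (isCompact_closedBall _ _).image (pt_continuous _ _)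
  have hC := isCompact_convexHull hKc
  have hmem : ∀ ψ : StrongDual ℂ G, ‖ψ‖ ≤ 1 → pt (b 0) (b 1) ψ ∈ K := fun ψ hψ =>
    ⟨ψ, by simpa using hψ, rfl⟩
  obtain ⟨m, hm, hmax⟩ := hC.exists_isMaxOn
    (⟨pt (b 0) (b 1) 0, subset_convexHull ℝ K (hmem 0 (by simp))⟩) dt_continuous.continuousOn
  have hpos : 0 < dt m := by
    let ψ0 : StrongDual ℂ G := LinearMap.toContinuousLinearMap (b.coord 0)
    let ψ1 : StrongDual ℂ G := LinearMap.toContinuousLinearMap (b.coord 1)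
    set r : ℝ := 1 / (‖ψ0‖ + ‖ψ1‖ + 1) with hr
    have hr0 : 0 < r := by positivity
    have hn0 : ‖(r : ℂ) • ψ0‖ ≤ 1 := by
      rw [norm_smul, Complex.norm_real, Real.norm_eq_abs, abs_of_pos hr0, hr, one_div,
        inv_mul_le_iff₀ (by positivity)]
      have := norm_nonneg ψ1
      linarith
    have hn1 : ‖(r : ℂ) • ψ1‖ ≤ 1 := by
      rw [norm_smul, Complex.norm_real, Real.norm_eq_abs, abs_of_pos hr0, hr, one_div,
        inv_mul_le_iff₀ (by positivity)]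
      have := norm_nonneg ψ0
      linarith
    have hcomb : (1 / 2 : ℝ) • pt (b 0) (b 1) ((r : ℂ) • ψ0) +
        (1 / 2 : ℝ) • pt (b 0) (b 1) ((r : ℂ) • ψ1) ∈ convexHull ℝ K :=
      (convex_convexHull ℝ K) (subset_convexHull ℝ K (hmem _ hn0))
        (subset_convexHull ℝ K (hmem _ hn1)) (by norm_num) (by norm_num) (by norm_num)
    have h1 := hmax hcomb
    refine lt_of_lt_of_le ?_ h1
    have e00 : ψ0 (b 0) = 1 := by simp [ψ0]
    have e01 : ψ0 (b 1) = 0 := by simp [ψ0]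
    have e10 : ψ1 (b 0) = 0 := by simp [ψ1]
    have e11 : ψ1 (b 1) = 1 := by simp [ψ1]
    have : dt ((1 / 2 : ℝ) • pt (b 0) (b 1) ((r : ℂ) • ψ0) +
        (1 / 2 : ℝ) • pt (b 0) (b 1) ((r : ℂ) • ψ1)) = r ^ 4 / 4 := by
      simp [pt, dt, e00, e01, e10, e11]
      ring
    change 0 < dt _
    rw [this]
    positivity
  obtain ⟨ι, _, z, w, hz, -, hw, hw1, hsum⟩ := eq_pos_convex_span_of_mem_convexHull hm
  have hz' : ∀ i, ∃ φ : StrongDual ℂ G, ‖φ‖ ≤ 1 ∧ pt (b 0) (b 1) φ = z i := by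
    intro i
    obtain ⟨φ, hφ, hφz⟩ := hz ⟨i, rfl⟩
    exact ⟨φ, by simpa using hφ, hφz⟩
  choose φ hφ hφz using hz'
  refine ⟨m, ι, inferInstance, w, φ, hpos, hw, hw1, hφ, ?_, ?_⟩
  · simp_rw [hφz]; exact hsum
  · intro ψ hψ
    set p := pt (b 0) (b 1) ψ with hp
    have hcomb : ∀ τ : ℝ, 0 < τ → τ < 1 →
        τ * (1 - τ) * lt m p ≤ (2 * τ - τ ^ 2) * dt m := by
      intro τ h0 h1
      have hc : (1 - τ) • m + τ • p ∈ convexHull ℝ K :=
        (convex_convexHull ℝ K) hm (subset_convexHull ℝ K (hmem _ hψ)) (by linarith) h0.le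
          (by ring)
      have h2 : dt ((1 - τ) • m + τ • p) ≤ dt m := hmax hc
      rw [dt_comb, hp, dt_pt] at h2
      nlinarith
    by_contra hcon
    push Not at hcon
    have hL : 0 < lt m p := by linarith
    set τ := (lt m p - 2 * dt m) / (2 * lt m p) with hτ
    have hτ0 : 0 < τ := div_pos (by linarith) (by linarith)
    have hτ1 : τ < 1 := by
      rw [hτ, div_lt_one (by linarith)]
      linarith
    have h3 := hcomb τ hτ0 hτ1
    have h4 : (1 - τ) * lt m p ≤ (2 - τ) * dt m := by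
      have : τ * ((1 - τ) * lt m p) ≤ τ * ((2 - τ) * dt m) := by nlinarith
      exact le_of_mul_le_mul_left this hτ0
    have h5 : (1 - τ) * lt m p = (lt m p + 2 * dt m) / 2 := by
      rw [hτ]; field_simp; ring
    nlinarith

end one

section two

variable {G : Type*} [NormedAddCommGroup G] [NormedSpace ℂ G] [FiniteDimensional ℂ G]

theorem lt_sum {ι : Type*} [Fintype ι] (m : ℝ × ℝ × ℂ) (w : ι → ℝ) (p : ι → ℝ × ℝ × ℂ) :
    lt m (∑ i, w i • p i) = ∑ i, w i * lt m (p i) := by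
  simp only [lt, Prod.fst_sum, Prod.snd_sum, Prod.smul_fst, Prod.smul_snd, smul_eq_mul,
    Complex.real_smul]
  rw [Finset.mul_sum, Finset.mul_sum, Finset.mul_sum, Complex.re_sum, Finset.mul_sum,
    ← Finset.sum_add_distrib, ← Finset.sum_sub_distrib]
  refine Finset.sum_congr rfl fun i _ => ?_
  have : (conj m.2.2 * ((w i : ℂ) * (p i).2.2)).re = w i * (conj m.2.2 * (p i).2.2).re := by
    rw [mul_left_comm, Complex.re_ofReal_mul]
  rw [this]; ring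

theorem lt_self (m : ℝ × ℝ × ℂ) : lt m m = 2 * dt m := by
  obtain ⟨s, t, z⟩ := m
  simp only [lt, dt, ← Complex.normSq_eq_norm_sq, Complex.normSq_apply, Complex.mul_re,
    Complex.conj_re, Complex.conj_im]
  ring

/-- Existence of an `ellipsoid of maximal volume` together with its contact points. -/
theorem exists_john (hG : finrank ℂ G = 2) :
    ∃ (e0 e1 : G) (ι : Type) (_ : Fintype ι) (c : ι → ℝ) (φ : ι → StrongDual ℂ G),
      (∀ i, 0 < c i) ∧ (∀ i, ‖φ i‖ ≤ 1) ∧ ∑ i, c i = 2 ∧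
      ∑ i, c i * ‖φ i e0‖ ^ 2 = 1 ∧ ∑ i, c i * ‖φ i e1‖ ^ 2 = 1 ∧
      ∑ i, (c i : ℂ) * (conj (φ i e0) * φ i e1) = 0 ∧
      ∀ ψ : StrongDual ℂ G, ‖ψ‖ ≤ 1 → ‖ψ e0‖ ^ 2 + ‖ψ e1‖ ^ 2 ≤ 1 := by
  let b : Basis (Fin 2) ℂ G := finBasisOfFinrankEq ℂ G hG
  obtain ⟨m, ι, _, w, φ, hd, hw, hw1, hφ, hm, hopt⟩ := exists_opt b
  obtain ⟨s0, t0, z0⟩ := m
  have hs : ∑ i, w i * ‖φ i (b 0)‖ ^ 2 = s0 := by
    have := congrArg Prod.fst hm
    simpa [Prod.fst_sum, pt] using this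
  have hz : ∑ i, (w i : ℂ) * (conj (φ i (b 0)) * φ i (b 1)) = z0 := by
    have := congrArg (fun p => p.2.2) hm
    simpa [Prod.snd_sum, pt] using this
  have hd' : dt (s0, t0, z0) = s0 * t0 - ‖z0‖ ^ 2 := rfl
  set d0 := dt (s0, t0, z0) with hd0
  have hs0 : 0 < s0 := by
    have h1 : 0 ≤ s0 := by
      rw [← hs]
      exact Finset.sum_nonneg fun i _ => mul_nonneg (hw i).le (by positivity)
    rcases h1.lt_or_eq with h | h
    · exact h
    · exfalso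
      rw [← h, zero_mul] at hd'
      have : 0 ≤ ‖z0‖ ^ 2 := by positivity
      linarith
  set A : ℝ := 1 / √(2 * s0) with hA
  set B : ℝ := √(s0 / (2 * d0)) with hB
  have hA2 : A ^ 2 = 1 / (2 * s0) := by
    rw [hA, div_pow, Real.sq_sqrt (by positivity), one_pow]
  have hB2 : B ^ 2 = s0 / (2 * d0) := Real.sq_sqrt (by positivity)
  let e0 : G := (A : ℂ) • b 0
  let e1 : G := (B : ℂ) • (b 1 - (z0 / s0) • b 0)
  have hψ0 : ∀ ψ : StrongDual ℂ G, ψ e0 = A * ψ (b 0) := fun ψ => by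
    simp [e0]
  have hψ1 : ∀ ψ : StrongDual ℂ G, ψ e1 = B * (ψ (b 1) - z0 / s0 * ψ (b 0)) := fun ψ => by
    simp [e1]
  have hn0 : ∀ ψ : StrongDual ℂ G, ‖ψ e0‖ ^ 2 = ‖ψ (b 0)‖ ^ 2 / (2 * s0) := fun ψ => by
    rw [hψ0, norm_mul, mul_pow, Complex.norm_real, Real.norm_eq_abs, sq_abs, hA2]
    ring
  have hkey : ∀ ψ : StrongDual ℂ G, ‖ψ e0‖ ^ 2 + ‖ψ e1‖ ^ 2 =
      lt (s0, t0, z0) (pt (b 0) (b 1) ψ) / (2 * d0) := fun ψ => by
    rw [hn0, hψ1, norm_mul, mul_pow, Complex.norm_real, Real.norm_eq_abs, sq_abs, hB2]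
    have h1 : ‖ψ (b 1) - z0 / s0 * ψ (b 0)‖ ^ 2 = ‖ψ (b 1)‖ ^ 2 +
        ‖z0‖ ^ 2 * ‖ψ (b 0)‖ ^ 2 / s0 ^ 2 -
          2 / s0 * (conj z0 * (conj (ψ (b 0)) * ψ (b 1))).re := by
      have h2 : z0 / (s0 : ℂ) = ((1 / s0 : ℝ) : ℂ) * z0 := by push_cast; ring
      rw [h2]
      simp only [← Complex.normSq_eq_norm_sq, Complex.normSq_apply, Complex.sub_re,
        Complex.sub_im, Complex.mul_re, Complex.mul_im, Complex.ofReal_re, Complex.ofReal_im,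
        Complex.conj_re, Complex.conj_im]
      field_simp
      ring
    rw [h1]
    simp only [lt, pt]
    have h3 : s0 * t0 = d0 + ‖z0‖ ^ 2 := by rw [hd']; ring
    have hd00 : d0 ≠ 0 := hd.ne'
    have hs00 : s0 ≠ 0 := hs0.ne'
    have h4 : t0 = (d0 + ‖z0‖ ^ 2) / s0 := by
      rw [← h3]; field_simp
    rw [h4]
    field_simp
    ring
  refine ⟨e0, e1, ι, inferInstance, fun i => 2 * w i, φ, fun i => by have := hw i; positivity,
    hφ, ?_, ?_, ?_, ?_, ?_⟩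
  · rw [← Finset.mul_sum, hw1, mul_one]
  · simp_rw [hn0]
    have : ∀ i, 2 * w i * (‖φ i (b 0)‖ ^ 2 / (2 * s0)) = (w i * ‖φ i (b 0)‖ ^ 2) / s0 := by
      intro i; field_simp
    simp_rw [this]
    rw [← Finset.sum_div, hs, div_self hs0.ne']
  · have h1 : ∑ i, 2 * w i * (‖φ i e0‖ ^ 2 + ‖φ i e1‖ ^ 2) = 2 := by
      simp_rw [hkey]
      have : ∀ i, 2 * w i * (lt (s0, t0, z0) (pt (b 0) (b 1) (φ i)) / (2 * d0)) =
          (w i * lt (s0, t0, z0) (pt (b 0) (b 1) (φ i))) / d0 := by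
        intro i; field_simp
      simp_rw [this]
      rw [← Finset.sum_div, ← lt_sum, hm, lt_self, mul_div_assoc, div_self hd.ne', mul_one]
    have h2 : ∑ i, 2 * w i * ‖φ i e0‖ ^ 2 = 1 := by
      simp_rw [hn0]
      have : ∀ i, 2 * w i * (‖φ i (b 0)‖ ^ 2 / (2 * s0)) = (w i * ‖φ i (b 0)‖ ^ 2) / s0 := by
        intro i; field_simp
      simp_rw [this]
      rw [← Finset.sum_div, hs, div_self hs0.ne']
    simp_rw [mul_add, Finset.sum_add_distrib] at h1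
    linarith
  · have : ∀ i, ((2 * w i : ℝ) : ℂ) * (conj (φ i e0) * φ i e1) =
        (2 * A * B : ℂ) * ((w i : ℂ) * (conj (φ i (b 0)) * φ i (b 1)) -
          z0 / s0 * ((w i * ‖φ i (b 0)‖ ^ 2 : ℝ) : ℂ)) := by
      intro i
      rw [hψ0, hψ1, ← Complex.normSq_eq_norm_sq]
      push_cast
      rw [← Complex.mul_conj]
      simp only [map_mul, Complex.conj_ofReal]
      ring
    simp_rw [this]
    rw [← Finset.mul_sum, Finset.sum_sub_distrib, hz, ← Finset.mul_sum, ← Complex.ofReal_sum, hs]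
    have : (s0 : ℂ) ≠ 0 := by exact_mod_cast hs0.ne'
    field_simp
    ring
  · intro ψ hψ
    rw [hkey, div_le_one (by positivity)]
    exact hopt ψ hψ

end two

section rot

variable {ι : Type*} [Fintype ι]

theorem exists_rot (c : ι → ℝ) (α β : ι → ℂ) :
    ∃ x y : ℂ, ‖x‖ ^ 2 + ‖y‖ ^ 2 = 1 ∧ ∀ X Y : ℂ,
      ∑ i, c i * ‖X * (x * α i + y * β i) + Y * (-conj y * α i + conj x * β i)‖ ^ 4 ≤
        (‖X‖ ^ 2 + ‖Y‖ ^ 2) ^ 2 * ∑ i, c i * ‖x * α i + y * β i‖ ^ 4 := by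
  let S : Set (ℂ × ℂ) := {p | ‖p.1‖ ^ 2 + ‖p.2‖ ^ 2 = 1}
  have hS : IsCompact S := by
    apply Metric.isCompact_of_isClosed_isBounded
    · exact isClosed_eq (by fun_prop) continuous_const
    · apply (Metric.isBounded_closedBall (x := (0 : ℂ × ℂ)) (r := 1)).subset
      intro p hp
      have hp' : ‖p.1‖ ^ 2 + ‖p.2‖ ^ 2 = 1 := hp
      rw [mem_closedBall, dist_zero_right, Prod.norm_def]
      apply max_le
      · nlinarith [norm_nonneg p.1, sq_nonneg ‖p.2‖]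
      · nlinarith [norm_nonneg p.2, sq_nonneg ‖p.1‖]
  let Φ : ℂ × ℂ → ℝ := fun p => ∑ i, c i * ‖p.1 * α i + p.2 * β i‖ ^ 4
  have hΦ : Continuous Φ := by
    refine continuous_finsetSum _ fun i _ => ?_
    fun_prop
  obtain ⟨⟨x, y⟩, hxy, hmax⟩ := hS.exists_isMaxOn ⟨((1 : ℂ), (0 : ℂ)), by simp [S]⟩
    hΦ.continuousOn
  have hxy' : ‖x‖ ^ 2 + ‖y‖ ^ 2 = 1 := hxy
  refine ⟨x, y, hxy', fun X Y => ?_⟩
  have hiso : ‖X * x - Y * conj y‖ ^ 2 + ‖X * y + Y * conj x‖ ^ 2 = ‖X‖ ^ 2 + ‖Y‖ ^ 2 := by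
    have : ‖X * x - Y * conj y‖ ^ 2 + ‖X * y + Y * conj x‖ ^ 2 =
        (‖X‖ ^ 2 + ‖Y‖ ^ 2) * (‖x‖ ^ 2 + ‖y‖ ^ 2) := by
      simp only [← Complex.normSq_eq_norm_sq, Complex.normSq_apply, Complex.sub_re,
        Complex.sub_im, Complex.add_re, Complex.add_im, Complex.mul_re, Complex.mul_im,
        Complex.conj_re, Complex.conj_im]
      ring
    rw [this, hxy', mul_one]
  by_cases h0 : ‖X‖ ^ 2 + ‖Y‖ ^ 2 = 0
  · have hX : X = 0 := by
      have : ‖X‖ ^ 2 = 0 := by nlinarith [sq_nonneg ‖X‖, sq_nonneg ‖Y‖]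
      exact norm_eq_zero.mp (sq_eq_zero_iff.mp this)
    have hY : Y = 0 := by
      have : ‖Y‖ ^ 2 = 0 := by nlinarith [sq_nonneg ‖X‖, sq_nonneg ‖Y‖]
      exact norm_eq_zero.mp (sq_eq_zero_iff.mp this)
    simp [hX, hY]
  · have hpos : 0 < ‖X‖ ^ 2 + ‖Y‖ ^ 2 := lt_of_le_of_ne (by positivity) (Ne.symm h0)
    set r : ℝ := √(‖X‖ ^ 2 + ‖Y‖ ^ 2) with hr
    have hr0 : 0 < r := Real.sqrt_pos.mpr hpos
    have hr2 : r ^ 2 = ‖X‖ ^ 2 + ‖Y‖ ^ 2 := Real.sq_sqrt hpos.le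
    have hrc : (r : ℂ) ≠ 0 := by exact_mod_cast hr0.ne'
    have hmem : (((X * x - Y * conj y) / r, (X * y + Y * conj x) / r) : ℂ × ℂ) ∈ S := by
      change ‖(X * x - Y * conj y) / r‖ ^ 2 + ‖(X * y + Y * conj x) / r‖ ^ 2 = 1
      rw [norm_div, norm_div, div_pow, div_pow, ← add_div, hiso, Complex.norm_real,
        Real.norm_eq_abs, sq_abs, hr2, div_self h0]
    have h1 : Φ ((X * x - Y * conj y) / r, (X * y + Y * conj x) / r) ≤ Φ (x, y) := hmax hmem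
    have h2 : Φ ((X * x - Y * conj y) / r, (X * y + Y * conj x) / r) = (1 / r ^ 4) *
        ∑ i, c i * ‖X * (x * α i + y * β i) + Y * (-conj y * α i + conj x * β i)‖ ^ 4 := by
      rw [Finset.mul_sum]
      refine Finset.sum_congr rfl fun i _ => ?_
      have : (X * x - Y * conj y) / r * α i + (X * y + Y * conj x) / r * β i =
          (X * (x * α i + y * β i) + Y * (-conj y * α i + conj x * β i)) / r := by
        field_simp
        ring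
      simp only
      rw [this, norm_div, div_pow, Complex.norm_real, Real.norm_eq_abs, abs_of_pos hr0]
      ring
    rw [h2] at h1
    have h3 : (‖X‖ ^ 2 + ‖Y‖ ^ 2) ^ 2 = r ^ 4 := by rw [← hr2]; ring
    rw [h3]
    have h4 : 0 < r ^ 4 := by positivity
    rw [one_div, inv_mul_le_iff₀ h4] at h1
    exact h1

variable {c : ι → ℝ} {α β : ι → ℂ}

theorem first_order (hc : ∀ i, 0 ≤ c i)
    (hmax : ∀ X Y : ℂ, ∑ i, c i * ‖X * α i + Y * β i‖ ^ 4 ≤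
      (‖X‖ ^ 2 + ‖Y‖ ^ 2) ^ 2 * ∑ i, c i * ‖α i‖ ^ 4) :
    ∑ i, ((c i * ‖α i‖ ^ 2 : ℝ) : ℂ) * (conj (α i) * β i) = 0 := by
  set s := ∑ i, c i * ‖α i‖ ^ 4 with hs
  set D := ∑ i, ((c i * ‖α i‖ ^ 2 : ℝ) : ℂ) * (conj (α i) * β i) with hD
  have hs0 : 0 ≤ s := Finset.sum_nonneg fun i _ => mul_nonneg (hc i) (by positivity)
  have key : ∀ ε : ℝ, 0 < ε → 4 * ‖D‖ ^ 2 ≤ s * (2 * ε * ‖D‖ ^ 2 + ε ^ 3 * ‖D‖ ^ 4) := by
    intro ε hε
    have h1 := hmax 1 (ε * conj D)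
    have h2 : s + 4 * ε * ‖D‖ ^ 2 ≤ ∑ i, c i * ‖1 * α i + ε * conj D * β i‖ ^ 4 := by
      have h3 : 4 * ε * ‖D‖ ^ 2 =
          ∑ i, c i * (4 * ε * (‖α i‖ ^ 2 * (conj D * (conj (α i) * β i)).re)) := by
        have h4 : ‖D‖ ^ 2 = (conj D * D).re := by
          rw [← Complex.normSq_eq_norm_sq, mul_comm, Complex.mul_conj, Complex.ofReal_re]
        rw [h4]
        conv_lhs => rw [hD]
        rw [Finset.mul_sum, Complex.re_sum, Finset.mul_sum]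
        refine Finset.sum_congr rfl fun i _ => ?_
        have h5 : conj D * (((c i * ‖α i‖ ^ 2 : ℝ) : ℂ) * (conj (α i) * β i)) =
            ((c i * ‖α i‖ ^ 2 : ℝ) : ℂ) * (conj D * (conj (α i) * β i)) := by ring
        rw [← hD, h5, Complex.re_ofReal_mul]
        ring
      rw [h3, hs, ← Finset.sum_add_distrib]
      refine Finset.sum_le_sum fun i _ => ?_
      rw [← mul_add]
      refine mul_le_mul_of_nonneg_left ?_ (hc i)
      have h6 : ‖1 * α i + ε * conj D * β i‖ ^ 2 = ‖α i‖ ^ 2 + ε ^ 2 * ‖D‖ ^ 2 * ‖β i‖ ^ 2 +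
          2 * ε * (conj D * (conj (α i) * β i)).re := by
        simp only [← Complex.normSq_eq_norm_sq, Complex.normSq_apply, Complex.add_re,
          Complex.add_im, Complex.mul_re, Complex.mul_im, Complex.conj_re, Complex.conj_im,
          Complex.ofReal_re, Complex.ofReal_im, Complex.one_re, Complex.one_im]
        ring
      have h7 : ‖1 * α i + ε * conj D * β i‖ ^ 4 = (‖1 * α i + ε * conj D * β i‖ ^ 2) ^ 2 := by
        ring
      rw [h7, h6]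
      set u := (conj D * (conj (α i) * β i)).re
      nlinarith [sq_nonneg (ε ^ 2 * ‖D‖ ^ 2 * ‖β i‖ ^ 2 + 2 * ε * u),
        mul_nonneg (sq_nonneg ‖α i‖) (mul_nonneg (mul_nonneg (sq_nonneg ε) (sq_nonneg ‖D‖))
          (sq_nonneg ‖β i‖))]
    have h8 : ‖(1 : ℂ)‖ ^ 2 + ‖(ε : ℂ) * conj D‖ ^ 2 = 1 + ε ^ 2 * ‖D‖ ^ 2 := by
      rw [norm_mul, Complex.norm_real, Real.norm_eq_abs, mul_pow, sq_abs, RCLike.norm_conj]
      simp
    rw [h8] at h1
    have h9 : 4 * ε * ‖D‖ ^ 2 ≤ ε * (s * (2 * ε * ‖D‖ ^ 2 + ε ^ 3 * ‖D‖ ^ 4)) := by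
      nlinarith
    have h10 : ε * (4 * ‖D‖ ^ 2) ≤ ε * (s * (2 * ε * ‖D‖ ^ 2 + ε ^ 3 * ‖D‖ ^ 4)) := by
      linarith
    exact le_of_mul_le_mul_left h10 hε
  by_contra hne
  have hDp : 0 < ‖D‖ := norm_pos_iff.mpr hne
  set E := ‖D‖ ^ 2 with hE
  have hEp : 0 < E := by positivity
  have hkey' := key (1 / (s * (2 + E) + 1)) (by positivity)
  set ε := 1 / (s * (2 + E) + 1) with hε
  have hε0 : 0 < ε := by positivity
  have hε1 : ε ≤ 1 := by
    rw [hε, div_le_one (by positivity)]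
    nlinarith [mul_nonneg hs0 (by positivity : 0 ≤ 2 + E)]
  have h11 : ‖D‖ ^ 4 = E ^ 2 := by rw [hE]; ring
  rw [h11] at hkey'
  have h12 : 4 ≤ s * (2 * ε + ε ^ 3 * E) := by
    have : E * 4 ≤ E * (s * (2 * ε + ε ^ 3 * E)) := by nlinarith
    exact le_of_mul_le_mul_left this hEp
  have h13 : ε ^ 3 ≤ ε := by
    have : ε ^ 2 ≤ 1 := by nlinarith
    nlinarith
  have h14 : s * (2 * ε + ε ^ 3 * E) ≤ s * (2 + E) * ε := by
    have : 2 * ε + ε ^ 3 * E ≤ (2 + E) * ε := by nlinarith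
    nlinarith
  have h15 : s * (2 + E) * ε ≤ 1 := by
    rw [hε, mul_one_div, div_le_one (by positivity)]
    linarith
  linarith

theorem second_order (h1 : ∀ i, ‖α i‖ ^ 2 + ‖β i‖ ^ 2 = 1) (ha : ∑ i, c i * ‖α i‖ ^ 2 = 1)
    (hb : ∑ i, c i * ‖β i‖ ^ 2 = 1) (hab : ∑ i, (c i : ℂ) * (conj (α i) * β i) = 0)
    (hmax : ∀ X Y : ℂ, ∑ i, c i * ‖X * α i + Y * β i‖ ^ 4 ≤
      (‖X‖ ^ 2 + ‖Y‖ ^ 2) ^ 2 * ∑ i, c i * ‖α i‖ ^ 4) :
    ‖∑ i, (c i : ℂ) * (conj (α i) * β i) ^ 2‖ ≤ 3 * ∑ i, c i * ‖α i‖ ^ 4 - 2 := by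
  set s := ∑ i, c i * ‖α i‖ ^ 4 with hs
  set D := ∑ i, (c i : ℂ) * (conj (α i) * β i) ^ 2 with hD
  -- choose a phase
  obtain ⟨η, hη, hηD⟩ : ∃ η : ℂ, ‖η‖ = 1 ∧ (η ^ 2 * D).re = ‖D‖ := by
    by_cases h0 : D = 0
    · exact ⟨1, by simp, by simp [h0]⟩
    · have hDn : (‖D‖ : ℂ) ≠ 0 := by exact_mod_cast (norm_pos_iff.mpr h0).ne'
      obtain ⟨η, hη⟩ := IsAlgClosed.exists_pow_nat_eq (conj D / ‖D‖) (n := 2) (by norm_num)
      refine ⟨η, ?_, ?_⟩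
      · have : ‖η‖ ^ 2 = 1 := by
          rw [← norm_pow, hη, norm_div, RCLike.norm_conj, Complex.norm_real, norm_norm,
            div_self (norm_pos_iff.mpr h0).ne']
        nlinarith [norm_nonneg η]
      · rw [hη, div_mul_eq_mul_div, mul_comm (conj D) D, Complex.mul_conj,
          Complex.normSq_eq_norm_sq]
        have : ((‖D‖ ^ 2 : ℝ) : ℂ) / (‖D‖ : ℂ) = ((‖D‖ : ℝ) : ℂ) := by
          push_cast
          field_simp
        rw [this, Complex.ofReal_re]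
  have h2 := hmax 1 η
  rw [hη] at h2
  have h3 : ∀ i, ‖1 * α i + η * β i‖ ^ 4 = 1 + 4 * (η * (conj (α i) * β i)).re +
      2 * (‖α i‖ ^ 2 * ‖β i‖ ^ 2) + 2 * (η ^ 2 * (conj (α i) * β i) ^ 2).re := by
    intro i
    have hn : ‖1 * α i + η * β i‖ ^ 2 = 1 + 2 * (η * (conj (α i) * β i)).re := by
      have e : ‖1 * α i + η * β i‖ ^ 2 = ‖α i‖ ^ 2 + ‖η‖ ^ 2 * ‖β i‖ ^ 2 +
          2 * (η * (conj (α i) * β i)).re := by
        simp only [← Complex.normSq_eq_norm_sq, Complex.normSq_apply, Complex.add_re,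
          Complex.add_im, Complex.mul_re, Complex.mul_im, Complex.conj_re, Complex.conj_im,
          Complex.one_re, Complex.one_im]
        ring
      rw [e, hη, one_pow, one_mul, h1]
    have e4 : ‖1 * α i + η * β i‖ ^ 4 = (‖1 * α i + η * β i‖ ^ 2) ^ 2 := by ring
    rw [e4, hn]
    have hsq : (η * (conj (α i) * β i)).re ^ 2 = (‖α i‖ ^ 2 * ‖β i‖ ^ 2 +
        (η ^ 2 * (conj (α i) * β i) ^ 2).re) / 2 := by
      have h5 : ∀ z : ℂ, z.re ^ 2 = (‖z‖ ^ 2 + (z ^ 2).re) / 2 := by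
        intro z
        rw [← Complex.normSq_eq_norm_sq, Complex.normSq_apply, pow_two z, Complex.mul_re]
        ring
      rw [h5, norm_mul, norm_mul, RCLike.norm_conj, hη, one_mul, mul_pow, mul_pow]
    nlinarith [hsq]
  have h4 : ∑ i, c i * ‖1 * α i + η * β i‖ ^ 4 = 2 + 2 * (1 - s) + 2 * ‖D‖ := by
    simp_rw [h3, mul_add, Finset.sum_add_distrib]
    have e1 : ∑ i, c i * 1 = 2 := by
      have : ∀ i, c i * 1 = c i * ‖α i‖ ^ 2 + c i * ‖β i‖ ^ 2 := fun i => by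
        rw [← mul_add, h1]
      simp_rw [this, Finset.sum_add_distrib, ha, hb]
      norm_num
    have e2 : ∑ i, c i * (4 * (η * (conj (α i) * β i)).re) = 0 := by
      have : ∀ i, c i * (4 * (η * (conj (α i) * β i)).re) =
          (4 * η * ((c i : ℂ) * (conj (α i) * β i))).re := by
        intro i
        have : 4 * η * ((c i : ℂ) * (conj (α i) * β i)) =
            ((4 * c i : ℝ) : ℂ) * (η * (conj (α i) * β i)) := by push_cast; ring
        rw [this, Complex.re_ofReal_mul]; ring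
      simp_rw [this]
      rw [← Complex.re_sum, ← Finset.mul_sum, hab, mul_zero, Complex.zero_re]
    have e3 : ∑ i, c i * (2 * (‖α i‖ ^ 2 * ‖β i‖ ^ 2)) = 2 * (1 - s) := by
      have : ∀ i, c i * (2 * (‖α i‖ ^ 2 * ‖β i‖ ^ 2)) =
          2 * (c i * ‖α i‖ ^ 2) - 2 * (c i * ‖α i‖ ^ 4) := by
        intro i
        have h6 : ‖β i‖ ^ 2 = 1 - ‖α i‖ ^ 2 := by have := h1 i; linarith
        rw [h6]; ring
      simp_rw [this]
      rw [Finset.sum_sub_distrib, ← Finset.mul_sum, ← Finset.mul_sum, ha]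
      ring
    have e4 : ∑ i, c i * (2 * (η ^ 2 * (conj (α i) * β i) ^ 2).re) = 2 * ‖D‖ := by
      have : ∀ i, c i * (2 * (η ^ 2 * (conj (α i) * β i) ^ 2).re) =
          2 * (η ^ 2 * ((c i : ℂ) * (conj (α i) * β i) ^ 2)).re := by
        intro i
        have : η ^ 2 * ((c i : ℂ) * (conj (α i) * β i) ^ 2) =
            ((c i : ℝ) : ℂ) * (η ^ 2 * (conj (α i) * β i) ^ 2) := by ring
        rw [this, Complex.re_ofReal_mul]; ring
      simp_rw [this]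
      rw [← Finset.mul_sum, ← Complex.re_sum, ← Finset.mul_sum, ← hD, hηD]
    rw [e1, e2, e3, e4]
    ring
  rw [h4] at h2
  have h5 : ‖(1 : ℂ)‖ = 1 := norm_one
  rw [h5] at h2
  linarith

end rot

section final

variable {G : Type*} [NormedAddCommGroup G] [NormedSpace ℂ G] [FiniteDimensional ℂ G]

/-- The final form: John's position together with an adapted orthonormal frame. -/
theorem john (hG : finrank ℂ G = 2) :
    ∃ (e : Basis (Fin 2) ℂ G) (ι : Type) (_ : Fintype ι) (c : ι → ℝ) (φ : ι → StrongDual ℂ G),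
      (∀ i, 0 < c i) ∧ (∀ i, ‖φ i‖ ≤ 1) ∧
      (∀ i, ‖φ i (e 0)‖ ^ 2 + ‖φ i (e 1)‖ ^ 2 = 1) ∧
      ∑ i, c i * ‖φ i (e 0)‖ ^ 2 = 1 ∧ ∑ i, c i * ‖φ i (e 1)‖ ^ 2 = 1 ∧
      ∑ i, (c i : ℂ) * (conj (φ i (e 0)) * φ i (e 1)) = 0 ∧
      ∑ i, ((c i * ‖φ i (e 0)‖ ^ 2 : ℝ) : ℂ) * (conj (φ i (e 0)) * φ i (e 1)) = 0 ∧
      ‖∑ i, (c i : ℂ) * (conj (φ i (e 0)) * φ i (e 1)) ^ 2‖ ≤
        3 * ∑ i, c i * ‖φ i (e 0)‖ ^ 4 - 2 ∧
      ∀ v0 v1 : ℂ, ‖v0 • e 0 + v1 • e 1‖ ^ 2 ≤ ‖v0‖ ^ 2 + ‖v1‖ ^ 2 := by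
  obtain ⟨f0, f1, ι, _, c, φ, hc, hφ, hc2, hf0, hf1, hf01, hopt⟩ := exists_john hG
  obtain ⟨x, y, hxy, hmax⟩ := exists_rot c (fun i => φ i f0) (fun i => φ i f1)
  have hxy' : x * conj x + y * conj y = 1 := by
    rw [Complex.mul_conj, Complex.mul_conj, Complex.normSq_eq_norm_sq,
      Complex.normSq_eq_norm_sq]
    exact_mod_cast hxy
  let e0 : G := x • f0 + y • f1
  let e1 : G := (-conj y) • f0 + conj x • f1
  have hψ0 : ∀ ψ : StrongDual ℂ G, ψ e0 = x * ψ f0 + y * ψ f1 := fun ψ => by simp [e0]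
  have hψ1 : ∀ ψ : StrongDual ℂ G, ψ e1 = -conj y * ψ f0 + conj x * ψ f1 := fun ψ => by
    simp [e1]
  have hsum : ∀ ψ : StrongDual ℂ G, ‖ψ e0‖ ^ 2 + ‖ψ e1‖ ^ 2 = ‖ψ f0‖ ^ 2 + ‖ψ f1‖ ^ 2 := by
    intro ψ
    have : ‖ψ e0‖ ^ 2 + ‖ψ e1‖ ^ 2 = (‖x‖ ^ 2 + ‖y‖ ^ 2) * (‖ψ f0‖ ^ 2 + ‖ψ f1‖ ^ 2) := by
      rw [hψ0, hψ1]
      simp only [← Complex.normSq_eq_norm_sq, Complex.normSq_apply,
        Complex.add_re, Complex.add_im, Complex.mul_re, Complex.mul_im,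
        Complex.conj_re, Complex.conj_im, Complex.neg_re, Complex.neg_im]
      ring
    rw [this, hxy, one_mul]
  have hopt' : ∀ ψ : StrongDual ℂ G, ‖ψ‖ ≤ 1 → ‖ψ e0‖ ^ 2 + ‖ψ e1‖ ^ 2 ≤ 1 := fun ψ hψ => by
    rw [hsum]; exact hopt ψ hψ
  -- contact points
  have hcontact : ∀ i, ‖φ i e0‖ ^ 2 + ‖φ i e1‖ ^ 2 = 1 := by
    have h1 : ∑ i, c i * (1 - (‖φ i e0‖ ^ 2 + ‖φ i e1‖ ^ 2)) = 0 := by
      simp_rw [hsum, mul_sub, mul_add, Finset.sum_sub_distrib, Finset.sum_add_distrib, hf0, hf1,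
        mul_one, hc2]
      norm_num
    rw [Finset.sum_eq_zero_iff_of_nonneg fun i _ => mul_nonneg (hc i).le
      (by have := hopt' (φ i) (hφ i); linarith)] at h1
    intro i
    have h2 := h1 i (Finset.mem_univ i)
    rcases mul_eq_zero.mp h2 with h3 | h3
    · exact absurd h3 (hc i).ne'
    · linarith
  have hf0' : ∑ i, (c i : ℂ) * (conj (φ i f0) * φ i f0) = 1 := by
    have : ∀ i, (c i : ℂ) * (conj (φ i f0) * φ i f0) = ((c i * ‖φ i f0‖ ^ 2 : ℝ) : ℂ) := by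
      intro i
      rw [mul_comm (conj _), Complex.mul_conj, Complex.normSq_eq_norm_sq]
      push_cast; ring
    simp_rw [this]
    rw [← Complex.ofReal_sum, hf0, Complex.ofReal_one]
  have hf1' : ∑ i, (c i : ℂ) * (conj (φ i f1) * φ i f1) = 1 := by
    have : ∀ i, (c i : ℂ) * (conj (φ i f1) * φ i f1) = ((c i * ‖φ i f1‖ ^ 2 : ℝ) : ℂ) := by
      intro i
      rw [mul_comm (conj _), Complex.mul_conj, Complex.normSq_eq_norm_sq]
      push_cast; ring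
    simp_rw [this]
    rw [← Complex.ofReal_sum, hf1, Complex.ofReal_one]
  have hf10' : ∑ i, (c i : ℂ) * (conj (φ i f1) * φ i f0) = 0 := by
    have := congrArg conj hf01
    rw [map_sum, map_zero] at this
    rw [← this]
    refine Finset.sum_congr rfl fun i _ => ?_
    simp only [map_mul, Complex.conj_ofReal, Complex.conj_conj]
    ring
  have gram : ∀ p q r t : ℂ, ∑ i, (c i : ℂ) * (conj (p * φ i f0 + q * φ i f1) *
      (r * φ i f0 + t * φ i f1)) = conj p * r + conj q * t := by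
    intro p q r t
    have : ∀ i, (c i : ℂ) * (conj (p * φ i f0 + q * φ i f1) * (r * φ i f0 + t * φ i f1)) =
        conj p * r * ((c i : ℂ) * (conj (φ i f0) * φ i f0)) +
        conj p * t * ((c i : ℂ) * (conj (φ i f0) * φ i f1)) +
        conj q * r * ((c i : ℂ) * (conj (φ i f1) * φ i f0)) +
        conj q * t * ((c i : ℂ) * (conj (φ i f1) * φ i f1)) := by
      intro i
      simp only [map_add, map_mul]
      ring
    simp_rw [this, Finset.sum_add_distrib, ← Finset.mul_sum, hf0', hf01, hf10', hf1']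
    ring
  have hcast : ∀ u : ι → ℂ, ((∑ i, c i * ‖u i‖ ^ 2 : ℝ) : ℂ) =
      ∑ i, (c i : ℂ) * (conj (u i) * u i) := by
    intro u
    rw [Complex.ofReal_sum]
    refine Finset.sum_congr rfl fun i _ => ?_
    rw [mul_comm (conj _), Complex.mul_conj, Complex.normSq_eq_norm_sq]
    push_cast; ring
  have he0 : ∑ i, c i * ‖φ i e0‖ ^ 2 = 1 := by
    have : ((∑ i, c i * ‖φ i e0‖ ^ 2 : ℝ) : ℂ) = 1 := by
      rw [hcast]
      simp_rw [hψ0]
      rw [gram]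
      rw [← hxy']; ring
    exact_mod_cast this
  have he1 : ∑ i, c i * ‖φ i e1‖ ^ 2 = 1 := by
    have : ((∑ i, c i * ‖φ i e1‖ ^ 2 : ℝ) : ℂ) = 1 := by
      rw [hcast]
      simp_rw [hψ1]
      rw [gram]
      simp only [map_neg, Complex.conj_conj]
      rw [← hxy']; ring
    exact_mod_cast this
  have he01 : ∑ i, (c i : ℂ) * (conj (φ i e0) * φ i e1) = 0 := by
    simp_rw [hψ0, hψ1]
    rw [gram]
    ring
  have hmax' : ∀ X Y : ℂ, ∑ i, c i * ‖X * φ i e0 + Y * φ i e1‖ ^ 4 ≤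
      (‖X‖ ^ 2 + ‖Y‖ ^ 2) ^ 2 * ∑ i, c i * ‖φ i e0‖ ^ 4 := by
    intro X Y
    simp_rw [hψ0, hψ1]
    exact hmax X Y
  have hfo := first_order (fun i => (hc i).le) hmax'
  have hso := second_order hcontact he0 he1 he01 hmax'
  -- linear independence
  have hli : LinearIndependent ℂ ![e0, e1] := by
    rw [LinearIndependent.pair_iff]
    intro p q hpq
    have h1 : ∑ i, c i * ‖p * φ i e0 + q * φ i e1‖ ^ 2 = 0 := by
      refine Finset.sum_eq_zero fun i _ => ?_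
      have : p * φ i e0 + q * φ i e1 = φ i (p • e0 + q • e1) := by simp
      rw [this, hpq]; simp
    have h2 : ((∑ i, c i * ‖p * φ i e0 + q * φ i e1‖ ^ 2 : ℝ) : ℂ) =
        ((‖p‖ ^ 2 + ‖q‖ ^ 2 : ℝ) : ℂ) := by
      rw [hcast]
      have : ∀ i, p * φ i e0 + q * φ i e1 = (p * x - q * conj y) * φ i f0 +
          (p * y + q * conj x) * φ i f1 := by
        intro i; rw [hψ0, hψ1]; ring
      simp_rw [this]
      rw [gram]
      have e : ‖p‖ ^ 2 + ‖q‖ ^ 2 = (‖p‖ ^ 2 + ‖q‖ ^ 2) * (‖x‖ ^ 2 + ‖y‖ ^ 2) := by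
        rw [hxy, mul_one]
      rw [e]
      push_cast
      simp only [← Complex.ofReal_pow, ← Complex.normSq_eq_norm_sq, ← Complex.mul_conj]
      simp only [map_add, map_sub, map_mul, Complex.conj_conj]
      ring
    rw [h1] at h2
    have h3 : ‖p‖ ^ 2 + ‖q‖ ^ 2 = 0 := by exact_mod_cast h2.symm
    constructor
    · have : ‖p‖ ^ 2 = 0 := by nlinarith [sq_nonneg ‖p‖, sq_nonneg ‖q‖]
      exact norm_eq_zero.mp (sq_eq_zero_iff.mp this)
    · have : ‖q‖ ^ 2 = 0 := by nlinarith [sq_nonneg ‖p‖, sq_nonneg ‖q‖]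
      exact norm_eq_zero.mp (sq_eq_zero_iff.mp this)
  let e : Basis (Fin 2) ℂ G := basisOfLinearIndependentOfCardEqFinrank hli (by simp [hG])
  have hee0 : e 0 = e0 := by simp [e]
  have hee1 : e 1 = e1 := by simp [e]
  refine ⟨e, ι, inferInstance, c, φ, hc, hφ, ?_, ?_, ?_, ?_, ?_, ?_, ?_⟩
  · rw [hee0, hee1]; exact hcontact
  · rw [hee0]; exact he0
  · rw [hee1]; exact he1
  · rw [hee0, hee1]; exact he01
  · rw [hee0, hee1]; exact hfo
  · rw [hee0, hee1]; exact hso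
  · intro v0 v1
    rw [hee0, hee1]
    obtain ⟨ψ, hψ, hψg⟩ := exists_dual_vector'' ℂ (v0 • e0 + v1 • e1)
    have h1 : ‖v0 • e0 + v1 • e1‖ = ‖v0 * ψ e0 + v1 * ψ e1‖ := by
      have : v0 * ψ e0 + v1 * ψ e1 = ψ (v0 • e0 + v1 • e1) := by simp
      rw [this, hψg]
      simp
    rw [h1]
    have h2 := hopt' ψ hψ
    have h3 : ‖v0 * ψ e0 + v1 * ψ e1‖ ≤ ‖v0‖ * ‖ψ e0‖ + ‖v1‖ * ‖ψ e1‖ := by
      refine (norm_add_le _ _).trans ?_
      rw [norm_mul, norm_mul]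
    have h4 : (‖v0‖ * ‖ψ e0‖ + ‖v1‖ * ‖ψ e1‖) ^ 2 ≤
        (‖v0‖ ^ 2 + ‖v1‖ ^ 2) * (‖ψ e0‖ ^ 2 + ‖ψ e1‖ ^ 2) := by
      nlinarith [sq_nonneg (‖v0‖ * ‖ψ e1‖ - ‖v1‖ * ‖ψ e0‖)]
    calc ‖v0 * ψ e0 + v1 * ψ e1‖ ^ 2 ≤ (‖v0‖ * ‖ψ e0‖ + ‖v1‖ * ‖ψ e1‖) ^ 2 :=
          pow_le_pow_left₀ (norm_nonneg _) h3 2
      _ ≤ (‖v0‖ ^ 2 + ‖v1‖ ^ 2) * (‖ψ e0‖ ^ 2 + ‖ψ e1‖ ^ 2) := h4
      _ ≤ (‖v0‖ ^ 2 + ‖v1‖ ^ 2) * 1 := by gcongr
      _ = _ := mul_one _

end final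

end CbRank
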