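import Mathlib

/-!
# MP_87d6b4_an: definitions (matrix norms, cb-norm, the constant `c^*`)
-/

namespace OpSp

open scoped ENNReal

universe u

section defs

variable {V H K : Type*} [NormedAddCommGroup H] [InnerProductSpace ℂ H]
  [NormedAddCommGroup K] [InnerProductSpace ℂ K]

/-- The norm of a `k × k` matrix `x` of bounded operators on a Hilbert space `H`, viewed as an
operator on `H^k`: the infimum of the `C ≥ 0` such that
`(∑_i ‖∑_j x_{ij} v_j‖²)^{1/2} ≤ C (∑_j ‖v_j‖²)^{1/2}` for all `v ∈ H^k`. -/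
noncomputable def matNorm {k : ℕ} (x : Fin k → Fin k → (H →L[ℂ] H)) : ℝ :=
  sInf {C : ℝ | 0 ≤ C ∧ ∀ v : Fin k → H,
    √(∑ i, ‖∑ j, x i j (v j)‖ ^ 2) ≤ C * √(∑ j, ‖v j‖ ^ 2)}

/-- Let `V` be an operator space with inclusion `a : V → B(H)`, and let `b : V → B(K)` be a linear
map (`u : V → F` followed by the inclusion of `F` in `B(K)`). This is
`‖u_k‖ ∈ [0,∞]`, the norm of the map `u_k : M_k(V) → M_k(F)` which acts entrywise; for `k = 1` it
is the ordinary operator norm `‖u‖`. -/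
noncomputable def ampNorm (a : V → (H →L[ℂ] H)) (b : V → (K →L[ℂ] K)) (k : ℕ) : ℝ≥0∞ :=
  ⨆ (x : Fin k → Fin k → V) (_ : matNorm (fun i j => a (x i j)) ≤ 1),
    ENNReal.ofReal (matNorm fun i j => b (x i j))

/-- `‖u‖_cb = sup_{k ≥ 1} ‖u_k‖ ∈ [0,∞]`. -/
noncomputable def cbNorm (a : V → (H →L[ℂ] H)) (b : V → (K →L[ℂ] K)) : ℝ≥0∞ :=
  ⨆ (k : ℕ) (_ : 1 ≤ k), ampNorm a b k

end defs

/-- For all operator spaces `E ⊂ B(H)` and `F ⊂ B(K)` (that is, closed subspaces) and every linear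
map `u : E → F` of rank at most `n`, one has `‖u‖_cb ≤ c n ‖u‖`. -/
structure RankBoundOn (H K : Type u) [NormedAddCommGroup H] [InnerProductSpace ℂ H]
    [NormedAddCommGroup K] [InnerProductSpace ℂ K] (n : ℕ) (c : ℝ) : Prop where
  bound : ∀ (E : Submodule ℂ (H →L[ℂ] H)) (F : Submodule ℂ (K →L[ℂ] K)),
    IsClosed (E : Set (H →L[ℂ] H)) → IsClosed (F : Set (K →L[ℂ] K)) →
    ∀ u : E →ₗ[ℂ] F, u.rank ≤ n →
      cbNorm (fun x : E => (x : H →L[ℂ] H)) (fun x : E => (u x : K →L[ℂ] K)) ≤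
        ENNReal.ofReal (c * n) *
          ampNorm (fun x : E => (x : H →L[ℂ] H)) (fun x : E => (u x : K →L[ℂ] K)) 1

/-- For every `n ≥ 2`, all operator spaces `E ⊂ B(H)` and `F ⊂ B(K)`, where `H` and `K` are complex
Hilbert spaces, and every linear map `u : E → F` of rank at most `n`, one has
`‖u‖_cb ≤ c n ‖u‖`. -/
def IsRankBound (c : ℝ) : Prop :=
  ∀ n : ℕ, 2 ≤ n → ∀ (H : Type u) [NormedAddCommGroup H] [InnerProductSpace ℂ H] [CompleteSpace H]
    (K : Type u) [NormedAddCommGroup K] [InnerProductSpace ℂ K] [CompleteSpace K],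
    RankBoundOn H K n c

/-- The constant `c^*`: the infimum of the `c > 0` with `IsRankBound c`. -/
noncomputable def cStar : ℝ := sInf {c : ℝ | 0 < c ∧ IsRankBound.{u} c}

end OpSp
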