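import Pool.Agent.CbRank.Form

/-!
Positive Toeplitz blocks.
-/

namespace CbRank

open scoped ComplexConjugate InnerProductSpace Matrix ComplexOrder

section isom

variable {ι κ : Type*} [Fintype ι] [Fintype κ] [DecidableEq ι] [DecidableEq κ]

/-- Two matrices with the same Gram matrix differ by a unitary matrix. -/
theorem exists_isometry {a b : Matrix κ ι ℂ} (h : aᴴ * a = bᴴ * b) :
    ∃ V : Matrix κ κ ℂ, Vᴴ * V = 1 ∧ V * a = b := by
  let La : EuclideanSpace ℂ ι →ₗ[ℂ] EuclideanSpace ℂ κ := Matrix.toEuclideanLin a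
  let Lb : EuclideanSpace ℂ ι →ₗ[ℂ] EuclideanSpace ℂ κ := Matrix.toEuclideanLin b
  have hinner : ∀ x y, ⟪La x, La y⟫_ℂ = ⟪Lb x, Lb y⟫_ℂ := by
    intro x y
    have e : ∀ c : Matrix κ ι ℂ, ⟪Matrix.toEuclideanLin c x, Matrix.toEuclideanLin c y⟫_ℂ =
        ⟪x, Matrix.toEuclideanLin (cᴴ * c) y⟫_ℂ := by
      intro c
      rw [← LinearMap.adjoint_inner_right, ← Matrix.toEuclideanLin_conjTranspose_eq_adjoint]
      congr 1
      simp [Matrix.toEuclideanLin_apply]
    rw [e, e, h]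
  have hnorm : ∀ x, ‖La x‖ = ‖Lb x‖ := by
    intro x
    rw [@norm_eq_sqrt_re_inner ℂ, @norm_eq_sqrt_re_inner ℂ, hinner]
  obtain ⟨g, hg⟩ := La.rangeRestrict.exists_rightInverse_of_surjective
    (LinearMap.range_rangeRestrict La)
  have hg' : ∀ p : LinearMap.range La, La (g p) = p := by
    intro p
    have := congrArg (fun T => (T p : EuclideanSpace ℂ κ)) hg
    exact this
  let L : LinearMap.range La →ₗᵢ[ℂ] EuclideanSpace ℂ κ :=
    { toLinearMap := Lb ∘ₗ g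
      norm_map' := fun p => by
        change ‖Lb (g p)‖ = ‖p‖
        rw [← hnorm, hg']
        rfl }
  have hL : ∀ x, L ⟨La x, ⟨x, rfl⟩⟩ = Lb x := by
    intro x
    change Lb (g ⟨La x, ⟨x, rfl⟩⟩) = Lb x
    rw [← sub_eq_zero, ← map_sub, ← norm_eq_zero, ← hnorm, map_sub, hg', sub_self, norm_zero]
  let V : EuclideanSpace ℂ κ →ₗᵢ[ℂ] EuclideanSpace ℂ κ := L.extend
  have hV : ∀ x, V (La x) = Lb x := by
    intro x
    rw [← hL]
    exact L.extend_apply ⟨La x, ⟨x, rfl⟩⟩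
  let Vm : Matrix κ κ ℂ := Matrix.toEuclideanLin.symm V.toLinearMap
  have hVm : Matrix.toEuclideanLin Vm = V.toLinearMap := LinearEquiv.apply_symm_apply _ _
  refine ⟨Vm, ?_, ?_⟩
  · apply Matrix.toEuclideanLin.injective
    apply LinearMap.ext
    intro x
    refine ext_inner_left ℂ fun z => ?_
    have e1 : Matrix.toEuclideanLin (Vmᴴ * Vm) x =
        Matrix.toEuclideanLin Vmᴴ (Matrix.toEuclideanLin Vm x) := by
      simp [Matrix.toEuclideanLin_apply]
    have e2 : Matrix.toEuclideanLin (1 : Matrix κ κ ℂ) x = x := by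
      simp [Matrix.toEuclideanLin_apply]
    rw [e1, Matrix.toEuclideanLin_conjTranspose_eq_adjoint, LinearMap.adjoint_inner_right, hVm, e2]
    exact V.inner_map_map z x
  · apply Matrix.toEuclideanLin.injective
    apply LinearMap.ext
    intro x
    have e1 : Matrix.toEuclideanLin (Vm * a) x =
        Matrix.toEuclideanLin Vm (Matrix.toEuclideanLin a x) := by
      simp [Matrix.toEuclideanLin_apply]
    rw [e1, hVm]
    exact hV x

end isom

section toep

variable {H : Type*} [NormedAddCommGroup H] [InnerProductSpace ℂ H]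
  {κ : Type*} [Fintype κ] [DecidableEq κ]

/-- the componentwise action of an operator on `H^κ` -/
noncomputable def diagOp (Y : H →L[ℂ] H) : PiLp 2 (fun _ : κ => H) →ₗ[ℂ] PiLp 2 (fun _ : κ => H) where
  toFun v := WithLp.toLp 2 fun l => Y (v l)
  map_add' v w := by ext l : 1; simp
  map_smul' c v := by ext l : 1; simp

/-- the isometry of `H^κ` given by a scalar isometric matrix -/
noncomputable def matIso (V : Matrix κ κ ℂ) (hV : Vᴴ * V = 1) :
    PiLp 2 (fun _ : κ => H) →ₗᵢ[ℂ] PiLp 2 (fun _ : κ => H) where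
  toFun v := WithLp.toLp 2 (act V v)
  map_add' v w := by
    ext l : 1
    simp [act, Finset.sum_add_distrib]
  map_smul' c v := by
    ext l : 1
    simp only [act, PiLp.smul_apply, RingHom.id_apply, Finset.smul_sum]
    exact Finset.sum_congr rfl fun j _ => smul_comm _ _ _
  norm_map' v := by
    have h1 := form_gram_self V (fun l => v l)
    rw [hV, form_one] at h1
    have h2 : ∑ l, ‖v l‖ ^ 2 = ∑ l, ‖act V (fun l => v l) l‖ ^ 2 := by exact_mod_cast h1
    have h3 : ‖(WithLp.toLp 2 (act V v) : PiLp 2 (fun _ : κ => H))‖ ^ 2 = ‖v‖ ^ 2 := by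
      rw [PiLp.norm_sq_eq_of_L2, PiLp.norm_sq_eq_of_L2]
      exact h2.symm
    exact (pow_left_inj₀ (norm_nonneg _) (norm_nonneg _) two_ne_zero).mp h3

theorem act_isometry_le {Y0 Y1 : H →L[ℂ] H} {C : ℝ} 
    (hY : ∀ w : ℂ, ‖w‖ = 1 → ‖Y0 + w • Y1‖ ^ 2 ≤ C) (V : Matrix κ κ ℂ) (hV : Vᴴ * V = 1)
    (ζ : κ → H) :
    ∑ l, ‖Y0 (ζ l) + Y1 (act V ζ l)‖ ^ 2 ≤ C * ∑ l, ‖ζ l‖ ^ 2 := by
  have h := averaging (Y0 := diagOp (κ := κ) Y0) (Y1 := diagOp Y1) (V := matIso V hV) (C := C)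
    (fun z => by
      ext l : 1
      change act V (fun l => Y0 (z l)) l = Y0 (act V (fun l => z l) l)
      exact act_map V Y0 _ l)
    (fun z => by
      ext l : 1
      change act V (fun l => Y1 (z l)) l = Y1 (act V (fun l => z l) l)
      exact act_map V Y1 _ l)
    (fun w hw z => by
      rw [PiLp.norm_sq_eq_of_L2, PiLp.norm_sq_eq_of_L2, Finset.mul_sum]
      refine Finset.sum_le_sum fun l _ => ?_
      have e : (diagOp Y0 z + w • diagOp Y1 z : PiLp 2 (fun _ : κ => H)) l =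
        (Y0 + w • Y1) (z l) := rfl
      rw [e]
      calc ‖(Y0 + w • Y1) (z l)‖ ^ 2 ≤ (‖Y0 + w • Y1‖ * ‖z l‖) ^ 2 :=
            pow_le_pow_left₀ (norm_nonneg _) (ContinuousLinearMap.le_opNorm _ _) 2
        _ = ‖Y0 + w • Y1‖ ^ 2 * ‖z l‖ ^ 2 := by ring
        _ ≤ C * ‖z l‖ ^ 2 := by gcongr; exact hY w hw)
    (WithLp.toLp 2 ζ)
  rw [PiLp.norm_sq_eq_of_L2, PiLp.norm_sq_eq_of_L2] at h
  exact h

end toep

section toep2

variable {H : Type*} [NormedAddCommGroup H] [InnerProductSpace ℂ H]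
  {ι : Type*} [Fintype ι] [DecidableEq ι]

/-- Positive Toeplitz blocks are `good`. -/
theorem toep_le {W0 W1 : Matrix ι ι ℂ} (hW : (Matrix.fromBlocks W0 W1 W1ᴴ W0).PosSemidef)
    {Y0 Y1 : H →L[ℂ] H} (hY : ∀ w : ℂ, ‖w‖ = 1 → ‖Y0 + w • Y1‖ ^ 2 ≤ 2) (Z : ι → H) :
    (form W0 (fun i => Y0 (Z i)) (fun i => Y0 (Z i))).re +
      (form W0 (fun i => Y1 (Z i)) (fun i => Y1 (Z i))).re +
      2 * (form W1 (fun i => Y0 (Z i)) (fun i => Y1 (Z i))).re ≤ 2 * (form W0 Z Z).re := by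
  obtain ⟨B, hB⟩ := exists_gram hW
  let a : Matrix (ι ⊕ ι) ι ℂ := fun l i => B l (Sum.inl i)
  let b : Matrix (ι ⊕ ι) ι ℂ := fun l i => B l (Sum.inr i)
  have haa : aᴴ * a = W0 := by
    ext i j
    have := congrFun (congrFun hB (Sum.inl i)) (Sum.inl j)
    rw [Matrix.fromBlocks_apply₁₁] at this
    rw [this]; rfl
  have hbb : bᴴ * b = W0 := by
    ext i j
    have := congrFun (congrFun hB (Sum.inr i)) (Sum.inr j)
    rw [Matrix.fromBlocks_apply₂₂] at this
    rw [this]; rfl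
  have hab : aᴴ * b = W1 := by
    ext i j
    have := congrFun (congrFun hB (Sum.inl i)) (Sum.inr j)
    rw [Matrix.fromBlocks_apply₁₂] at this
    rw [this]; rfl
  obtain ⟨V, hV, hVa⟩ := exists_isometry (haa.trans hbb.symm)
  have h := act_isometry_le hY V hV (act a Z)
  have h1 : ∀ l, act V (act a Z) l = act b Z l := by
    intro l
    rw [← hVa]
    simp only [act, Matrix.mul_apply, Finset.smul_sum, Finset.sum_smul, smul_smul]
    exact Finset.sum_comm
  simp_rw [h1] at h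
  have h2 : ((∑ l, ‖act a Z l‖ ^ 2 : ℝ) : ℂ) = form W0 Z Z := by rw [← form_gram_self, haa]
  have h2' : ∑ l, ‖act a Z l‖ ^ 2 = (form W0 Z Z).re := by rw [← h2, Complex.ofReal_re]
  have h3 : ∀ l, ‖Y0 (act a Z l) + Y1 (act b Z l)‖ ^ 2 =
      ‖act a (fun i => Y0 (Z i)) l‖ ^ 2 + ‖act b (fun i => Y1 (Z i)) l‖ ^ 2 +
        2 * (⟪act a (fun i => Y0 (Z i)) l, act b (fun i => Y1 (Z i)) l⟫_ℂ).re := by
    intro l
    rw [act_map, act_map, norm_add_sq (𝕜 := ℂ)]
    simp only [RCLike.re_eq_complex_re]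
    ring
  have h4 : ∑ l, ‖act a (fun i => Y0 (Z i)) l‖ ^ 2 =
      (form W0 (fun i => Y0 (Z i)) (fun i => Y0 (Z i))).re := by
    rw [← haa, form_gram_self, Complex.ofReal_re]
  have h5 : ∑ l, ‖act b (fun i => Y1 (Z i)) l‖ ^ 2 =
      (form W0 (fun i => Y1 (Z i)) (fun i => Y1 (Z i))).re := by
    rw [← hbb, form_gram_self, Complex.ofReal_re]
  have h6 : ∑ l, (⟪act a (fun i => Y0 (Z i)) l, act b (fun i => Y1 (Z i)) l⟫_ℂ).re =
      (form W1 (fun i => Y0 (Z i)) (fun i => Y1 (Z i))).re := by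
    rw [← hab, form_gram, Complex.re_sum]
  simp_rw [h3, Finset.sum_add_distrib, ← Finset.mul_sum] at h
  rw [h4, h5, h6, h2'] at h
  exact h

end toep2

end CbRank
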