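import Mathlib

/-!
Positivity of `M ⊗ F₀ + N ⊗ F₁ + (N ⊗ F₁)^*` when the block Toeplitz matrix
`[[M, N], [N^*, M]]` is positive semidefinite and `F₀ + w F₁ + (w F₁)^* ≥ 0` for all `|w| = 1`.
-/

namespace CbRank

open scoped ComplexConjugate InnerProductSpace ComplexOrder
open Module

universe u

/-- an isometry of a finite-dimensional complex Hilbert space is diagonalisable -/
theorem isometry_diag (n : ℕ) : ∀ {W : Type u} [NormedAddCommGroup W] [InnerProductSpace ℂ W]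
    [FiniteDimensional ℂ W] (_ : finrank ℂ W = n) (V : W →ₗᵢ[ℂ] W),
    ∃ (b : Fin n → W) (w : Fin n → ℂ), (∀ i, ‖w i‖ = 1) ∧
      (∀ x y : W, ⟪x, y⟫_ℂ = ∑ i, ⟪x, b i⟫_ℂ * ⟪b i, y⟫_ℂ) ∧
      (∀ x y : W, ⟪x, V y⟫_ℂ = ∑ i, w i * (⟪x, b i⟫_ℂ * ⟪b i, y⟫_ℂ)) := by
  induction n with
  | zero =>
    intro W _ _ _ hn V
    have : Subsingleton W := finrank_zero_iff.mp hn
    refine ⟨Fin.elim0, Fin.elim0, fun i => i.elim0, fun x y => ?_, fun x y => ?_⟩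
    · rw [Subsingleton.elim x 0]; simp
    · rw [Subsingleton.elim x 0]; simp
  | succ n ih =>
    intro W _ _ _ hn V
    have : Nontrivial W := nontrivial_of_finrank_pos (R := ℂ) (by omega)
    obtain ⟨w, hw⟩ := Module.End.exists_eigenvalue (K := ℂ) V.toLinearMap
    obtain ⟨e', he'⟩ := hw.exists_hasEigenvector
    have he'0 : e' ≠ 0 := he'.2
    have hne' : ‖e'‖ ≠ 0 := norm_ne_zero_iff.mpr he'0
    set e : W := ((‖e'‖ : ℂ)⁻¹) • e' with he
    have hen : ‖e‖ = 1 := by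
      rw [he, norm_smul, norm_inv, Complex.norm_real, norm_norm, inv_mul_cancel₀ hne']
    have hVe' : V e' = w • e' := he'.apply_eq_smul
    have hVe : V e = w • e := by
      rw [he, map_smul, hVe', smul_comm]
    have hwn : ‖w‖ = 1 := by
      have h1 : ‖V e‖ = ‖w‖ * ‖e‖ := by rw [hVe, norm_smul]
      rw [V.norm_map, hen, mul_one] at h1
      exact h1.symm
    have hee : ⟪e, e⟫_ℂ = 1 := by rw [inner_self_eq_norm_sq_to_K, hen]; simp
    let U : Submodule ℂ W := (ℂ ∙ e)ᗮ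
    have hUmem : ∀ x : W, x ∈ U ↔ ⟪e, x⟫_ℂ = 0 := fun x => Submodule.mem_orthogonal_singleton_iff_inner_right
    have hVU : ∀ x ∈ U, V x ∈ U := by
      intro x hx
      rw [hUmem] at hx ⊢
      have h1 : ⟪V e, V x⟫_ℂ = ⟪e, x⟫_ℂ := V.inner_map_map e x
      rw [hVe, inner_smul_left, hx] at h1
      rcases mul_eq_zero.mp h1 with h2 | h2
      · have : w = 0 := by simpa using h2
        rw [this] at hwn; simp at hwn
      · exact h2
    let V' : U →ₗᵢ[ℂ] U := 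
      { toLinearMap := V.toLinearMap.restrict hVU
        norm_map' := fun x => V.norm_map x }
    have hfin : finrank ℂ U = n := by
      have h1 := Submodule.finrank_add_finrank_orthogonal (ℂ ∙ e)
      have h2 : finrank ℂ (ℂ ∙ e) = 1 := finrank_span_singleton (by
        intro h0; rw [h0, norm_zero] at hen; exact zero_ne_one hen)
      have h3 : finrank ℂ U = finrank ℂ (ℂ ∙ e)ᗮ := rfl
      omega
    obtain ⟨b, w', hw', h1, h2⟩ := ih hfin V'
    have hdec : ∀ y : W, y - ⟪e, y⟫_ℂ • e ∈ U := by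
      intro y
      rw [hUmem, inner_sub_right, inner_smul_right, hee]
      ring
    have hbe : ∀ i, ⟪e, (b i : W)⟫_ℂ = 0 := fun i => (hUmem _).mp (b i).2
    have hbe' : ∀ i, ⟪(b i : W), e⟫_ℂ = 0 := fun i => inner_eq_zero_symm.mp (hbe i)
    have key1 : ∀ x y : W, ⟪x, y⟫_ℂ = ⟪x, e⟫_ℂ * ⟪e, y⟫_ℂ +
        ∑ i, ⟪x, (b i : W)⟫_ℂ * ⟪(b i : W), y⟫_ℂ := by
      intro x y
      have h3 := h1 ⟨_, hdec x⟩ ⟨_, hdec y⟩
      simp only [Submodule.coe_inner, inner_sub_left, inner_sub_right, inner_smul_left,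
        inner_smul_right, hbe, hbe', hee, mul_zero, sub_zero, inner_conj_symm, mul_one] at h3
      linear_combination h3
    have key2 : ∀ x y : W, ⟪x, V y⟫_ℂ = w * (⟪x, e⟫_ℂ * ⟪e, y⟫_ℂ) +
        ∑ i, w' i * (⟪x, (b i : W)⟫_ℂ * ⟪(b i : W), y⟫_ℂ) := by
      intro x y
      have h3 := h2 ⟨_, hdec x⟩ ⟨_, hdec y⟩
      have h4 : ((V' ⟨_, hdec y⟩ : U) : W) = V y - (⟪e, y⟫_ℂ * w) • e := by
        change V (y - ⟪e, y⟫_ℂ • e) = _
        rw [map_sub, map_smul, hVe, smul_smul]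
      have h5 : ⟪e, V y⟫_ℂ = w * ⟪e, y⟫_ℂ := by
        have h6 : V y - (⟪e, y⟫_ℂ * w) • e ∈ U := by rw [← h4]; exact (V' _).2
        rw [hUmem, inner_sub_right, inner_smul_right, hee] at h6
        linear_combination h6
      rw [Submodule.coe_inner, h4] at h3
      simp only [Submodule.coe_inner, inner_sub_left, inner_sub_right, inner_smul_left,
        inner_smul_right, hbe, hbe', hee, mul_zero, sub_zero, inner_conj_symm, mul_one, h5] at h3
      linear_combination h3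
    refine ⟨Fin.cons e fun i => (b i : W), Fin.cons w w', ?_, ?_, ?_⟩
    · intro i
      refine Fin.cases ?_ (fun j => ?_) i
      · simpa using hwn
      · simpa using hw' j
    · intro x y
      rw [Fin.sum_univ_succ]
      simpa using key1 x y
    · intro x y
      rw [Fin.sum_univ_succ]
      simpa using key2 x y

section toeplitz

variable {ι : Type*} [Fintype ι] {W : Type u} [NormedAddCommGroup W] [InnerProductSpace ℂ W]
  [FiniteDimensional ℂ W]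

/-- two families with the same Gram matrix are related by an isometry -/
theorem exists_isometry (p q : ι → W) (hpq : ∀ a b, ⟪p a, p b⟫_ℂ = ⟪q a, q b⟫_ℂ) :
    ∃ V : W →ₗᵢ[ℂ] W, ∀ a, V (p a) = q a := by
  classical
  let P : (ι → ℂ) →ₗ[ℂ] W := Fintype.linearCombination ℂ p
  let Q : (ι → ℂ) →ₗ[ℂ] W := Fintype.linearCombination ℂ q
  have hin : ∀ x, ‖P x‖ = ‖Q x‖ := by
    intro x
    have h : ⟪P x, P x⟫_ℂ = ⟪Q x, Q x⟫_ℂ := by
      simp only [P, Q, Fintype.linearCombination_apply, sum_inner, inner_sum, inner_smul_left,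
        inner_smul_right, hpq]
    rw [inner_self_eq_norm_sq_to_K, inner_self_eq_norm_sq_to_K] at h
    have h' : ‖P x‖ ^ 2 = ‖Q x‖ ^ 2 := by exact_mod_cast h
    exact (pow_left_inj₀ (norm_nonneg _) (norm_nonneg _) two_ne_zero).mp h'
  have hker : LinearMap.ker P ≤ LinearMap.ker Q := by
    intro x hx
    rw [LinearMap.mem_ker] at hx ⊢
    have := hin x
    rw [hx, norm_zero] at this
    exact norm_eq_zero.mp this.symm
  let L0 : LinearMap.range P →ₗ[ℂ] W :=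
    (Submodule.liftQ (LinearMap.ker P) Q hker) ∘ₗ (P.quotKerEquivRange.symm : _ →ₗ[ℂ] _)
  have hL0 : ∀ x (hx : P x ∈ LinearMap.range P), L0 ⟨P x, hx⟩ = Q x := by
    intro x hx
    have h1 : P.quotKerEquivRange.symm ⟨P x, hx⟩ = Submodule.Quotient.mk x := by
      rw [LinearEquiv.symm_apply_eq]
      ext
      simp
    simp only [L0, LinearMap.comp_apply, LinearEquiv.coe_coe, h1]
    rfl
  let L : LinearMap.range P →ₗᵢ[ℂ] W :=
    { toLinearMap := L0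
      norm_map' := by
        intro z
        obtain ⟨x, hx⟩ := z.2
        have hz : z = ⟨P x, ⟨x, rfl⟩⟩ := Subtype.ext hx.symm
        have h5 : L0 z = Q x := by rw [hz]; exact hL0 x ⟨x, rfl⟩
        rw [h5, ← hin x, hx]
        rfl }
  refine ⟨L.extend, fun a => ?_⟩
  have h1 : p a = P (Pi.single a 1) := by simp [P]
  have h2 : q a = Q (Pi.single a 1) := by simp [Q]
  have h3 : P (Pi.single a 1) ∈ LinearMap.range P := ⟨_, rfl⟩
  have h4 := L.extend_apply ⟨P (Pi.single a 1), h3⟩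
  rw [h1, h2]
  refine h4.trans ?_
  exact hL0 _ h3

/-- The Toeplitz positivity lemma, Gram form. -/
theorem gram_pos {K : Type*} [AddCommGroup K] [Module ℂ K] (p q : ι → W)
    (hpq : ∀ a b, ⟪p a, p b⟫_ℂ = ⟪q a, q b⟫_ℂ)
    (F0 F1 : K →ₗ⋆[ℂ] K →ₗ[ℂ] ℂ)
    (hF : ∀ w : ℂ, ‖w‖ = 1 → ∀ x : K, 0 ≤ (F0 x x).re + 2 * (w * F1 x x).re) (Ψ : ι → K) :
    0 ≤ (∑ a, ∑ b, ⟪p a, p b⟫_ℂ * F0 (Ψ a) (Ψ b)).re +
      2 * (∑ a, ∑ b, ⟪p a, q b⟫_ℂ * F1 (Ψ a) (Ψ b)).re := by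
  obtain ⟨V, hV⟩ := exists_isometry p q hpq
  obtain ⟨e, w, hw, h1, h2⟩ := isometry_diag _ rfl V
  let X : Fin (finrank ℂ W) → K := fun i => ∑ b, ⟪e i, p b⟫_ℂ • Ψ b
  have hX : ∀ (F : K →ₗ⋆[ℂ] K →ₗ[ℂ] ℂ) (i), F (X i) (X i) =
      ∑ a, ∑ b, (⟪p a, e i⟫_ℂ * ⟪e i, p b⟫_ℂ) * F (Ψ a) (Ψ b) := by
    intro F i
    simp only [X, map_sum, LinearMap.sum_apply, LinearMap.map_smulₛₗ, LinearMap.smul_apply,
      RingHom.id_apply, inner_conj_symm, smul_eq_mul, Finset.mul_sum]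
    rw [Finset.sum_comm]
    refine Finset.sum_congr rfl fun a _ => Finset.sum_congr rfl fun b _ => ?_
    ring
  have swap : ∀ f : ι → ι → Fin (finrank ℂ W) → ℂ,
      ∑ a, ∑ b, ∑ i, f a b i = ∑ i, ∑ a, ∑ b, f a b i := by
    intro f
    rw [Finset.sum_congr rfl fun a _ => Finset.sum_comm]
    rw [Finset.sum_comm]
  have e0 : ∑ a, ∑ b, ⟪p a, p b⟫_ℂ * F0 (Ψ a) (Ψ b) = ∑ i, F0 (X i) (X i) := by
    have h3 : ∀ a b, ⟪p a, p b⟫_ℂ * F0 (Ψ a) (Ψ b) =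
        ∑ i, (⟪p a, e i⟫_ℂ * ⟪e i, p b⟫_ℂ) * F0 (Ψ a) (Ψ b) := fun a b => by
      rw [h1 (p a) (p b), Finset.sum_mul]
    simp_rw [hX, h3]
    exact swap _
  have e1 : ∑ a, ∑ b, ⟪p a, q b⟫_ℂ * F1 (Ψ a) (Ψ b) = ∑ i, w i * F1 (X i) (X i) := by
    have h3 : ∀ a b, ⟪p a, q b⟫_ℂ * F1 (Ψ a) (Ψ b) =
        ∑ i, w i * ((⟪p a, e i⟫_ℂ * ⟪e i, p b⟫_ℂ) * F1 (Ψ a) (Ψ b)) := fun a b => by
      rw [← hV b, h2 (p a) (p b), Finset.sum_mul]
      refine Finset.sum_congr rfl fun i _ => ?_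
      ring
    simp_rw [hX, h3, Finset.mul_sum]
    exact swap _
  rw [e0, e1, Complex.re_sum, Complex.re_sum, Finset.mul_sum, ← Finset.sum_add_distrib]
  exact Finset.sum_nonneg fun i _ => hF (w i) (hw i) (X i)

open Matrix MatrixOrder in
/-- The Toeplitz positivity lemma, matrix form. -/
theorem toeplitz_pos {k : ℕ} {K : Type*} [AddCommGroup K] [Module ℂ K]
    (M N : Matrix (Fin k) (Fin k) ℂ) (hMN : (Matrix.fromBlocks M N Nᴴ M).PosSemidef)
    (F0 F1 : K →ₗ⋆[ℂ] K →ₗ[ℂ] ℂ)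
    (hF : ∀ w : ℂ, ‖w‖ = 1 → ∀ x : K, 0 ≤ (F0 x x).re + 2 * (w * F1 x x).re) (Ψ : Fin k → K) :
    0 ≤ (∑ a, ∑ b, M a b * F0 (Ψ a) (Ψ b)).re +
      2 * (∑ a, ∑ b, N a b * F1 (Ψ a) (Ψ b)).re := by
  obtain ⟨B, hB⟩ := CStarAlgebra.nonneg_iff_eq_star_mul_self.mp hMN.nonneg
  rw [Matrix.star_eq_conjTranspose] at hB
  let p : Fin k → EuclideanSpace ℂ (Fin k ⊕ Fin k) := fun a =>
    WithLp.toLp 2 fun i => B i (Sum.inl a)
  let q : Fin k → EuclideanSpace ℂ (Fin k ⊕ Fin k) := fun a =>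
    WithLp.toLp 2 fun i => B i (Sum.inr a)
  have hin : ∀ s t : Fin k ⊕ Fin k,
      ⟪(WithLp.toLp 2 fun i => B i s : EuclideanSpace ℂ (Fin k ⊕ Fin k)),
        WithLp.toLp 2 fun i => B i t⟫_ℂ = Matrix.fromBlocks M N Nᴴ M s t := by
    intro s t
    rw [hB, Matrix.mul_apply, PiLp.inner_apply]
    refine Finset.sum_congr rfl fun i _ => ?_
    simp [Matrix.conjTranspose_apply, mul_comm]
  have hpp : ∀ a b, ⟪p a, p b⟫_ℂ = M a b := fun a b => hin (Sum.inl a) (Sum.inl b)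
  have hpq : ∀ a b, ⟪p a, q b⟫_ℂ = N a b := fun a b => hin (Sum.inl a) (Sum.inr b)
  have hqq : ∀ a b, ⟪q a, q b⟫_ℂ = M a b := fun a b => hin (Sum.inr a) (Sum.inr b)
  have := gram_pos p q (fun a b => by rw [hpp, hqq]) F0 F1 hF Ψ
  simpa only [hpp, hpq] using this

end toeplitz

end CbRank
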