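import Pool.Agent.CbRank.Toep
import Pool.Agent.CbRank.John
import Pool.Agent.CbRank.Defs

/-!
The case `n = 2`: a tensor of tensor rank `≤ 2` satisfies `‖t‖ ≤ √2 ‖t‖_ε`.
-/

namespace CbRank

open scoped ComplexConjugate InnerProductSpace Matrix ComplexOrder

section ident

variable {J : Type*} [Fintype J] {c : J → ℝ} {α β : J → ℂ} {ι : Type*} [Fintype ι] [DecidableEq ι]

/-- `D_j = 1 - X(u_j)^* X(u_j)` -/
noncomputable def Dm (x0 x1 : Matrix ι ι ℂ) (a b : ℂ) : Matrix ι ι ℂ :=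
  1 - (a • x0 + b • x1)ᴴ * (a • x0 + b • x1)

theorem Dm_expand (x0 x1 : Matrix ι ι ℂ) (a b : ℂ) :
    Dm x0 x1 a b = 1 - (((‖a‖ ^ 2 : ℝ) : ℂ) • (x0ᴴ * x0) + ((‖b‖ ^ 2 : ℝ) : ℂ) • (x1ᴴ * x1) +
      (conj a * b) • (x0ᴴ * x1) + conj (conj a * b) • (x0ᴴ * x1)ᴴ) := by
  unfold Dm
  congr 1
  have ha : ((‖a‖ ^ 2 : ℝ) : ℂ) = conj a * a := by
    rw [mul_comm, Complex.mul_conj, Complex.normSq_eq_norm_sq]
  have hb : ((‖b‖ ^ 2 : ℝ) : ℂ) = conj b * b := by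
    rw [mul_comm, Complex.mul_conj, Complex.normSq_eq_norm_sq]
  rw [ha, hb]
  simp only [Matrix.conjTranspose_add, Matrix.conjTranspose_smul, Matrix.add_mul, Matrix.mul_add,
    Matrix.smul_mul, Matrix.mul_smul, Matrix.conjTranspose_mul,
    Matrix.conjTranspose_conjTranspose, RCLike.star_def, map_mul, Complex.conj_conj]
  module

variable {H : Type*} [NormedAddCommGroup H] [InnerProductSpace ℂ H]

theorem form_Dm (x0 x1 : Matrix ι ι ℂ) (a b : ℂ) (u v : ι → H) :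
    form (Dm x0 x1 a b) u v = form 1 u v - (((‖a‖ ^ 2 : ℝ) : ℂ) * form (x0ᴴ * x0) u v +
      ((‖b‖ ^ 2 : ℝ) : ℂ) * form (x1ᴴ * x1) u v + (conj a * b) * form (x0ᴴ * x1) u v +
        conj (conj a * b) * form (x0ᴴ * x1)ᴴ u v) := by
  rw [Dm_expand]
  simp only [form_sub, form_add, form_smul]

theorem form_Dm_re (x0 x1 : Matrix ι ι ℂ) (a b : ℂ) (u : ι → H) :
    (form (Dm x0 x1 a b) u u).re = (form 1 u u).re - ‖a‖ ^ 2 * (form (x0ᴴ * x0) u u).re -
      ‖b‖ ^ 2 * (form (x1ᴴ * x1) u u).re - 2 * ((conj a * b) * form (x0ᴴ * x1) u u).re := by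
  rw [form_Dm, form_conj]
  simp only [Complex.sub_re, Complex.add_re, Complex.re_ofReal_mul]
  have : (conj (conj a * b) * conj (form (x0ᴴ * x1) u u)).re =
      ((conj a * b) * form (x0ᴴ * x1) u u).re := by
    rw [← map_mul, Complex.conj_re]
  rw [this]
  ring

variable (hab : ∀ j, ‖α j‖ ^ 2 + ‖β j‖ ^ 2 = 1) (h1 : ∑ j, c j * ‖α j‖ ^ 2 = 1)
  (h2 : ∑ j, c j * ‖β j‖ ^ 2 = 1) (h3 : ∑ j, (c j : ℂ) * (conj (α j) * β j) = 0)
  (h4 : ∑ j, ((c j * ‖α j‖ ^ 2 : ℝ) : ℂ) * (conj (α j) * β j) = 0)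

include hab h1 in
theorem sum_ab : ∑ j, c j * ‖α j‖ ^ 2 * ‖β j‖ ^ 2 = 1 - ∑ j, c j * ‖α j‖ ^ 4 := by
  rw [← h1, ← Finset.sum_sub_distrib]
  refine Finset.sum_congr rfl fun j _ => ?_
  have : ‖β j‖ ^ 2 = 1 - ‖α j‖ ^ 2 := by have := hab j; linarith
  rw [this]; ring

include hab h1 h2 in
theorem sum_bb : ∑ j, c j * ‖β j‖ ^ 2 * ‖β j‖ ^ 2 = ∑ j, c j * ‖α j‖ ^ 4 := by
  have h5 := sum_ab hab h1
  have h6 : ∑ j, c j * ‖β j‖ ^ 2 * ‖β j‖ ^ 2 + ∑ j, c j * ‖α j‖ ^ 2 * ‖β j‖ ^ 2 = 1 := by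
    rw [← h2, ← Finset.sum_add_distrib]
    refine Finset.sum_congr rfl fun j _ => ?_
    have := hab j
    have e : c j * ‖β j‖ ^ 2 * ‖β j‖ ^ 2 + c j * ‖α j‖ ^ 2 * ‖β j‖ ^ 2 =
      c j * ‖β j‖ ^ 2 * (‖α j‖ ^ 2 + ‖β j‖ ^ 2) := by ring
    rw [e, this, mul_one]
  linarith

include hab h3 h4 in
theorem sum_bg : ∑ j, ((c j * ‖β j‖ ^ 2 : ℝ) : ℂ) * (conj (α j) * β j) = 0 := by
  have : ∑ j, ((c j * ‖β j‖ ^ 2 : ℝ) : ℂ) * (conj (α j) * β j) =
      ∑ j, (c j : ℂ) * (conj (α j) * β j) -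
        ∑ j, ((c j * ‖α j‖ ^ 2 : ℝ) : ℂ) * (conj (α j) * β j) := by
    rw [← Finset.sum_sub_distrib]
    refine Finset.sum_congr rfl fun j _ => ?_
    have h : ‖β j‖ ^ 2 = 1 - ‖α j‖ ^ 2 := by have := hab j; linarith
    rw [h]; push_cast; ring
  rw [this, h3, h4, sub_zero]

include hab h1 h4 in
theorem S_A1 (x0 x1 : Matrix ι ι ℂ) (u : ι → H) :
    ∑ j, c j * ‖α j‖ ^ 2 * (form (Dm x0 x1 (α j) (β j)) u u).re = (form 1 u u).re -
      (∑ j, c j * ‖α j‖ ^ 4) * (form (x0ᴴ * x0) u u).re -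
      (1 - ∑ j, c j * ‖α j‖ ^ 4) * (form (x1ᴴ * x1) u u).re := by
  have h5 := sum_ab hab h1
  have h6 : ∑ j, c j * ‖α j‖ ^ 2 * (2 * ((conj (α j) * β j) * form (x0ᴴ * x1) u u).re) = 0 := by
    have : ∀ j, c j * ‖α j‖ ^ 2 * (2 * ((conj (α j) * β j) * form (x0ᴴ * x1) u u).re) =
        2 * ((((c j * ‖α j‖ ^ 2 : ℝ) : ℂ) * (conj (α j) * β j)) * form (x0ᴴ * x1) u u).re := by
      intro j
      have e : (((c j * ‖α j‖ ^ 2 : ℝ) : ℂ) * (conj (α j) * β j)) * form (x0ᴴ * x1) u u =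
        ((c j * ‖α j‖ ^ 2 : ℝ) : ℂ) * ((conj (α j) * β j) * form (x0ᴴ * x1) u u) := by ring
      rw [e, Complex.re_ofReal_mul]; ring
    simp_rw [this]
    rw [← Finset.mul_sum, ← Complex.re_sum, ← Finset.sum_mul, h4]
    simp
  have h7 : ∀ j, c j * ‖α j‖ ^ 2 * (form (Dm x0 x1 (α j) (β j)) u u).re =
      c j * ‖α j‖ ^ 2 * (form 1 u u).re - c j * ‖α j‖ ^ 4 * (form (x0ᴴ * x0) u u).re -
      c j * ‖α j‖ ^ 2 * ‖β j‖ ^ 2 * (form (x1ᴴ * x1) u u).re -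
      c j * ‖α j‖ ^ 2 * (2 * ((conj (α j) * β j) * form (x0ᴴ * x1) u u).re) := by
    intro j
    rw [form_Dm_re]; ring
  simp_rw [h7, Finset.sum_sub_distrib, h6, ← Finset.sum_mul, h1, h5]
  ring

include hab h1 h2 h3 h4 in
theorem S_A2 (x0 x1 : Matrix ι ι ℂ) (u : ι → H) :
    ∑ j, c j * ‖β j‖ ^ 2 * (form (Dm x0 x1 (α j) (β j)) u u).re = (form 1 u u).re -
      (1 - ∑ j, c j * ‖α j‖ ^ 4) * (form (x0ᴴ * x0) u u).re -
      (∑ j, c j * ‖α j‖ ^ 4) * (form (x1ᴴ * x1) u u).re := by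
  have h5 := sum_ab hab h1
  have h5' := sum_bb hab h1 h2
  have h5'' := sum_bg hab h3 h4
  have h6 : ∑ j, c j * ‖β j‖ ^ 2 * (2 * ((conj (α j) * β j) * form (x0ᴴ * x1) u u).re) = 0 := by
    have : ∀ j, c j * ‖β j‖ ^ 2 * (2 * ((conj (α j) * β j) * form (x0ᴴ * x1) u u).re) =
        2 * ((((c j * ‖β j‖ ^ 2 : ℝ) : ℂ) * (conj (α j) * β j)) * form (x0ᴴ * x1) u u).re := by
      intro j
      have e : (((c j * ‖β j‖ ^ 2 : ℝ) : ℂ) * (conj (α j) * β j)) * form (x0ᴴ * x1) u u =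
        ((c j * ‖β j‖ ^ 2 : ℝ) : ℂ) * ((conj (α j) * β j) * form (x0ᴴ * x1) u u) := by ring
      rw [e, Complex.re_ofReal_mul]; ring
    simp_rw [this]
    rw [← Finset.mul_sum, ← Complex.re_sum, ← Finset.sum_mul, h5'']
    simp
  have h7 : ∀ j, c j * ‖β j‖ ^ 2 * (form (Dm x0 x1 (α j) (β j)) u u).re =
      c j * ‖β j‖ ^ 2 * (form 1 u u).re -
      c j * ‖α j‖ ^ 2 * ‖β j‖ ^ 2 * (form (x0ᴴ * x0) u u).re -
      c j * ‖β j‖ ^ 2 * ‖β j‖ ^ 2 * (form (x1ᴴ * x1) u u).re -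
      c j * ‖β j‖ ^ 2 * (2 * ((conj (α j) * β j) * form (x0ᴴ * x1) u u).re) := by
    intro j
    rw [form_Dm_re]; ring
  simp_rw [h7, Finset.sum_sub_distrib, h6, ← Finset.sum_mul, h2, h5, h5']
  ring

include hab h1 h3 h4 in
theorem S_C (x0 x1 : Matrix ι ι ℂ) (u v : ι → H) :
    ∑ j, (c j : ℂ) * (conj (conj (α j) * β j) * form (Dm x0 x1 (α j) (β j)) u v) =
      - ((1 - ∑ j, c j * ‖α j‖ ^ 4 : ℝ) : ℂ) * form (x0ᴴ * x1) u v -
        conj (∑ j, (c j : ℂ) * (conj (α j) * β j) ^ 2) * form (x0ᴴ * x1)ᴴ u v := by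
  have h5 := sum_ab hab h1
  have k3 : ∑ j, (c j : ℂ) * conj (conj (α j) * β j) = 0 := by
    have := congrArg conj h3
    rw [map_sum, map_zero] at this
    rw [← this]
    exact Finset.sum_congr rfl fun j _ => by
      simp only [map_mul, Complex.conj_ofReal, Complex.conj_conj]
  have k4 : ∑ j, ((c j * ‖α j‖ ^ 2 : ℝ) : ℂ) * conj (conj (α j) * β j) = 0 := by
    have := congrArg conj h4
    rw [map_sum, map_zero] at this
    rw [← this]
    exact Finset.sum_congr rfl fun j _ => by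
      simp only [map_mul, Complex.conj_ofReal, Complex.conj_conj]
  have k5 : ∑ j, ((c j * ‖β j‖ ^ 2 : ℝ) : ℂ) * conj (conj (α j) * β j) = 0 := by
    have := congrArg conj (sum_bg hab h3 h4)
    rw [map_sum, map_zero] at this
    rw [← this]
    exact Finset.sum_congr rfl fun j _ => by
      simp only [map_mul, Complex.conj_ofReal, Complex.conj_conj]
  have k6 : ∑ j, (c j : ℂ) * (conj (conj (α j) * β j) * (conj (α j) * β j)) =
      ((1 - ∑ j, c j * ‖α j‖ ^ 4 : ℝ) : ℂ) := by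
    rw [← h5, Complex.ofReal_sum]
    refine Finset.sum_congr rfl fun j _ => ?_
    rw [mul_comm (conj _), Complex.mul_conj, Complex.normSq_eq_norm_sq, norm_mul,
      RCLike.norm_conj]
    push_cast; ring
  have k7 : ∑ j, (c j : ℂ) * (conj (conj (α j) * β j) * conj (conj (α j) * β j)) =
      conj (∑ j, (c j : ℂ) * (conj (α j) * β j) ^ 2) := by
    rw [map_sum]
    refine Finset.sum_congr rfl fun j _ => ?_
    simp only [map_mul, Complex.conj_ofReal, map_pow, Complex.conj_conj]; ring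
  have h7 : ∀ j, (c j : ℂ) * (conj (conj (α j) * β j) * form (Dm x0 x1 (α j) (β j)) u v) =
      ((c j : ℂ) * conj (conj (α j) * β j)) * form 1 u v -
      (((c j * ‖α j‖ ^ 2 : ℝ) : ℂ) * conj (conj (α j) * β j)) * form (x0ᴴ * x0) u v -
      (((c j * ‖β j‖ ^ 2 : ℝ) : ℂ) * conj (conj (α j) * β j)) * form (x1ᴴ * x1) u v -
      ((c j : ℂ) * (conj (conj (α j) * β j) * (conj (α j) * β j))) * form (x0ᴴ * x1) u v -
      ((c j : ℂ) * (conj (conj (α j) * β j) * conj (conj (α j) * β j))) *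
        form (x0ᴴ * x1)ᴴ u v := by
    intro j
    rw [form_Dm]
    push_cast
    ring
  simp_rw [h7, Finset.sum_sub_distrib, ← Finset.sum_mul, k3, k4, k5, k6, k7]
  ring

end ident

section psd

variable {ι κ : Type*} [Fintype ι] [Fintype κ]

theorem form_eq_dotProduct (M : Matrix ι ι ℂ) (x : ι → ℂ) :
    form M x x = star x ⬝ᵥ (M *ᵥ x) := by
  simp only [form, dotProduct, Matrix.mulVec, Finset.mul_sum]
  refine Finset.sum_congr rfl fun i _ => Finset.sum_congr rfl fun j _ => ?_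
  simp only [RCLike.inner_apply, Pi.star_apply, RCLike.star_def]
  ring

theorem posSemidef_of_form {M : Matrix ι ι ℂ} (hM : M.IsHermitian)
    (h : ∀ x : ι → ℂ, 0 ≤ (form M x x).re) : M.PosSemidef := by
  refine Matrix.PosSemidef.of_dotProduct_mulVec_nonneg hM fun x => ?_
  rw [Complex.nonneg_iff]
  refine ⟨?_, ?_⟩
  · rw [← form_eq_dotProduct]; exact h x
  · exact (hM.im_star_dotProduct_mulVec_self x).symm

theorem block_posSemidef {W0 W1 W2 : Matrix ι ι ℂ} (h0 : W0ᴴ = W0) (h2 : W2ᴴ = W2)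
    (h : ∀ u v : ι → ℂ, 0 ≤ (form W0 u u).re + (form W2 v v).re + 2 * (form W1 u v).re) :
    (Matrix.fromBlocks W0 W1 W1ᴴ W2).PosSemidef := by
  refine posSemidef_of_form (Matrix.IsHermitian.fromBlocks h0 rfl h2) fun x => ?_
  have e : form (Matrix.fromBlocks W0 W1 W1ᴴ W2) x x =
      form W0 (fun i => x (Sum.inl i)) (fun i => x (Sum.inl i)) +
      form W1 (fun i => x (Sum.inl i)) (fun i => x (Sum.inr i)) +
      (form W1ᴴ (fun i => x (Sum.inr i)) (fun i => x (Sum.inl i)) +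
      form W2 (fun i => x (Sum.inr i)) (fun i => x (Sum.inr i))) := by
    simp only [form, Fintype.sum_sum_type, Matrix.fromBlocks_apply₁₁, Matrix.fromBlocks_apply₁₂,
      Matrix.fromBlocks_apply₂₁, Matrix.fromBlocks_apply₂₂, Finset.sum_add_distrib]
    ring
  rw [e, form_conj]
  have := h (fun i => x (Sum.inl i)) (fun i => x (Sum.inr i))
  simp only [Complex.add_re, Complex.conj_re]
  linarith

variable {H : Type*} [NormedAddCommGroup H] [InnerProductSpace ℂ H]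

theorem form_comb {D : Matrix ι ι ℂ} (hD : Dᴴ = D) (x y : ℂ) (u v : ι → H) :
    (form D (x • u + y • v) (x • u + y • v)).re = ‖x‖ ^ 2 * (form D u u).re +
      ‖y‖ ^ 2 * (form D v v).re + 2 * (conj x * y * form D u v).re := by
  have h1 : form D v u = conj (form D u v) := by rw [← form_conj, hD]
  have h2 : form D (x • u + y • v) (x • u + y • v) = (conj x * x) * form D u u +
      (conj y * y) * form D v v + (conj x * y * form D u v + conj (conj x * y * form D u v)) := by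
    rw [form_add_left, form_add_right, form_add_right]
    simp only [form_smul_left, form_smul_right]
    rw [h1]
    simp only [map_mul, Complex.conj_conj]
    ring
  rw [h2]
  have hx : conj x * x = ((‖x‖ ^ 2 : ℝ) : ℂ) := by
    rw [mul_comm, Complex.mul_conj, Complex.normSq_eq_norm_sq]
  have hy : conj y * y = ((‖y‖ ^ 2 : ℝ) : ℂ) := by
    rw [mul_comm, Complex.mul_conj, Complex.normSq_eq_norm_sq]
  rw [hx, hy]
  simp only [Complex.add_re, Complex.re_ofReal_mul, Complex.conj_re]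
  ring

theorem elem_nonneg {D : Matrix ι ι ℂ} (hD : D.PosSemidef) (x y : ℂ) (u v : ι → H) :
    0 ≤ ‖x‖ ^ 2 * (form D u u).re + ‖y‖ ^ 2 * (form D v v).re +
      2 * (conj x * y * form D u v).re := by
  rw [← form_comb hD.isHermitian]
  exact form_nonneg hD _

theorem elem_le {D : Matrix ι ι ℂ} (hD : D.PosSemidef) (x y : ℂ) {Y0 Y1 : H →L[ℂ] H}
    {C : ℝ} (hY : ‖x • Y0 + y • Y1‖ ^ 2 ≤ C) (Z : ι → H) :
    ‖x‖ ^ 2 * (form D (fun i => Y0 (Z i)) (fun i => Y0 (Z i))).re +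
      ‖y‖ ^ 2 * (form D (fun i => Y1 (Z i)) (fun i => Y1 (Z i))).re +
      2 * (conj x * y * form D (fun i => Y0 (Z i)) (fun i => Y1 (Z i))).re ≤
      C * (form D Z Z).re := by
  rw [← form_comb hD.isHermitian]
  have e : (x • (fun i => Y0 (Z i)) + y • fun i => Y1 (Z i)) =
      fun i => (x • Y0 + y • Y1) (Z i) := by
    ext i; rfl
  rw [e]
  refine (form_map_le hD Z _).trans ?_
  exact mul_le_mul_of_nonneg_right hY (form_nonneg hD Z)

/-- (B1) -/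
theorem B1 (x0 x1 : Matrix κ ι ℂ) (u v : ι → H) :
    0 ≤ (form (x0ᴴ * x0) u u).re + (form (x1ᴴ * x1) v v).re + 2 * (form (x0ᴴ * x1) u v).re := by
  have h : (form (x0ᴴ * x0) u u).re + (form (x1ᴴ * x1) v v).re + 2 * (form (x0ᴴ * x1) u v).re =
      ∑ l, ‖act x0 u l + act x1 v l‖ ^ 2 := by
    rw [form_gram_self, form_gram_self, form_gram, Complex.ofReal_re, Complex.ofReal_re,
      Complex.re_sum, Finset.mul_sum, ← Finset.sum_add_distrib, ← Finset.sum_add_distrib]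
    refine Finset.sum_congr rfl fun l _ => ?_
    rw [norm_add_sq (𝕜 := ℂ)]
    simp only [RCLike.re_eq_complex_re]
    ring
  rw [h]
  positivity

/-- (B2) -/
theorem B2 (x0 x1 : Matrix κ ι ℂ) (u v : ι → H) {lam : ℝ} {mu : ℂ} (h : ‖mu‖ ≤ lam) :
    0 ≤ lam * ((form (x0ᴴ * x0) u u).re + (form (x1ᴴ * x1) u u).re +
      (form (x0ᴴ * x0) v v).re + (form (x1ᴴ * x1) v v).re) +
      2 * (lam * form (x0ᴴ * x1) u v - conj mu * form (x0ᴴ * x1)ᴴ u v).re := by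
  have hlam : 0 ≤ lam := (norm_nonneg _).trans h
  have h1 := B1 x0 x1 u v
  have h2 : ‖form (x0ᴴ * x1)ᴴ u v‖ ≤ ((form (x1ᴴ * x1) u u).re + (form (x0ᴴ * x0) v v).re) / 2 := by
    rw [Matrix.conjTranspose_mul, Matrix.conjTranspose_conjTranspose, form_gram, form_gram_self,
      form_gram_self, Complex.ofReal_re, Complex.ofReal_re, ← Finset.sum_add_distrib,
      Finset.sum_div]
    refine (norm_sum_le _ _).trans (Finset.sum_le_sum fun l _ => ?_)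
    refine (norm_inner_le_norm _ _).trans ?_
    nlinarith [sq_nonneg (‖act x1 u l‖ - ‖act x0 v l‖)]
  have h3 : -(lam * ((form (x1ᴴ * x1) u u).re + (form (x0ᴴ * x0) v v).re) / 2) ≤
      -(conj mu * form (x0ᴴ * x1)ᴴ u v).re := by
    have h4 : (conj mu * form (x0ᴴ * x1)ᴴ u v).re ≤ ‖mu‖ * ‖form (x0ᴴ * x1)ᴴ u v‖ := by
      refine (Complex.re_le_norm _).trans ?_
      rw [norm_mul, RCLike.norm_conj]
    have h5 : ‖mu‖ * ‖form (x0ᴴ * x1)ᴴ u v‖ ≤
        lam * (((form (x1ᴴ * x1) u u).re + (form (x0ᴴ * x0) v v).re) / 2) :=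
      mul_le_mul h h2 (norm_nonneg _) hlam
    linarith
  have h6 : (lam * form (x0ᴴ * x1) u v - conj mu * form (x0ᴴ * x1)ᴴ u v).re =
      lam * (form (x0ᴴ * x1) u v).re - (conj mu * form (x0ᴴ * x1)ᴴ u v).re := by
    rw [Complex.sub_re, Complex.re_ofReal_mul]
  rw [h6]
  nlinarith [mul_nonneg hlam h1]

end psd

section core

variable {J : Type*} [Fintype J] {c : J → ℝ} {α β : J → ℂ} {ι : Type*} [Fintype ι] [DecidableEq ι]
  {H : Type*} [NormedAddCommGroup H] [InnerProductSpace ℂ H]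

/-- the sums of the elementary blocks, first type: `∑ c_j D_j ⊗ [[a, ḡ], [g, b]]` paired -/
theorem sum_e1 (hab : ∀ j, ‖α j‖ ^ 2 + ‖β j‖ ^ 2 = 1) (h1 : ∑ j, c j * ‖α j‖ ^ 2 = 1)
    (h2 : ∑ j, c j * ‖β j‖ ^ 2 = 1) (h3 : ∑ j, (c j : ℂ) * (conj (α j) * β j) = 0)
    (h4 : ∑ j, ((c j * ‖α j‖ ^ 2 : ℝ) : ℂ) * (conj (α j) * β j) = 0)
    (x0 x1 : Matrix ι ι ℂ) (u v : ι → H) (σ : ℝ) :
    ∑ j, c j * (‖α j‖ ^ 2 * (form (Dm x0 x1 (α j) (β j)) u u).re +
      ‖β j‖ ^ 2 * (form (Dm x0 x1 (α j) (β j)) v v).re +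
      σ * (2 * (conj (conj (α j) * β j) * form (Dm x0 x1 (α j) (β j)) u v).re)) =
      (form 1 u u).re -
      (∑ j, c j * ‖α j‖ ^ 4) * (form (x0ᴴ * x0) u u).re -
      (1 - ∑ j, c j * ‖α j‖ ^ 4) * (form (x1ᴴ * x1) u u).re +
      ((form 1 v v).re -
      (1 - ∑ j, c j * ‖α j‖ ^ 4) * (form (x0ᴴ * x0) v v).re -
      (∑ j, c j * ‖α j‖ ^ 4) * (form (x1ᴴ * x1) v v).re) -
      σ * (2 * ((1 - ∑ j, c j * ‖α j‖ ^ 4) * (form (x0ᴴ * x1) u v).re +
        (conj (∑ j, (c j : ℂ) * (conj (α j) * β j) ^ 2) * form (x0ᴴ * x1)ᴴ u v).re)) := by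
  have e1 := S_A1 hab h1 h4 x0 x1 u
  have e2 := S_A2 hab h1 h2 h3 h4 x0 x1 v
  have e3 := congrArg Complex.re (S_C hab h1 h3 h4 x0 x1 u v)
  rw [Complex.re_sum] at e3
  have e4 : ∀ j, ((c j : ℂ) * (conj (conj (α j) * β j) * form (Dm x0 x1 (α j) (β j)) u v)).re =
      c j * (conj (conj (α j) * β j) * form (Dm x0 x1 (α j) (β j)) u v).re := fun j =>
    Complex.re_ofReal_mul _ _
  simp_rw [e4] at e3
  have e5 : (- ((1 - ∑ j, c j * ‖α j‖ ^ 4 : ℝ) : ℂ) * form (x0ᴴ * x1) u v -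
        conj (∑ j, (c j : ℂ) * (conj (α j) * β j) ^ 2) * form (x0ᴴ * x1)ᴴ u v).re =
      -((1 - ∑ j, c j * ‖α j‖ ^ 4) * (form (x0ᴴ * x1) u v).re) -
        (conj (∑ j, (c j : ℂ) * (conj (α j) * β j) ^ 2) * form (x0ᴴ * x1)ᴴ u v).re := by
    rw [Complex.sub_re, neg_mul, Complex.neg_re, Complex.re_ofReal_mul]
  rw [e5] at e3
  have e6 : ∀ j, c j * (‖α j‖ ^ 2 * (form (Dm x0 x1 (α j) (β j)) u u).re +
      ‖β j‖ ^ 2 * (form (Dm x0 x1 (α j) (β j)) v v).re +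
      σ * (2 * (conj (conj (α j) * β j) * form (Dm x0 x1 (α j) (β j)) u v).re)) =
      c j * ‖α j‖ ^ 2 * (form (Dm x0 x1 (α j) (β j)) u u).re +
      c j * ‖β j‖ ^ 2 * (form (Dm x0 x1 (α j) (β j)) v v).re +
      2 * σ * (c j * (conj (conj (α j) * β j) * form (Dm x0 x1 (α j) (β j)) u v).re) := by
    intro j; ring
  simp_rw [e6, Finset.sum_add_distrib, ← Finset.mul_sum]
  rw [e1, e2, e3]
  ring

/-- second type: `∑ c_j D_j ⊗ [[b, -ḡ], [-g, a]]` paired -/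
theorem sum_e2 (hab : ∀ j, ‖α j‖ ^ 2 + ‖β j‖ ^ 2 = 1) (h1 : ∑ j, c j * ‖α j‖ ^ 2 = 1)
    (h2 : ∑ j, c j * ‖β j‖ ^ 2 = 1) (h3 : ∑ j, (c j : ℂ) * (conj (α j) * β j) = 0)
    (h4 : ∑ j, ((c j * ‖α j‖ ^ 2 : ℝ) : ℂ) * (conj (α j) * β j) = 0)
    (x0 x1 : Matrix ι ι ℂ) (u v : ι → H) :
    ∑ j, c j * (‖β j‖ ^ 2 * (form (Dm x0 x1 (α j) (β j)) u u).re +
      ‖α j‖ ^ 2 * (form (Dm x0 x1 (α j) (β j)) v v).re -
      2 * (conj (conj (α j) * β j) * form (Dm x0 x1 (α j) (β j)) u v).re) =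
      (form 1 u u).re -
      (1 - ∑ j, c j * ‖α j‖ ^ 4) * (form (x0ᴴ * x0) u u).re -
      (∑ j, c j * ‖α j‖ ^ 4) * (form (x1ᴴ * x1) u u).re +
      ((form 1 v v).re -
      (∑ j, c j * ‖α j‖ ^ 4) * (form (x0ᴴ * x0) v v).re -
      (1 - ∑ j, c j * ‖α j‖ ^ 4) * (form (x1ᴴ * x1) v v).re) +
      2 * ((1 - ∑ j, c j * ‖α j‖ ^ 4) * (form (x0ᴴ * x1) u v).re +
        (conj (∑ j, (c j : ℂ) * (conj (α j) * β j) ^ 2) * form (x0ᴴ * x1)ᴴ u v).re) := by
  have e1 := S_A2 hab h1 h2 h3 h4 x0 x1 u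
  have e2 := S_A1 hab h1 h4 x0 x1 v
  have e3 := congrArg Complex.re (S_C hab h1 h3 h4 x0 x1 u v)
  rw [Complex.re_sum] at e3
  have e4 : ∀ j, ((c j : ℂ) * (conj (conj (α j) * β j) * form (Dm x0 x1 (α j) (β j)) u v)).re =
      c j * (conj (conj (α j) * β j) * form (Dm x0 x1 (α j) (β j)) u v).re := fun j =>
    Complex.re_ofReal_mul _ _
  simp_rw [e4] at e3
  have e5 : (- ((1 - ∑ j, c j * ‖α j‖ ^ 4 : ℝ) : ℂ) * form (x0ᴴ * x1) u v -
        conj (∑ j, (c j : ℂ) * (conj (α j) * β j) ^ 2) * form (x0ᴴ * x1)ᴴ u v).re =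
      -((1 - ∑ j, c j * ‖α j‖ ^ 4) * (form (x0ᴴ * x1) u v).re) -
        (conj (∑ j, (c j : ℂ) * (conj (α j) * β j) ^ 2) * form (x0ᴴ * x1)ᴴ u v).re := by
    rw [Complex.sub_re, neg_mul, Complex.neg_re, Complex.re_ofReal_mul]
  rw [e5] at e3
  have e6 : ∀ j, c j * (‖β j‖ ^ 2 * (form (Dm x0 x1 (α j) (β j)) u u).re +
      ‖α j‖ ^ 2 * (form (Dm x0 x1 (α j) (β j)) v v).re -
      2 * (conj (conj (α j) * β j) * form (Dm x0 x1 (α j) (β j)) u v).re) =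
      c j * ‖β j‖ ^ 2 * (form (Dm x0 x1 (α j) (β j)) u u).re +
      c j * ‖α j‖ ^ 2 * (form (Dm x0 x1 (α j) (β j)) v v).re -
      2 * (c j * (conj (conj (α j) * β j) * form (Dm x0 x1 (α j) (β j)) u v).re) := by
    intro j; ring
  simp_rw [e6, Finset.sum_sub_distrib, Finset.sum_add_distrib, ← Finset.mul_sum]
  rw [e1, e2, e3]
  ring

theorem two_core (hc : ∀ j, 0 < c j)
    (hab : ∀ j, ‖α j‖ ^ 2 + ‖β j‖ ^ 2 = 1) (h1 : ∑ j, c j * ‖α j‖ ^ 2 = 1)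
    (h2 : ∑ j, c j * ‖β j‖ ^ 2 = 1) (h3 : ∑ j, (c j : ℂ) * (conj (α j) * β j) = 0)
    (h4 : ∑ j, ((c j * ‖α j‖ ^ 2 : ℝ) : ℂ) * (conj (α j) * β j) = 0)
    (h5 : ‖∑ j, (c j : ℂ) * (conj (α j) * β j) ^ 2‖ ≤ 3 * ∑ j, c j * ‖α j‖ ^ 4 - 2)
    {x0 x1 : Matrix ι ι ℂ} (hD : ∀ j, (Dm x0 x1 (α j) (β j)).PosSemidef)
    {Y0 Y1 : H →L[ℂ] H} (hY : ∀ x y : ℂ, ‖x • Y0 + y • Y1‖ ^ 2 ≤ ‖x‖ ^ 2 + ‖y‖ ^ 2)
    (Z : ι → H) :
    (form (x0ᴴ * x0) (fun i => Y0 (Z i)) (fun i => Y0 (Z i))).re +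
      (form (x1ᴴ * x1) (fun i => Y1 (Z i)) (fun i => Y1 (Z i))).re +
      2 * (form (x0ᴴ * x1) (fun i => Y0 (Z i)) (fun i => Y1 (Z i))).re ≤
      2 * ∑ i, ‖Z i‖ ^ 2 := by
  set s := ∑ j, c j * ‖α j‖ ^ 4 with hs
  set δ := ∑ j, (c j : ℂ) * (conj (α j) * β j) ^ 2 with hδ
  -- `|δ| ≤ 1 - s`
  have hδ1 : ‖δ‖ ≤ 1 - s := by
    rw [hδ, hs, ← sum_ab hab h1]
    refine (norm_sum_le _ _).trans (le_of_eq (Finset.sum_congr rfl fun j _ => ?_))
    rw [norm_mul, norm_pow, norm_mul, RCLike.norm_conj, Complex.norm_real, Real.norm_eq_abs,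
      abs_of_pos (hc j)]
    ring
  set u : ι → H := fun i => Y0 (Z i) with hu
  set v : ι → H := fun i => Y1 (Z i) with hv
  have hN1 : (form (1 : Matrix ι ι ℂ) Z Z).re = ∑ i, ‖Z i‖ ^ 2 := by
    rw [form_one, Complex.ofReal_re]
  -- the sum of the `N(D_j)`
  have hNsum : ∑ j, c j * (form (Dm x0 x1 (α j) (β j)) Z Z).re =
      2 * (form (1 : Matrix ι ι ℂ) Z Z).re - (form (x0ᴴ * x0) Z Z).re -
        (form (x1ᴴ * x1) Z Z).re := by
    have e1 := S_A1 hab h1 h4 x0 x1 Z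
    have e2 := S_A2 hab h1 h2 h3 h4 x0 x1 Z
    have e3 : ∀ j, c j * (form (Dm x0 x1 (α j) (β j)) Z Z).re =
        c j * ‖α j‖ ^ 2 * (form (Dm x0 x1 (α j) (β j)) Z Z).re +
        c j * ‖β j‖ ^ 2 * (form (Dm x0 x1 (α j) (β j)) Z Z).re := by
      intro j
      have : c j = c j * (‖α j‖ ^ 2 + ‖β j‖ ^ 2) := by rw [hab, mul_one]
      conv_lhs => rw [this]
      ring
    simp_rw [e3, Finset.sum_add_distrib]
    rw [e1, e2]
    ring
  -- first elementary family is nonnegative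
  have hE1 : 0 ≤ ∑ j, c j * (‖α j‖ ^ 2 * (form (Dm x0 x1 (α j) (β j)) u u).re +
      ‖β j‖ ^ 2 * (form (Dm x0 x1 (α j) (β j)) v v).re +
      1 * (2 * (conj (conj (α j) * β j) * form (Dm x0 x1 (α j) (β j)) u v).re)) := by
    refine Finset.sum_nonneg fun j _ => mul_nonneg (hc j).le ?_
    have := elem_nonneg (hD j) (conj (α j)) (conj (β j)) u v
    rw [RCLike.norm_conj, RCLike.norm_conj] at this
    have e : conj (conj (α j)) * conj (β j) = conj (conj (α j) * β j) := by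
      rw [map_mul]
    rw [e] at this
    linarith
  rw [sum_e1 hab h1 h2 h3 h4] at hE1
  -- second elementary family
  have hE2 : ∑ j, c j * (‖β j‖ ^ 2 * (form (Dm x0 x1 (α j) (β j)) u u).re +
      ‖α j‖ ^ 2 * (form (Dm x0 x1 (α j) (β j)) v v).re -
      2 * (conj (conj (α j) * β j) * form (Dm x0 x1 (α j) (β j)) u v).re) ≤
      ∑ j, c j * (form (Dm x0 x1 (α j) (β j)) Z Z).re := by
    refine Finset.sum_le_sum fun j _ => mul_le_mul_of_nonneg_left ?_ (hc j).le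
    have h6 := elem_le (hD j) (β j) (-α j) (hY (β j) (-α j)) Z
    rw [norm_neg, add_comm (‖β j‖ ^ 2), hab, one_mul] at h6
    have e : conj (β j) * -α j = - conj (conj (α j) * β j) := by
      rw [map_mul, Complex.conj_conj]; ring
    rw [e, neg_mul, Complex.neg_re] at h6
    linarith
  rw [sum_e2 hab h1 h2 h3 h4, hNsum] at hE2
  have hYw : ∀ w : ℂ, ‖w‖ = 1 → ‖Y0 + w • Y1‖ ^ 2 ≤ 2 := by
    intro w hw
    have := hY 1 w
    rw [one_smul, hw] at this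
    norm_num at this
    exact this
  have hPh : (x0ᴴ * x0)ᴴ = x0ᴴ * x0 := by
    rw [Matrix.conjTranspose_mul, Matrix.conjTranspose_conjTranspose]
  have hQh : (x1ᴴ * x1)ᴴ = x1ᴴ * x1 := by
    rw [Matrix.conjTranspose_mul, Matrix.conjTranspose_conjTranspose]
  have hPu : (form (x0ᴴ * x0) u u).re ≤ (form (x0ᴴ * x0) Z Z).re := by
    have := elem_le (Matrix.posSemidef_conjTranspose_mul_self x0) 1 0 (hY 1 0) Z
    simpa using this
  have hQv : (form (x1ᴴ * x1) v v).re ≤ (form (x1ᴴ * x1) Z Z).re := by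
    have := elem_le (Matrix.posSemidef_conjTranspose_mul_self x1) 0 1 (hY 0 1) Z
    simpa using this
  set P := x0ᴴ * x0 with hP
  set Q := x1ᴴ * x1 with hQ
  set R := x0ᴴ * x1 with hR
  rcases le_total s (3 / 4) with hcase | hcase
  · -- case 1
    have hmu : ‖(2 * δ : ℂ)‖ ≤ 2 * s - 1 := by
      rw [norm_mul, RCLike.norm_ofNat]
      linarith
    have hW0 : (((2 * s - 1 : ℝ) : ℂ) • (P + Q))ᴴ = ((2 * s - 1 : ℝ) : ℂ) • (P + Q) := by
      rw [Matrix.conjTranspose_smul, Matrix.conjTranspose_add, hPh, hQh, RCLike.star_def,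
        Complex.conj_ofReal]
    have hpsd := block_posSemidef (W0 := ((2 * s - 1 : ℝ) : ℂ) • (P + Q))
      (W1 := ((2 * s - 1 : ℝ) : ℂ) • R - conj (2 * δ) • Rᴴ)
      (W2 := ((2 * s - 1 : ℝ) : ℂ) • (P + Q)) hW0 hW0 (by
        intro u v
        have hb := B2 x0 x1 u v hmu
        simp only [form_smul, form_sub, form_add, Complex.re_ofReal_mul, Complex.add_re]
        rw [← hP, ← hQ, ← hR] at hb
        linarith)
    have ht := toep_le hpsd hYw Z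
    simp only [form_smul, form_sub, form_add, Complex.re_ofReal_mul, Complex.add_re,
      Complex.sub_re] at ht
    rw [← hu, ← hv] at ht
    have e2 : (conj (2 * δ) * form Rᴴ u v).re = 2 * (conj δ * form Rᴴ u v).re := by
      have : conj (2 * δ) * form Rᴴ u v = ((2 : ℝ) : ℂ) * (conj δ * form Rᴴ u v) := by
        rw [map_mul]
        have : conj (2 : ℂ) = 2 := by
          rw [show (2 : ℂ) = ((2 : ℝ) : ℂ) by norm_num, Complex.conj_ofReal]
        rw [this]; push_cast; ring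
      rw [this, Complex.re_ofReal_mul]
    rw [e2] at ht
    have h34 : 0 ≤ 3 - 4 * s := by linarith
    have q1 := mul_le_mul_of_nonneg_left hPu h34
    have q2 := mul_le_mul_of_nonneg_left hQv h34
    rw [← hN1]
    nlinarith
  · -- case 2
    have hconj2 : ∀ z : ℂ, (conj (2 * δ) * z).re = 2 * (conj δ * z).re := by
      intro z
      have : conj (2 * δ) * z = ((2 : ℝ) : ℂ) * (conj δ * z) := by
        rw [map_mul]
        have : conj (2 : ℂ) = 2 := by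
          rw [show (2 : ℂ) = ((2 : ℝ) : ℂ) by norm_num, Complex.conj_ofReal]
        rw [this]; push_cast; ring
      rw [this, Complex.re_ofReal_mul]
    have hmu : ‖(2 * δ : ℂ)‖ ≤ 2 - 2 * s := by
      rw [norm_mul, RCLike.norm_ofNat]
      linarith
    have hW0 : (((4 * s - 3 : ℝ) : ℂ) • (1 : Matrix ι ι ℂ) + ((1 - s : ℝ) : ℂ) • (P + Q))ᴴ =
        ((4 * s - 3 : ℝ) : ℂ) • (1 : Matrix ι ι ℂ) + ((1 - s : ℝ) : ℂ) • (P + Q) := by
      rw [Matrix.conjTranspose_add, Matrix.conjTranspose_smul, Matrix.conjTranspose_smul,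
        Matrix.conjTranspose_add, hPh, hQh, Matrix.conjTranspose_one]
      simp only [RCLike.star_def, Complex.conj_ofReal]
    have h43 : 0 ≤ 4 * s - 3 := by linarith
    have h21 : 0 < 2 * s - 1 := by linarith
    have hpsd := block_posSemidef
      (W0 := ((4 * s - 3 : ℝ) : ℂ) • (1 : Matrix ι ι ℂ) + ((1 - s : ℝ) : ℂ) • (P + Q))
      (W1 := ((3 * s - 2 : ℝ) : ℂ) • R - conj δ • Rᴴ)
      (W2 := ((4 * s - 3 : ℝ) : ℂ) • (1 : Matrix ι ι ℂ) + ((1 - s : ℝ) : ℂ) • (P + Q))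
      hW0 hW0 (by
        intro u v
        have hb1 := B1 x0 x1 u v
        have hb2 := B2 x0 x1 u v hmu
        rw [← hP, ← hQ, ← hR] at hb1 hb2
        have he : 0 ≤ ∑ j, c j * (‖α j‖ ^ 2 * (form (Dm x0 x1 (α j) (β j)) u u).re +
            ‖β j‖ ^ 2 * (form (Dm x0 x1 (α j) (β j)) v v).re +
            (-1) * (2 * (conj (conj (α j) * β j) * form (Dm x0 x1 (α j) (β j)) u v).re)) := by
          refine Finset.sum_nonneg fun j _ => mul_nonneg (hc j).le ?_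
          have := elem_nonneg (hD j) (conj (α j)) (-conj (β j)) u v
          rw [norm_neg, RCLike.norm_conj, RCLike.norm_conj] at this
          have e : conj (conj (α j)) * -conj (β j) = - conj (conj (α j) * β j) := by
            rw [map_mul]; ring
          rw [e, neg_mul, Complex.neg_re] at this
          linarith
        rw [sum_e1 hab h1 h2 h3 h4, ← hs, ← hδ, ← hP, ← hQ, ← hR] at he
        simp only [form_smul, form_sub, form_add, Complex.re_ofReal_mul, Complex.add_re,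
          Complex.sub_re]
        rw [Complex.sub_re, Complex.re_ofReal_mul, hconj2] at hb2
        have f1 := mul_nonneg h43 he
        have f2 := mul_nonneg (mul_nonneg h21.le h43) hb1
        have f3 := mul_nonneg h21.le hb2
        nlinarith [f1, f2, f3])
    have ht := toep_le hpsd hYw Z
    simp only [form_smul, form_sub, form_add, Complex.re_ofReal_mul, Complex.add_re,
      Complex.sub_re] at ht
    rw [← hu, ← hv] at ht
    have h22 : 0 ≤ 2 - 2 * s := by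
      have := norm_nonneg δ
      linarith
    have q1 := mul_le_mul_of_nonneg_left hE2 h22
    have q2 := mul_nonneg h21.le hE1
    rw [← hN1]
    have goal : (2 * s - 1) * ((form P u u).re + (form Q v v).re + 2 * (form R u v).re) ≤
        (2 * s - 1) * (2 * (form (1 : Matrix ι ι ℂ) Z Z).re) := by
      nlinarith [q1, q2, ht]
    exact le_of_mul_le_mul_left goal h21

end core

end CbRank
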